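import Pool.Agent.TH478.CE.Final
import Pool.Agent.TH478.CE.DualDefs

/-!
# Near-sharpness of the LP bound: periodic configurations and completely monotone potentials
-/

set_option autoImplicit false

open MeasureTheory

namespace Pool.Agent.J4.H93.NS

open Pool.Agent.TH478.CE

/-- the point `m₁ a + m₂ b` of the lattice with basis `a, b` -/
noncomputable def latPt (a b : P) (m : ℤ × ℤ) : P := (m.1 : ℝ) • a + (m.2 : ℝ) • b

/-- area of a fundamental domain -/
noncomputable def covol (a b : P) : ℝ := |a 0 * b 1 - a 1 * b 0|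

/-- the periodic configuration `⋃_j (x_j + ℤ a + ℤ b)` with distinct cosets and density `1` -/
structure IsConf (a b : P) (N : ℕ) (x : Fin N → P) : Prop where
  pos : 0 < N
  distinct : ∀ (j k : Fin N) (m : ℤ × ℤ), x j - x k + latPt a b m = 0 → j = k ∧ m = 0
  density : (N : ℝ) = covol a b

open Classical in
/-- the energy `E_p(C) = (1/N) ∑_{j,k} ∑_{v, x_j - x_k + v ≠ 0} p(|x_j - x_k + v|)` of the periodic
configuration, for a potential with values in `[0,∞]` -/
noncomputable def energy (p : ℝ → ENNReal) (a b : P) (N : ℕ) (x : Fin N → P) : ENNReal :=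
  (N : ENNReal)⁻¹ * ∑ j : Fin N, ∑ k : Fin N, ∑' m : ℤ × ℤ,
    if x j - x k + latPt a b m = 0 then 0 else p ‖x j - x k + latPt a b m‖

/-- the energy of the hexagonal lattice of density `1` -/
noncomputable def energyHex (p : ℝ → ENNReal) : ENNReal :=
  ∑' m : {m : ℤ × ℤ // m ≠ 0}, p ‖hexPt m.1‖

/-- the potential `p(r) = ∫ exp(-α r²) dμ(α)`; these are the functions `g(r²)`, `g` completely
monotone on `[0,∞)` or `(0,∞)` (Bernstein) -/
noncomputable def mix (μ : Measure ℝ) (r : ℝ) : ENNReal :=
  ∫⁻ α, ENNReal.ofReal (Real.exp (-α * r ^ 2)) ∂μ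

end Pool.Agent.J4.H93.NS
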