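import Pool.Agent.J4.H93.NS.Cfg
import Pool.Agent.Y773.Pois

/-!
Piece PER of project NS: the lower bound of the energy of a periodic configuration by the term `y = 0` of
the Poisson summation formula in the plane. The summation formula for continuous functions with
the decay `(1 + |z|)^(-3)` is proved as in `Pool.Agent.Y773.Pois` (Gaussian decay).
-/

set_option autoImplicit false

open MeasureTheory Topology Filter Set Pool.Agent.TH478.CE

namespace Pool.Agent.J4.H93.NS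

namespace Per

open Pool.Agent.Y773 (per per_add_int toT toT_eq toT_quot ech norm_ech continuous_ech
  ech_add_int mFourier_toT integral_cube ghat)

/-- the lattice point -/
abbrev lp (m : Fin 2 → ℤ) : Fin 2 → ℝ := fun i => (m i : ℝ)

/-- polynomial decay -/
def PD (g : (Fin 2 → ℝ) → ℂ) : Prop :=
  ∃ C : ℝ, 0 ≤ C ∧ ∀ z, ‖g z‖ ≤ C * ((1 + ‖z‖) ^ 3)⁻¹

theorem norm_le_lp (m : Fin 2 → ℤ) : ‖m‖ ≤ ‖lp m‖ := by
  refine (pi_norm_le_iff_of_nonneg (norm_nonneg _)).2 fun i => ?_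
  have h := norm_le_pi_norm (lp m) i
  have e : ‖lp m i‖ = ‖m i‖ := by
    unfold lp
    rw [Int.norm_eq_abs, Real.norm_eq_abs]
  rw [e] at h
  exact h

theorem summable_wt : Summable fun m : Fin 2 → ℤ => ((1 + ‖lp m‖) ^ 3)⁻¹ := by
  have h1 := EisensteinSeries.summable_one_div_norm_rpow (k := 3) (by norm_num)
  have h2 : Summable fun m : Fin 2 → ℤ => if m = 0 then (1 : ℝ) else 0 :=
    (hasSum_ite_eq (0 : Fin 2 → ℤ) (1 : ℝ)).summable
  refine Summable.of_nonneg_of_le (fun m => by positivity) (fun m => ?_) (h1.add h2)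
  by_cases hm : m = 0
  · subst hm
    rw [if_pos rfl]
    have h3 : ((1 + ‖lp (0 : Fin 2 → ℤ)‖) ^ 3)⁻¹ ≤ (1 : ℝ) := by
      refine inv_le_one_of_one_le₀ (one_le_pow₀ ?_)
      have := norm_nonneg (lp (0 : Fin 2 → ℤ))
      linarith
    have h4 : (0 : ℝ) ≤ ‖(0 : Fin 2 → ℤ)‖ ^ (-(3 : ℝ)) := Real.rpow_nonneg (norm_nonneg _) _
    linarith
  · rw [if_neg hm, add_zero]
    have h3 : 0 < ‖m‖ := norm_pos_iff.2 hm
    rw [Real.rpow_neg h3.le, show (3 : ℝ) = ((3 : ℕ) : ℝ) by norm_num, Real.rpow_natCast]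
    refine inv_anti₀ (by positivity) ?_
    refine pow_le_pow_left₀ h3.le ?_ 3
    have := norm_le_lp m
    linarith

theorem pd_bound {g : (Fin 2 → ℝ) → ℂ} (hg : PD g) (R : ℝ) (hR : 0 ≤ R) :
    ∃ C : ℝ, 0 ≤ C ∧ ∀ z, ‖z‖ ≤ R → ∀ m : Fin 2 → ℤ,
      ‖g (z + lp m)‖ ≤ C * ((1 + ‖lp m‖) ^ 3)⁻¹ := by
  obtain ⟨C, hC, h⟩ := hg
  refine ⟨C * (1 + R) ^ 3, by positivity, fun z hz m => ?_⟩
  have h1 := h (z + lp m)
  have h2 : ‖lp m‖ ≤ ‖z + lp m‖ + R := by
    have : lp m = (z + lp m) - z := by simp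
    calc ‖lp m‖ = ‖(z + lp m) - z‖ := by rw [← this]
      _ ≤ ‖z + lp m‖ + ‖z‖ := norm_sub_le _ _
      _ ≤ _ := by linarith
  have h3 : 1 + ‖lp m‖ ≤ (1 + R) * (1 + ‖z + lp m‖) := by
    nlinarith [norm_nonneg (z + lp m)]
  have h4 : (1 + ‖lp m‖) ^ 3 ≤ (1 + R) ^ 3 * (1 + ‖z + lp m‖) ^ 3 := by
    rw [← mul_pow]
    exact pow_le_pow_left₀ (by positivity) h3 3
  refine h1.trans ?_
  rw [mul_assoc]
  refine mul_le_mul_of_nonneg_left ?_ hC
  have h5 : 0 < (1 + ‖lp m‖) ^ 3 := by positivity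
  have h6 : 0 < (1 + ‖z + lp m‖) ^ 3 := by positivity
  rw [inv_le_iff_one_le_mul₀ h6, mul_assoc, mul_comm ((1 + ‖lp m‖) ^ 3)⁻¹, ← mul_assoc,
    ← div_eq_mul_inv, one_le_div h5]
  exact h4

theorem summable_pd {g : (Fin 2 → ℝ) → ℂ} (hg : PD g) (z : Fin 2 → ℝ) :
    Summable fun m : Fin 2 → ℤ => ‖g (z + lp m)‖ := by
  obtain ⟨C, hC, h⟩ := pd_bound hg ‖z‖ (norm_nonneg _)
  exact Summable.of_nonneg_of_le (fun _ => norm_nonneg _) (fun m => h z le_rfl m)
    (summable_wt.mul_left C)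

theorem continuous_per {g : (Fin 2 → ℝ) → ℂ} (hg : PD g) (hc : Continuous g) :
    Continuous (per g) := by
  rw [continuous_iff_continuousAt]
  intro z0
  obtain ⟨C, hC, h⟩ := pd_bound hg (‖z0‖ + 1) (by positivity)
  have h1 : ContinuousOn (per g) (Metric.ball 0 (‖z0‖ + 1)) := by
    refine continuousOn_tsum (u := fun m : Fin 2 → ℤ => C * ((1 + ‖lp m‖) ^ 3)⁻¹) ?_ ?_ ?_
    · intro m
      exact (hc.comp (continuous_id.add continuous_const)).continuousOn
    · exact summable_wt.mul_left C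
    · intro m z hz
      exact h z (by simpa using (mem_ball_zero_iff.1 hz).le) m
  exact h1.continuousAt (Metric.isOpen_ball.mem_nhds (by simp))

/-- the periodisation on the torus -/
noncomputable def perT {g : (Fin 2 → ℝ) → ℂ} (hg : PD g) (hc : Continuous g) :
    C(UnitAddTorus (Fin 2), ℂ) where
  toFun t := per g (Function.surjInv (toT_quot (ι := Fin 2)).surjective t)
  continuous_toFun := by
    rw [(toT_quot (ι := Fin 2)).isQuotientMap.continuous_iff]
    have : (fun t => per g (Function.surjInv (toT_quot (ι := Fin 2)).surjective t)) ∘ toT =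
        per g := by
      funext z
      obtain ⟨k, hk⟩ := toT_eq (Function.surjInv_eq (toT_quot (ι := Fin 2)).surjective (toT z))
      simp only [Function.comp_apply]
      rw [hk]
      exact per_add_int z k
    rw [this]
    exact continuous_per hg hc

theorem perT_apply {g : (Fin 2 → ℝ) → ℂ} (hg : PD g) (hc : Continuous g) (z : Fin 2 → ℝ) :
    perT hg hc (toT z) = per g z := by
  obtain ⟨k, hk⟩ := toT_eq (Function.surjInv_eq (toT_quot (ι := Fin 2)).surjective (toT z))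
  show per g (Function.surjInv (toT_quot (ι := Fin 2)).surjective (toT z)) = per g z
  rw [hk]
  exact per_add_int z k

theorem PD.integrable {g : (Fin 2 → ℝ) → ℂ} (hg : PD g) (hc : Continuous g) : Integrable g := by
  obtain ⟨C, hC, h⟩ := hg
  have h1 : Integrable (fun x : Fin 2 → ℝ => (1 + ‖x‖) ^ (-(3 : ℝ))) :=
    integrable_one_add_norm (by
      rw [Module.finrank_fintype_fun_eq_card, Fintype.card_fin]
      norm_num)
  refine (h1.const_mul C).mono' hc.aestronglyMeasurable (Eventually.of_forall fun z => ?_)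
  have h2 : (1 + ‖z‖) ^ (-(3 : ℝ)) = ((1 + ‖z‖) ^ 3)⁻¹ := by
    rw [Real.rpow_neg (by positivity), show (3 : ℝ) = ((3 : ℕ) : ℝ) by norm_num,
      Real.rpow_natCast]
  rw [h2]
  exact h z

theorem PD.ech_mul {g : (Fin 2 → ℝ) → ℂ} (hg : PD g) (k : Fin 2 → ℤ) :
    PD fun x => ech k x * g x := by
  obtain ⟨C, hC, h⟩ := hg
  refine ⟨C, hC, fun z => ?_⟩
  rw [norm_mul, norm_ech, one_mul]
  exact h z

theorem coeff_perT {g : (Fin 2 → ℝ) → ℂ} (hg : PD g) (hc : Continuous g) (k : Fin 2 → ℤ) :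
    UnitAddTorus.mFourierCoeff (perT hg hc) k = ghat g k := by
  rw [UnitAddTorus.mFourierCoeff_eq_integral (perT hg hc) k 0]
  have hf : PD fun x => ech (-k) x * g x := hg.ech_mul (-k)
  have hfc : Continuous fun x => ech (-k) x * g x := (continuous_ech _).mul hc
  unfold ghat
  rw [integral_cube _ (hf.integrable hfc)]
  have hmeas : MeasurableSet {x : Fin 2 → ℝ | ∀ i, x i ∈ Ioc (0 : ℝ) (0 + 1)} := by
    have e1 : {x : Fin 2 → ℝ | ∀ i, x i ∈ Ioc (0 : ℝ) (0 + 1)} =
        Set.pi Set.univ fun _ => Ioc (0 : ℝ) (0 + 1) := by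
      ext x
      simp
    rw [e1]
    exact MeasurableSet.univ_pi fun _ => measurableSet_Ioc
  have hvol : volume {x : Fin 2 → ℝ | ∀ i, x i ∈ Ioc (0 : ℝ) (0 + 1)} = 1 := by
    have e1 : {x : Fin 2 → ℝ | ∀ i, x i ∈ Ioc (0 : ℝ) (0 + 1)} =
        Set.pi Set.univ fun _ => Ioc (0 : ℝ) (0 + 1) := by
      ext x
      simp
    rw [e1, volume_pi_pi]
    simp
  have e0 : {x : Fin 2 → ℝ | ∀ i, x i ∈ Ioc ((0 : Fin 2 → ℝ) i) ((0 : Fin 2 → ℝ) i + 1)} =
      {x : Fin 2 → ℝ | ∀ i, x i ∈ Ioc (0 : ℝ) (0 + 1)} := rfl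
  rw [e0]
  obtain ⟨C, hC, hb⟩ := pd_bound hf 1 zero_le_one
  have hnorm : ∀ x ∈ {x : Fin 2 → ℝ | ∀ i, x i ∈ Ioc (0 : ℝ) (0 + 1)}, ‖x‖ ≤ 1 := by
    intro x hx
    rw [pi_norm_le_iff_of_nonneg zero_le_one]
    intro i
    have := hx i
    rw [Real.norm_eq_abs, abs_le]
    constructor <;> linarith [this.1, this.2]
  have hint : ∀ m : Fin 2 → ℤ, Integrable (fun z => ech (-k) (z + lp m) * g (z + lp m))
      (volume.restrict {x : Fin 2 → ℝ | ∀ i, x i ∈ Ioc (0 : ℝ) (0 + 1)}) := fun m =>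
    ((hf.integrable hfc).comp_add_right (lp m)).integrableOn
  have hsum : Summable fun m : Fin 2 → ℤ =>
      ∫ z in {x : Fin 2 → ℝ | ∀ i, x i ∈ Ioc (0 : ℝ) (0 + 1)},
        ‖ech (-k) (z + lp m) * g (z + lp m)‖ := by
    refine Summable.of_nonneg_of_le (fun m => integral_nonneg fun _ => norm_nonneg _)
      (fun m => ?_) (summable_wt.mul_left C)
    calc ∫ z in {x : Fin 2 → ℝ | ∀ i, x i ∈ Ioc (0 : ℝ) (0 + 1)},
          ‖ech (-k) (z + lp m) * g (z + lp m)‖
        ≤ ∫ _z in {x : Fin 2 → ℝ | ∀ i, x i ∈ Ioc (0 : ℝ) (0 + 1)},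
            C * ((1 + ‖lp m‖) ^ 3)⁻¹ := by
          refine setIntegral_mono_on (hint m).norm ?_ hmeas fun x hx => hb x (hnorm x hx) m
          refine integrable_const_iff.2 (Or.inr ?_)
          rw [isFiniteMeasure_iff, Measure.restrict_apply_univ, hvol]
          exact ENNReal.one_lt_top
      _ = C * ((1 + ‖lp m‖) ^ 3)⁻¹ := by
          rw [setIntegral_const, measureReal_def, hvol]
          simp
  refine Eq.trans ?_ (integral_tsum_of_summable_integral_norm hint hsum).symm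
  refine (setIntegral_congr_fun hmeas fun x _ => ?_)
  show UnitAddTorus.mFourier (-k) (toT x) • perT hg hc (toT x) = _
  rw [mFourier_toT, perT_apply, smul_eq_mul]
  unfold per
  rw [← tsum_mul_left]
  refine tsum_congr fun m => ?_
  have e := ech_add_int (-k) x m
  rw [← e]
  rfl

/-- **Poisson summation** -/
theorem poisson {g : (Fin 2 → ℝ) → ℂ} (hg : PD g) (hc : Continuous g) (hs : Summable (ghat g))
    (z : Fin 2 → ℝ) : ∑' m : Fin 2 → ℤ, g (z + lp m) = ∑' k : Fin 2 → ℤ, ghat g k * ech k z := by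
  have h1 : UnitAddTorus.mFourierCoeff (perT hg hc) = ghat g := funext fun k => coeff_perT hg hc k
  have h2 := UnitAddTorus.hasSum_mFourier_series_apply_of_summable (f := perT hg hc)
    (by rw [h1]; exact hs) (toT z)
  rw [perT_apply, h1] at h2
  rw [show ∑' m : Fin 2 → ℤ, g (z + lp m) = per g z from rfl, ← h2.tsum_eq]
  refine tsum_congr fun k => ?_
  rw [mFourier_toT, smul_eq_mul]

/-! ### The lattice -/

/-- `z ↦ z₀ a + z₁ b` -/
noncomputable def T (a b : P) (z : Fin 2 → ℝ) : P := z 0 • a + z 1 • b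

/-- the determinant -/
noncomputable def dt (a b : P) : ℝ := a 0 * b 1 - a 1 * b 0

theorem T_apply (a b : P) (z : Fin 2 → ℝ) (i : Fin 2) : T a b z i = z 0 * a i + z 1 * b i := by
  simp [T]

theorem T_add (a b : P) (z w : Fin 2 → ℝ) : T a b (z + w) = T a b z + T a b w := by
  ext i
  rw [PiLp.add_apply, T_apply, T_apply, T_apply]
  simp only [Pi.add_apply]
  ring

theorem T_sub (a b : P) (z w : Fin 2 → ℝ) : T a b (z - w) = T a b z - T a b w := by
  ext i
  rw [PiLp.sub_apply, T_apply, T_apply, T_apply]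
  simp only [Pi.sub_apply]
  ring

theorem T_lp (a b : P) (m : Fin 2 → ℤ) : T a b (lp m) = latPt a b (m 0, m 1) := rfl

/-- coordinates -/
noncomputable def cd (a b x : P) : Fin 2 → ℝ :=
  ![(x 0 * b 1 - x 1 * b 0) / dt a b, (a 0 * x 1 - a 1 * x 0) / dt a b]

theorem T_cd {a b : P} (h : dt a b ≠ 0) (x : P) : T a b (cd a b x) = x := by
  ext i
  rw [T_apply]
  unfold cd
  fin_cases i
  · simp only [Matrix.cons_val_zero, Matrix.cons_val_one, Fin.zero_eta, Fin.isValue]
    rw [div_mul_eq_mul_div, div_mul_eq_mul_div, ← add_div, div_eq_iff h]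
    unfold dt
    ring
  · simp only [Matrix.cons_val_zero, Matrix.cons_val_one, Fin.mk_one, Fin.isValue]
    rw [div_mul_eq_mul_div, div_mul_eq_mul_div, ← add_div, div_eq_iff h]
    unfold dt
    ring

theorem abs_coord_le (x : P) (i : Fin 2) : |x i| ≤ ‖x‖ := by
  have := PiLp.norm_apply_le x i
  rwa [Real.norm_eq_abs] at this

/-- the constant -/
noncomputable def K (a b : P) : ℝ := (|a 0| + |a 1| + |b 0| + |b 1|) / |dt a b|

theorem K_nonneg (a b : P) : 0 ≤ K a b := by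
  unfold K
  positivity

theorem norm_le_T {a b : P} (h : dt a b ≠ 0) (z : Fin 2 → ℝ) : ‖z‖ ≤ K a b * ‖T a b z‖ := by
  have hd : 0 < |dt a b| := abs_pos.2 h
  have h0 := abs_coord_le (T a b z) 0
  have h1 := abs_coord_le (T a b z) 1
  refine (pi_norm_le_iff_of_nonneg (mul_nonneg (K_nonneg a b) (norm_nonneg _))).2 fun i => ?_
  rw [Real.norm_eq_abs]
  unfold K
  rw [div_mul_eq_mul_div, le_div_iff₀ hd, ← abs_mul]
  have hn := norm_nonneg (T a b z)
  fin_cases i
  · show |z 0 * dt a b| ≤ _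
    have e : z 0 * dt a b = T a b z 0 * b 1 - T a b z 1 * b 0 := by
      rw [T_apply, T_apply]
      unfold dt
      ring
    rw [e]
    calc |T a b z 0 * b 1 - T a b z 1 * b 0| ≤ |T a b z 0 * b 1| + |T a b z 1 * b 0| :=
          abs_sub _ _
      _ = |T a b z 0| * |b 1| + |T a b z 1| * |b 0| := by rw [abs_mul, abs_mul]
      _ ≤ ‖T a b z‖ * |b 1| + ‖T a b z‖ * |b 0| := by gcongr
      _ ≤ _ := by nlinarith [abs_nonneg (a 0), abs_nonneg (a 1), abs_nonneg (b 0), abs_nonneg (b 1)]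
  · show |z 1 * dt a b| ≤ _
    have e : z 1 * dt a b = a 0 * T a b z 1 - a 1 * T a b z 0 := by
      rw [T_apply, T_apply]
      unfold dt
      ring
    rw [e]
    calc |a 0 * T a b z 1 - a 1 * T a b z 0| ≤ |a 0 * T a b z 1| + |a 1 * T a b z 0| :=
          abs_sub _ _
      _ = |a 0| * |T a b z 1| + |a 1| * |T a b z 0| := by rw [abs_mul, abs_mul]
      _ ≤ |a 0| * ‖T a b z‖ + |a 1| * ‖T a b z‖ := by gcongr
      _ ≤ _ := by nlinarith [abs_nonneg (a 0), abs_nonneg (a 1), abs_nonneg (b 0), abs_nonneg (b 1)]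

theorem decay {f : P → ℝ} (hf : IsRS f) : ∃ C : ℝ, 0 ≤ C ∧ ∀ x, |f x| ≤ C * ((1 + ‖x‖) ^ 3)⁻¹ := by
  obtain ⟨F, hF⟩ := hf.schwartz
  have h := fun x => SchwartzMap.one_add_le_sup_seminorm_apply (𝕜 := ℝ) (m := (3, 0)) (k := 3)
    (n := 0) le_rfl le_rfl F x
  set C : ℝ := 2 ^ 3 * (Finset.Iic ((3, 0) : ℕ × ℕ)).sup
    (fun m => SchwartzMap.seminorm ℝ m.1 m.2) F with hC
  have hC0 : 0 ≤ C := le_trans (by positivity) (h 0)
  refine ⟨C, hC0, fun x => ?_⟩
  have h1 := h x
  rw [norm_iteratedFDeriv_zero, Real.norm_eq_abs, hF] at h1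
  have h2 : 0 < (1 + ‖x‖) ^ 3 := by positivity
  rw [← div_eq_mul_inv, le_div_iff₀ h2]
  linarith [mul_comm |f x| ((1 + ‖x‖) ^ 3)]

/-- comparison of the weights -/
theorem wt_comp {K r s : ℝ} (hK : 0 ≤ K) (hr : 0 ≤ r) (hs : 0 ≤ s) (h : s ≤ K * r) :
    ((1 + r) ^ 3)⁻¹ ≤ (1 + K) ^ 3 * ((1 + s) ^ 3)⁻¹ := by
  have h1 : 1 + s ≤ (1 + K) * (1 + r) := by nlinarith
  have h2 : (1 + s) ^ 3 ≤ (1 + K) ^ 3 * (1 + r) ^ 3 := by
    rw [← mul_pow]
    exact pow_le_pow_left₀ (by positivity) h1 3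
  have h3 : 0 < (1 + r) ^ 3 := by positivity
  have h4 : 0 < (1 + s) ^ 3 := by positivity
  rw [← div_eq_mul_inv, le_div_iff₀ h4, inv_mul_le_iff₀ h3]
  linarith [mul_comm ((1 + K) ^ 3) ((1 + r) ^ 3)]

/-- the function in coordinates -/
noncomputable def g (f : P → ℝ) (a b : P) (z : Fin 2 → ℝ) : ℂ := (f (T a b z) : ℂ)

theorem T_cont (a b : P) : Continuous (T a b) := by
  unfold T
  fun_prop

theorem g_cont {f : P → ℝ} (hf : IsRS f) (a b : P) : Continuous (g f a b) :=
  Complex.continuous_ofReal.comp (hf.continuous.comp (T_cont a b))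

theorem g_pd {f : P → ℝ} (hf : IsRS f) {a b : P} (h : dt a b ≠ 0) : PD (g f a b) := by
  obtain ⟨C, hC, hb⟩ := decay hf
  refine ⟨C * (1 + K a b) ^ 3, by have := K_nonneg a b; positivity, fun z => ?_⟩
  unfold g
  rw [Complex.norm_real, Real.norm_eq_abs]
  refine (hb _).trans ?_
  rw [mul_assoc]
  exact mul_le_mul_of_nonneg_left (wt_comp (K_nonneg a b) (norm_nonneg _) (norm_nonneg _)
    (norm_le_T h z)) hC

/-- the dual lattice -/
noncomputable def yk (a b : P) (k : Fin 2 → ℤ) : P :=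
  WithLp.toLp 2 ![((k 0 : ℝ) * b 1 - (k 1 : ℝ) * a 1) / dt a b,
    (-(k 0 : ℝ) * b 0 + (k 1 : ℝ) * a 0) / dt a b]

theorem inner_P (x y : P) : inner ℝ x y = x 0 * y 0 + x 1 * y 1 := by
  rw [PiLp.inner_apply, Fin.sum_univ_two]
  simp only [RCLike.inner_apply, conj_trivial]
  ring

theorem inner_T {a b : P} (h : dt a b ≠ 0) (z : Fin 2 → ℝ) (k : Fin 2 → ℤ) :
    inner ℝ (T a b z) (yk a b k) = (k 0 : ℝ) * z 0 + (k 1 : ℝ) * z 1 := by
  rw [inner_P, T_apply, T_apply]
  have e0 : yk a b k 0 = ((k 0 : ℝ) * b 1 - (k 1 : ℝ) * a 1) / dt a b := rfl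
  have e1 : yk a b k 1 = (-(k 0 : ℝ) * b 0 + (k 1 : ℝ) * a 0) / dt a b := rfl
  rw [e0, e1, mul_div_assoc', mul_div_assoc', ← add_div, div_eq_iff h]
  unfold dt
  ring

theorem yk_zero (a b : P) : yk a b 0 = 0 := by
  ext i
  unfold yk
  fin_cases i <;> simp

theorem norm_le_yk {a b : P} (h : dt a b ≠ 0) (k : Fin 2 → ℤ) :
    ‖lp k‖ ≤ (‖a‖ + ‖b‖) * ‖yk a b k‖ := by
  refine (pi_norm_le_iff_of_nonneg (by positivity)).2 fun i => ?_
  have hn := norm_nonneg (yk a b k)
  have ha := norm_nonneg a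
  have hb := norm_nonneg b
  fin_cases i
  · have h1 := inner_T h ![1, 0] k
    have e : T a b ![1, 0] = a := by
      ext i
      rw [T_apply]
      simp
    rw [e] at h1
    simp only [Matrix.cons_val_zero, Matrix.cons_val_one, mul_one, mul_zero, add_zero] at h1
    show ‖((k 0 : ℤ) : ℝ)‖ ≤ _
    rw [← h1]
    refine (norm_inner_le_norm a _).trans ?_
    nlinarith
  · have h1 := inner_T h ![0, 1] k
    have e : T a b ![0, 1] = b := by
      ext i
      rw [T_apply]
      simp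
    rw [e] at h1
    simp only [Matrix.cons_val_zero, Matrix.cons_val_one, mul_one, mul_zero, zero_add] at h1
    show ‖((k 1 : ℤ) : ℝ)‖ ≤ _
    rw [← h1]
    refine (norm_inner_le_norm b _).trans ?_
    nlinarith

/-- change of variables -/
theorem int_T {a b : P} (h : dt a b ≠ 0) (F : P → ℂ) (hF : Continuous F) :
    ∫ z : Fin 2 → ℝ, F (T a b z) = ((|dt a b|⁻¹ : ℝ) : ℂ) * ∫ x : P, F x := by
  set M : Matrix (Fin 2) (Fin 2) ℝ := !![a 0, b 0; a 1, b 1] with hM
  have hdet : M.det = dt a b := by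
    rw [hM, Matrix.det_fin_two_of]
    unfold dt
    ring
  have hM0 : M.det ≠ 0 := by rw [hdet]; exact h
  have hmap := Real.map_matrix_volume_pi_eq_smul_volume_pi hM0
  have hT : ∀ z : Fin 2 → ℝ, T a b z = WithLp.toLp 2 (Matrix.toLin' M z) := by
    intro z
    ext i
    rw [T_apply]
    show _ = (M.mulVec z) i
    fin_cases i
    · simp [hM, Matrix.mulVec, dotProduct, Fin.sum_univ_two]
      ring
    · simp [hM, Matrix.mulVec, dotProduct, Fin.sum_univ_two]
      ring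
  have hcont : Continuous fun z : Fin 2 → ℝ => F (WithLp.toLp 2 z) :=
    hF.comp (PiLp.continuous_toLp 2 _)
  have hlin : Continuous (Matrix.toLin' M) := LinearMap.continuous_of_finiteDimensional _
  have h1 : ∫ z : Fin 2 → ℝ, F (T a b z) =
      ∫ z : Fin 2 → ℝ, (fun w : Fin 2 → ℝ => F (WithLp.toLp 2 w)) (Matrix.toLin' M z) := by
    refine integral_congr_ae (Eventually.of_forall fun z => ?_)
    show F (T a b z) = _
    rw [hT]
  rw [h1, ← integral_map hlin.aemeasurable hcont.aestronglyMeasurable, hmap,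
    integral_smul_measure, ENNReal.toReal_ofReal (abs_nonneg _), hdet,
    ← (PiLp.volume_preserving_toLp (Fin 2)).integral_comp
      (MeasurableEquiv.toLp 2 _).measurableEmbedding, abs_inv]
  rfl

theorem ghat_eq {f : P → ℝ} (hf : IsRS f) {a b : P} (h : dt a b ≠ 0) (k : Fin 2 → ℤ) :
    ghat (g f a b) k = ((|dt a b|⁻¹ * rft f (yk a b k) : ℝ) : ℂ) := by
  have hc : Continuous fun x : P =>
      Complex.exp (((-2 * Real.pi * inner ℝ x (yk a b k) : ℝ) : ℂ) * Complex.I) * (f x : ℂ) := by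
    have h1 : Continuous fun x : P => (inner ℝ x (yk a b k) : ℝ) := by fun_prop
    refine Continuous.mul ?_ (Complex.continuous_ofReal.comp hf.continuous)
    refine Complex.continuous_exp.comp ?_
    refine Continuous.mul ?_ continuous_const
    exact Complex.continuous_ofReal.comp (continuous_const.mul h1)
  have h1 := int_T h _ hc
  rw [← ft_eq_integral, ft_eq_rft hf] at h1
  rw [Complex.ofReal_mul, ← h1]
  unfold ghat
  refine integral_congr_ae (Eventually.of_forall fun z => ?_)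
  show ech (-k) z * g f a b z = _ * _
  unfold g ech
  congr 1
  rw [inner_T h, Fin.sum_univ_two]
  congr 1
  push_cast
  simp only [Pi.neg_apply, Int.cast_neg]
  ring

theorem summable_c {f : P → ℝ} (hf : IsRS f) {a b : P} (h : dt a b ≠ 0) :
    Summable fun k : Fin 2 → ℤ => |dt a b|⁻¹ * rft f (yk a b k) := by
  obtain ⟨C, hC, hb⟩ := decay hf.rft
  refine Summable.mul_left _ ?_
  refine Summable.of_norm_bounded (g := fun k : Fin 2 → ℤ =>
    C * ((1 + (‖a‖ + ‖b‖)) ^ 3 * ((1 + ‖lp k‖) ^ 3)⁻¹)) ((summable_wt.mul_left _).mul_left _)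
    fun k => ?_
  rw [Real.norm_eq_abs]
  refine (hb _).trans (mul_le_mul_of_nonneg_left ?_ hC)
  exact wt_comp (by positivity) (norm_nonneg _) (norm_nonneg _) (norm_le_yk h k)

theorem ech_sub (k : Fin 2 → ℤ) (u v : Fin 2 → ℝ) :
    ech k (u - v) = ech k u * (starRingEnd ℂ) (ech k v) := by
  unfold ech
  rw [← Complex.exp_conj, ← Complex.exp_add]
  congr 1
  rw [map_mul, map_mul, map_mul, Complex.conj_ofReal, Complex.conj_ofReal, Complex.conj_I]
  have : (starRingEnd ℂ) 2 = 2 := Complex.conj_ofNat 2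
  rw [this]
  simp only [Fin.sum_univ_two, Pi.sub_apply]
  push_cast
  ring

end Per

open Per in
open Per (lp) in
open Pool.Agent.Y773 (ech ghat) in
theorem per_ge (f : P → ℝ) (hf : IsRS f) (hp : ∀ y, 0 ≤ rft f y) (a b : P) (hab : covol a b ≠ 0)
    (N : ℕ) (x : Fin N → P) :
    (∀ j k : Fin N, Summable (fun m : ℤ × ℤ => f (x j - x k + latPt a b m))) ∧
    (N : ℝ) ^ 2 / covol a b * rft f 0 ≤
      ∑ j : Fin N, ∑ k : Fin N, ∑' m : ℤ × ℤ, f (x j - x k + latPt a b m) := by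
  have h : dt a b ≠ 0 := fun h0 => hab (by unfold covol; unfold dt at h0; rw [h0, abs_zero])
  have hcov : covol a b = |dt a b| := rfl
  set u : Fin N → Fin 2 → ℝ := fun j => cd a b (x j) with hu
  have hxu : ∀ (j k : Fin N) (m : Fin 2 → ℤ),
      x j - x k + latPt a b (m 0, m 1) = T a b (u j - u k + lp m) := by
    intro j k m
    rw [T_add, T_sub, T_lp, hu]
    simp only
    rw [T_cd h, T_cd h]
  have hgs : ∀ j k : Fin N, Summable fun m : Fin 2 → ℤ => g f a b (u j - u k + lp m) := fun j k =>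
    (summable_pd (g_pd hf h) (u j - u k)).of_norm
  have hfs : ∀ j k : Fin N, Summable fun m : Fin 2 → ℤ => f (T a b (u j - u k + lp m)) := by
    intro j k
    have h1 := hgs j k
    unfold g at h1
    exact Complex.summable_ofReal.1 h1
  have hE : ∀ j k : Fin N, (fun m : Fin 2 → ℤ => f (T a b (u j - u k + lp m))) =
      (fun m : ℤ × ℤ => f (x j - x k + latPt a b m)) ∘ (finTwoArrowEquiv ℤ) := by
    intro j k
    funext m
    show _ = f (x j - x k + latPt a b (m 0, m 1))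
    rw [hxu]
  refine ⟨fun j k => ?_, ?_⟩
  · have h1 := hfs j k
    rw [hE j k, (finTwoArrowEquiv ℤ).summable_iff] at h1
    exact h1
  · have hsc := summable_c hf h
    have hgh : Summable (ghat (g f a b)) := by
      have e : ghat (g f a b) = fun k => ((|dt a b|⁻¹ * rft f (yk a b k) : ℝ) : ℂ) :=
        funext fun k => ghat_eq hf h k
      rw [e]
      exact Complex.summable_ofReal.2 hsc
    set S : (Fin 2 → ℤ) → ℂ := fun k => ∑ j : Fin N, ech k (u j) with hS
    -- the value of the sum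
    have hval : ((∑ j : Fin N, ∑ k : Fin N, ∑' m : ℤ × ℤ, f (x j - x k + latPt a b m) : ℝ) : ℂ) =
        ∑' k : Fin 2 → ℤ, ghat (g f a b) k * (S k * (starRingEnd ℂ) (S k)) := by
      have h1 : ∀ j k : Fin N, ((∑' m : ℤ × ℤ, f (x j - x k + latPt a b m) : ℝ) : ℂ) =
          ∑' q : Fin 2 → ℤ, ghat (g f a b) q * ech q (u j - u k) := by
        intro j k
        rw [← poisson (g_pd hf h) (g_cont hf a b) hgh (u j - u k)]
        unfold g
        rw [← Complex.ofReal_tsum]
        refine congrArg _ ?_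
        rw [hE j k]
        exact ((finTwoArrowEquiv ℤ).tsum_eq
          (fun m : ℤ × ℤ => f (x j - x k + latPt a b m))).symm
      have h2 : ∀ j k : Fin N, Summable fun q : Fin 2 → ℤ =>
          ghat (g f a b) q * ech q (u j - u k) := by
        intro j k
        refine Summable.of_norm ?_
        refine hgh.norm.congr fun q => ?_
        rw [norm_mul, Pool.Agent.Y773.norm_ech, mul_one]
      rw [Complex.ofReal_sum]
      simp_rw [Complex.ofReal_sum, h1]
      have h3 : ∀ j : Fin N, (∑ k : Fin N, ∑' q : Fin 2 → ℤ,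
          ghat (g f a b) q * ech q (u j - u k)) = ∑' q : Fin 2 → ℤ, ∑ k : Fin N,
          ghat (g f a b) q * ech q (u j - u k) := fun j =>
        (Summable.tsum_finsetSum fun k _ => h2 j k).symm
      simp_rw [h3]
      rw [← Summable.tsum_finsetSum fun j _ => summable_sum fun k _ => h2 j k]
      refine tsum_congr fun q => ?_
      rw [hS]
      simp only
      rw [map_sum, Finset.sum_mul_sum, Finset.mul_sum]
      refine Finset.sum_congr rfl fun j _ => ?_
      rw [Finset.mul_sum]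
      refine Finset.sum_congr rfl fun k _ => ?_
      rw [ech_sub]
    have hval2 : (∑ j : Fin N, ∑ k : Fin N, ∑' m : ℤ × ℤ, f (x j - x k + latPt a b m)) =
        ∑' k : Fin 2 → ℤ, |dt a b|⁻¹ * rft f (yk a b k) * Complex.normSq (S k) := by
      apply Complex.ofReal_injective
      rw [hval, Complex.ofReal_tsum]
      refine tsum_congr fun k => ?_
      rw [ghat_eq hf h, Complex.mul_conj, ← Complex.ofReal_mul]
    have hSle : ∀ k, Complex.normSq (S k) ≤ (N : ℝ) ^ 2 := by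
      intro k
      rw [Complex.normSq_eq_norm_sq]
      refine pow_le_pow_left₀ (norm_nonneg _) ?_ 2
      refine (norm_sum_le _ _).trans ?_
      simp [Pool.Agent.Y773.norm_ech]
    have hc0 : ∀ k, 0 ≤ |dt a b|⁻¹ * rft f (yk a b k) := fun k =>
      mul_nonneg (inv_nonneg.2 (abs_nonneg _)) (hp _)
    have hsum : Summable fun k : Fin 2 → ℤ =>
        |dt a b|⁻¹ * rft f (yk a b k) * Complex.normSq (S k) := by
      refine Summable.of_nonneg_of_le (fun k => mul_nonneg (hc0 k) (Complex.normSq_nonneg _))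
        (fun k => mul_le_mul_of_nonneg_left (hSle k) (hc0 k)) (hsc.mul_right _)
    rw [hval2]
    have h0 := hsum.le_tsum 0 fun k _ => mul_nonneg (hc0 k) (Complex.normSq_nonneg _)
    refine le_trans (le_of_eq ?_) h0
    have hS0 : S 0 = N := by
      rw [hS]
      simp [ech]
    rw [hS0, yk_zero, hcov, Complex.normSq_natCast]
    ring

end Pool.Agent.J4.H93.NS
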