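import Pool.Agent.J4.H93.NS.Cfg2Aux
import Pool.Agent.J4.H93.NS.Per

/-!
# Project NS, piece CFG: the LP bound is below the energy of every periodic configuration
-/

set_option autoImplicit false

open MeasureTheory Pool.Agent.TH478.CE

namespace Pool.Agent.J4.H93.NS

theorem LP_le_energy {α : ℝ} (hα : 0 < α) {a b : P} {N : ℕ} {x : Fin N → P} (h : IsConf a b N x) :
    ENNReal.ofReal (LP α) ≤
      energy (fun r => ENNReal.ofReal (Real.exp (-α * r ^ 2))) a b N x :=
  Cfg2.LP_le_energy_of (fun f hf hp a b hab N x => per_ge f hf hp a b hab N x) hα h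

end Pool.Agent.J4.H93.NS
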