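import Pool.Agent.J4.H93.NS.Cfg
import Pool.Agent.TH478.CE.Dual

/-!
# Project NS, piece CFG: the LP bound is below the energy of every periodic configuration
-/

set_option autoImplicit false

open MeasureTheory Pool.Agent.TH478.CE

namespace Pool.Agent.J4.H93.NS

namespace Cfg2

/-- the statement of piece PER -/
def PerStatement : Prop :=
  ∀ (f : P → ℝ), IsRS f → (∀ y, 0 ≤ rft f y) → ∀ (a b : P), covol a b ≠ 0 →
    ∀ (N : ℕ) (x : Fin N → P),
    (∀ j k : Fin N, Summable (fun m : ℤ × ℤ => f (x j - x k + latPt a b m))) ∧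
    (N : ℝ) ^ 2 / covol a b * rft f 0 ≤
      ∑ j : Fin N, ∑ k : Fin N, ∑' m : ℤ × ℤ, f (x j - x k + latPt a b m)

open Classical in
/-- the real energy -/
noncomputable def term (α : ℝ) (a b : P) {N : ℕ} (x : Fin N → P) (j k : Fin N) (m : ℤ × ℤ) : ℝ :=
  if x j - x k + latPt a b m = 0 then 0 else Real.exp (-α * ‖x j - x k + latPt a b m‖ ^ 2)

theorem term_nonneg (α : ℝ) (a b : P) {N : ℕ} (x : Fin N → P) (j k : Fin N) (m : ℤ × ℤ) :
    0 ≤ term α a b x j k m := by
  unfold term
  split_ifs
  · exact le_rfl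
  · exact (Real.exp_pos _).le

theorem summable_term (hper : PerStatement) {α : ℝ} (hα : 0 < α) {a b : P} {N : ℕ} {x : Fin N → P}
    (hcov : covol a b ≠ 0) (j k : Fin N) : Summable (term α a b x j k) := by
  have h1 := (hper (fun x : P => Real.exp (-α * ‖x‖ ^ 2)) (isRS_gauss hα) (fun y => by
    rw [rft_gauss hα]
    have := Real.pi_pos
    positivity) a b hcov N x).1 j k
  refine Summable.of_nonneg_of_le (fun m => term_nonneg α a b x j k m) (fun m => ?_) h1
  unfold term
  split_ifs
  · exact (Real.exp_pos _).le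
  · exact le_rfl

theorem LP_le_real (hper : PerStatement) {α : ℝ} (hα : 0 < α) {a b : P} {N : ℕ} {x : Fin N → P}
    (h : IsConf a b N x) :
    LP α ≤ (N : ℝ)⁻¹ * ∑ j : Fin N, ∑ k : Fin N, ∑' m : ℤ × ℤ, term α a b x j k m := by
  classical
  have hN : (0 : ℝ) < N := by exact_mod_cast h.pos
  have hcov : covol a b ≠ 0 := by rw [← h.density]; exact hN.ne'
  refine LP_le hα (fun f hf => ?_)
  obtain ⟨hs, hle⟩ := hper f hf.rs (fun y => (hf.pos y).2) a b hcov N x
  have e1 : (N : ℝ) ^ 2 / covol a b * rft f 0 = N * rft f 0 := by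
    rw [← h.density, pow_two, mul_div_assoc, div_self hN.ne', mul_one]
  rw [e1] at hle
  have key : ∀ j k : Fin N, ∑' m : ℤ × ℤ, f (x j - x k + latPt a b m) ≤
      (if j = k then f 0 else 0) + ∑' m : ℤ × ℤ, term α a b x j k m := by
    intro j k
    have hv : HasSum (fun m : ℤ × ℤ => if (j = k ∧ m = 0) then f 0 else 0)
        (if j = k then f 0 else 0) := by
      by_cases hjk : j = k
      · simp only [hjk, true_and, if_true]
        exact hasSum_ite_eq 0 (f 0)
      · simp only [hjk, false_and, if_false]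
        exact hasSum_zero
    have hu := summable_term hper hα (x := x) hcov j k
    rw [← hv.tsum_eq, ← hv.summable.tsum_add hu]
    refine (hs j k).tsum_le_tsum (fun m => ?_) (hv.summable.add hu)
    by_cases hz : x j - x k + latPt a b m = 0
    · have h2 := h.distinct j k m hz
      rw [if_pos h2, hz]
      have := term_nonneg α a b x j k m
      linarith
    · have h2 : ¬ (j = k ∧ m = 0) := by
        rintro ⟨h3, h4⟩
        apply hz
        rw [h3, h4]
        simp [latPt]
      rw [if_neg h2, zero_add]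
      unfold term
      rw [if_neg hz]
      exact hf.le _ hz
  have hsum : ∑ j : Fin N, ∑ k : Fin N, ∑' m : ℤ × ℤ, f (x j - x k + latPt a b m) ≤
      N * f 0 + ∑ j : Fin N, ∑ k : Fin N, ∑' m : ℤ × ℤ, term α a b x j k m := by
    calc ∑ j : Fin N, ∑ k : Fin N, ∑' m : ℤ × ℤ, f (x j - x k + latPt a b m)
        ≤ ∑ j : Fin N, ∑ k : Fin N, ((if j = k then f 0 else 0) +
            ∑' m : ℤ × ℤ, term α a b x j k m) :=
          Finset.sum_le_sum (fun j _ => Finset.sum_le_sum (fun k _ => key j k))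
      _ = _ := by
          simp only [Finset.sum_add_distrib, Finset.sum_ite_eq, Finset.mem_univ, if_true,
            Finset.sum_const, Finset.card_univ, Fintype.card_fin, nsmul_eq_mul]
  have h3 : (N : ℝ) * (rft f 0 - f 0) ≤
      ∑ j : Fin N, ∑ k : Fin N, ∑' m : ℤ × ℤ, term α a b x j k m := by
    linarith
  rw [inv_mul_eq_div, le_div_iff₀ hN]
  linarith

theorem energy_eq (hper : PerStatement) {α : ℝ} (hα : 0 < α) {a b : P} {N : ℕ} {x : Fin N → P}
    (h : IsConf a b N x) :
    energy (fun r => ENNReal.ofReal (Real.exp (-α * r ^ 2))) a b N x =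
      ENNReal.ofReal ((N : ℝ)⁻¹ * ∑ j : Fin N, ∑ k : Fin N, ∑' m : ℤ × ℤ, term α a b x j k m) := by
  classical
  have hN : (0 : ℝ) < N := by exact_mod_cast h.pos
  have hcov : covol a b ≠ 0 := by rw [← h.density]; exact hN.ne'
  rw [ENNReal.ofReal_mul (by positivity), ENNReal.ofReal_inv_of_pos hN, ENNReal.ofReal_natCast]
  unfold energy
  congr 1
  rw [ENNReal.ofReal_sum_of_nonneg (fun j _ => Finset.sum_nonneg (fun k _ =>
    tsum_nonneg (fun m => term_nonneg α a b x j k m)))]
  refine Finset.sum_congr rfl (fun j _ => ?_)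
  rw [ENNReal.ofReal_sum_of_nonneg (fun k _ => tsum_nonneg (fun m => term_nonneg α a b x j k m))]
  refine Finset.sum_congr rfl (fun k _ => ?_)
  rw [ENNReal.ofReal_tsum_of_nonneg (fun m => term_nonneg α a b x j k m)
    (summable_term hper hα hcov j k)]
  refine tsum_congr (fun m => ?_)
  unfold term
  split_ifs
  · simp
  · rfl

theorem LP_le_energy_of (hper : PerStatement) {α : ℝ} (hα : 0 < α) {a b : P} {N : ℕ}
    {x : Fin N → P} (h : IsConf a b N x) :
    ENNReal.ofReal (LP α) ≤
      energy (fun r => ENNReal.ofReal (Real.exp (-α * r ^ 2))) a b N x := by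
  rw [energy_eq hper hα h]
  exact ENNReal.ofReal_le_ofReal (LP_le_real hper hα h)

end Cfg2

end Pool.Agent.J4.H93.NS
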