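import Pool.Agent.J4.H93.NS.Defs

/-!
# Near-sharpness of the LP bound: the check of a certificate

A certificate consists of `den`, `p`, `q`, the list `ns` of the norms of the shells, and the lists
`ra`, `rb` of the quotients `R̂` of the transforms by the product of the `(y - p n)²`.
-/

set_option autoImplicit false

namespace Pool.Agent.J4.H93.NS

/-- the nodes, each twice -/
def znodes (p : ℤ) : List ℤ → List ℤ
  | [] => []
  | n :: ns => (p * n) :: (p * n) :: znodes p ns

/-- transform side -/
def hatL (p : ℤ) (ns : List ℤ) (r : List ℤ) : List ℤ := mulNodes (znodes p ns) r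

/-- function side -/
def funL (p q : ℤ) (ns : List ℤ) (r : List ℤ) : List ℤ := Tr q 0 [1] (hatL p ns r)

/-- the data of `s` at the nodes `p n`: `s(p n) = va δ`, `p s'(p n) = vb δ`, `δ = 1` at the `i`-th
node only -/
def herm (p va vb : ℤ) (s : List ℤ) (i : ℕ) : ℕ → List ℤ → Bool
  | _, [] => true
  | l, n :: ns =>
    decide ((synth (p * n) s).2 = if l = i then va else 0) &&
    decide (p * (synth (p * n) (synth (p * n) s).1).2 = if l = i then vb else 0) &&
    herm p va vb s i (l + 1) ns

/-- data for all members of a list of lists -/
def hermAll (p va vb : ℤ) (ns : List ℤ) : ℕ → List (List ℤ) → Bool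
  | _, [] => true
  | i, s :: ss => herm p va vb s i 0 ns && hermAll p va vb ns (i + 1) ss

/-- all partial sums (starting with `acc`) are checked to be nonnegative -/
def psum (b : ℤ) : List ℤ → List (List ℤ) → Bool
  | _, [] => true
  | acc, r :: rs => posCheck b (addL acc r) && psum b (addL acc r) rs

/-- linear combination -/
def lin : List ℤ → List (List ℤ) → List ℤ
  | [], _ => []
  | _ :: _, [] => []
  | c :: cs, l :: ls => addL (smulL c l) (lin cs ls)

/-- all linear combinations are checked to be nonnegative -/
def rowsCheck (b : ℤ) (Q : List (List ℤ)) : List (List ℤ) → Bool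
  | [] => true
  | r :: rs => posCheck b (lin r Q) && rowsCheck b Q rs

/-- constant coefficient -/
def hd : List ℤ → ℤ
  | [] => 0
  | a :: _ => a

/-- the values at `0`: `K (ŝ(0) - s(0)) ≥ num den` -/
def valCheck (K den : ℤ) : List ℤ → List (List ℤ) → List (List ℤ) → Bool
  | c :: cs, h :: hs, s :: ss => decide (c * den ≤ K * (hd h - hd s)) && valCheck K den cs hs ss
  | [], [], [] => true
  | _, _, _ => false

/-- negation -/
def negL (l : List ℤ) : List ℤ := smulL (-1) l

end Pool.Agent.J4.H93.NS
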