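import Pool.Agent.TH478.CE.Final

/-!
# Near-sharpness of the LP bound: integer polynomials given by lists, the certificate checks

`y = q · 2π|x|²` is the variable; the nodes are the integers `p n_l` with `n_l = 1, 3, 4, 7, ...`,
`p / q` is a rational approximation of `4π/√3`.
-/

set_option autoImplicit false

open Polynomial

namespace Pool.Agent.J4.H93.NS

/-- the real polynomial with the given integer coefficients, lowest first -/
noncomputable def toP : List ℤ → Polynomial ℝ
  | [] => 0
  | a :: p => C (a : ℝ) + X * toP p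

/-- sum -/
def addL : List ℤ → List ℤ → List ℤ
  | [], q => q
  | a :: p, [] => a :: p
  | a :: p, b :: q => (a + b) :: addL p q

/-- scalar multiple -/
def smulL (c : ℤ) : List ℤ → List ℤ
  | [] => []
  | a :: p => (c * a) :: smulL c p

/-- `mulLin r 0 p` is `(X - r) p`; the second argument is the previous coefficient -/
def mulLin (r : ℤ) : ℤ → List ℤ → List ℤ
  | prev, [] => [prev]
  | prev, a :: p => (prev - r * a) :: mulLin r a p

/-- synthetic division by `X - r`: quotient and remainder -/
def synth (r : ℤ) : List ℤ → List ℤ × ℤ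
  | [] => ([], 0)
  | a :: p => ((synth r p).2 :: (synth r p).1, a + r * (synth r p).2)

/-- quotient of repeated synthetic division by `X - r`, `r` in the list -/
def quot : List ℤ → List ℤ → List ℤ
  | [], p => p
  | r :: z, p => quot z (synth r p).1

/-- multiply by `X - r` for all `r` in the list -/
def mulNodes : List ℤ → List ℤ → List ℤ
  | [], p => p
  | r :: z, p => mulNodes z (mulLin r 0 p)

/-- the product of the `X - r` -/
noncomputable def nodeP : List ℤ → Polynomial ℝ
  | [] => 1
  | r :: z => (X - C (r : ℝ)) * nodeP z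

/-- step of the recursion for the transforms of the monomials; `m` is the position, `prev` the
previous coefficient -/
def nxt (q k : ℤ) : ℤ → ℤ → List ℤ → List ℤ
  | _, prev, [] => [-prev]
  | m, prev, a :: l => (2 * q * (k + 1 + m) * a - prev) :: nxt q k (m + 1) a l

/-- `Tr q k lam p`: the sum of `p_i` times the `(k+i)`-th transform list, `lam` being the `k`-th -/
def Tr (q : ℤ) : ℤ → List ℤ → List ℤ → List ℤ
  | _, _, [] => []
  | k, lam, a :: p => addL (smulL a lam) (Tr q (k + 1) (nxt q k 0 0 lam) p)

/-- substitute `b X`: `scaleV b 1 p = p(b X)` -/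
def scaleV (b : ℤ) : ℤ → List ℤ → List ℤ
  | _, [] => []
  | c, a :: p => (c * a) :: scaleV b (c * b) p

/-- `p(X + 1)` -/
def shift1 : List ℤ → List ℤ
  | [] => []
  | a :: p => addL [a] (mulLin (-1) 0 (shift1 p))

/-- coefficients of `(1 + X)^n` -/
def brow : ℕ → List ℤ
  | 0 => [1]
  | n + 1 => mulLin (-1) 0 (brow n)

/-- `(1 + X)^(n-1) p(X / (1 + X))`, `n` the length of `p` -/
def bern : List ℤ → List ℤ
  | [] => []
  | a :: p => addL (smulL a (brow p.length)) (0 :: bern p)

/-- all entries are nonnegative -/
def nn : List ℤ → Bool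
  | [] => true
  | a :: p => decide (0 ≤ a) && nn p

/-- sufficient for `p ≥ 0` on `[0, ∞)` -/
def posCheck (b : ℤ) (p : List ℤ) : Bool :=
  nn (bern (scaleV b 1 p)) && nn (shift1 (scaleV b 1 p))

/-- the Laguerre-type polynomials `k! L_k`: `Λ_0 = 1`, `Λ_(k+1) = (k+1-X) Λ_k + X Λ_k'` -/
noncomputable def Lam : ℕ → Polynomial ℝ
  | 0 => 1
  | k + 1 => (C ((k : ℝ) + 1) - X) * Lam k + X * derivative (Lam k)

end Pool.Agent.J4.H93.NS
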