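import Mathlib.Analysis.Real.Pi.Bounds
import Mathlib.Analysis.Complex.ExponentialBounds
import Mathlib.Tactic

/-!
# `exp (-2 π / √3)` to 18 digits
-/

set_option autoImplicit false

namespace Pool.Agent.J4.H93.NS

theorem exp_ya_ge : (2476632271096423301131088 / 1000000000000000000000000 : ℝ) ≤
    Real.exp (9068996821171089252962 / 10000000000000000000000) := by
  refine le_trans ?_ (Real.sum_le_exp_of_nonneg (by norm_num) 24)
  norm_num [Finset.sum_range_succ, Nat.factorial]

theorem exp_yb_le : Real.exp (9068996821171089252992 / 10000000000000000000000) ≤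
    (2476632271096423301138519 / 1000000000000000000000000 : ℝ) := by
  refine (Real.exp_bound' (by norm_num) (by norm_num) (n := 24) (by norm_num)).trans ?_
  norm_num [Finset.sum_range_succ, Nat.factorial]

theorem exp_beta0 : |Real.exp (-(2 * Real.pi / √3)) - 0.02657993347641948998| ≤ 10 ^ (-18 : ℤ) := by
  have h3 : (0 : ℝ) < √3 := Real.sqrt_pos.2 (by norm_num)
  have hs : √3 * √3 = 3 := Real.mul_self_sqrt (by norm_num)
  have e1 : 2 * Real.pi / √3 = 4 * (Real.pi * √3 / 6) := by
    field_simp
    nlinarith [hs]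
  have s1 : (17320508075688772935274 / 10000000000000000000000 : ℝ) ≤ √3 := by
    rw [Real.le_sqrt (by norm_num) (by norm_num)]
    norm_num
  have s2 : √3 ≤ (17320508075688772935275 / 10000000000000000000000 : ℝ) := by
    rw [Real.sqrt_le_left (by norm_num)]
    norm_num
  have p1 := Real.pi_gt_d20
  have p2 := Real.pi_lt_d20
  have a1 : (9068996821171089252962 / 10000000000000000000000 : ℝ) ≤ Real.pi * √3 / 6 := by
    have := mul_le_mul p1.le s1 (by norm_num) Real.pi_pos.le
    rw [le_div_iff₀ (by norm_num)]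
    refine le_trans ?_ this
    norm_num
  have a2 : Real.pi * √3 / 6 ≤ (9068996821171089252992 / 10000000000000000000000 : ℝ) := by
    have := mul_le_mul p2.le s2 h3.le (by norm_num)
    rw [div_le_iff₀ (by norm_num)]
    refine this.trans ?_
    norm_num
  have b1 := exp_ya_ge.trans (Real.exp_le_exp.2 a1)
  have b2 := (Real.exp_le_exp.2 a2).trans exp_yb_le
  have e2 : Real.exp (-(2 * Real.pi / √3)) = (Real.exp (Real.pi * √3 / 6) ^ 4)⁻¹ := by
    rw [e1, Real.exp_neg, ← Real.exp_nat_mul]
    norm_num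
  have hp := Real.exp_pos (Real.pi * √3 / 6)
  have c1 : (2476632271096423301131088 / 1000000000000000000000000 : ℝ) ^ 4 ≤ Real.exp (Real.pi * √3 / 6) ^ 4 :=
    pow_le_pow_left₀ (by norm_num) b1 4
  have c2 : Real.exp (Real.pi * √3 / 6) ^ 4 ≤ (2476632271096423301138519 / 1000000000000000000000000 : ℝ) ^ 4 :=
    pow_le_pow_left₀ hp.le b2 4
  have d1 : (Real.exp (Real.pi * √3 / 6) ^ 4)⁻¹ ≤
      ((2476632271096423301131088 / 1000000000000000000000000 : ℝ) ^ 4)⁻¹ := inv_anti₀ (by norm_num) c1
  have d2 : ((2476632271096423301138519 / 1000000000000000000000000 : ℝ) ^ 4)⁻¹ ≤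
      (Real.exp (Real.pi * √3 / 6) ^ 4)⁻¹ := inv_anti₀ (by positivity) c2
  have f1 : ((2476632271096423301131088 / 1000000000000000000000000 : ℝ) ^ 4)⁻¹ ≤
      0.02657993347641948998 + 10 ^ (-18 : ℤ) := by norm_num
  have f2 : 0.02657993347641948998 - 10 ^ (-18 : ℤ) ≤
      ((2476632271096423301138519 / 1000000000000000000000000 : ℝ) ^ 4)⁻¹ := by norm_num
  rw [e2, abs_le]
  constructor <;> linarith

end Pool.Agent.J4.H93.NS
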