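import Pool.Agent.J4.H93.NS.VDef
import Pool.Agent.J4.H93.NS.Num1

/-!
# Final numerical inequality 1
-/

set_option autoImplicit false

open Pool.Agent.TH478.CE

namespace Pool.Agent.J4.H93.NS

namespace Fin1

theorem c_ge : 1 - 6652 / 10 ^ 12 ≤ 4 * Real.pi / √3 * (1924 / 13959) := by
  have h1 := Real.pi_gt_d20
  have h3 : √3 ≤ 1.7320508075688772936 := by
    rw [Real.sqrt_le_left (by norm_num)]; norm_num
  have h4 : 0 < √3 := by positivity
  have h5 : 4 * Real.pi / √3 * (1924 / 13959) = (4 * Real.pi * (1924 / 13959)) / √3 := by ring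
  rw [h5, le_div_iff₀ h4]
  norm_num at h1 h3 ⊢
  linarith

theorem key (κ : ℝ) : Real.pi * (1 + 2 * κ * 1924 / 13959) * c3 =
    2 * Real.pi / √3 + κ * (4 * Real.pi / √3 * (1924 / 13959)) := by
  unfold c3; ring

theorem x0_le : Real.exp (-(2 * Real.pi / √3)) ≤ 0.02657993347641949098 := by
  have := (abs_le.1 exp_beta0).2
  norm_num at this ⊢
  linarith

theorem term_le (n : ℕ) (hn : n ≤ 9) (κ : ℝ) (h0 : 0 ≤ κ) (h1 : κ ≤ 30) :
    Real.exp (-((n : ℝ) * (Real.pi * (1 + 2 * κ * 1924 / 13959) * c3))) ≤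
      (0.02657993347641949098 : ℝ) ^ n *
        (Real.exp (-((n : ℝ) * κ)) * (1 + n * κ * (66521 / 10 ^ 13))) := by
  have hb := x0_le
  have hc := c_ge
  have hn' : (n : ℝ) ≤ 9 := by exact_mod_cast hn
  have hn0 : (0 : ℝ) ≤ n := Nat.cast_nonneg n
  have e1 : Real.exp (-((n : ℝ) * (Real.pi * (1 + 2 * κ * 1924 / 13959) * c3))) ≤
      Real.exp (-(2 * Real.pi / √3)) ^ n *
        (Real.exp (-((n : ℝ) * κ)) * Real.exp (n * κ * (6652 / 10 ^ 12))) := by
    rw [key, ← Real.exp_nat_mul, ← Real.exp_add, ← Real.exp_add]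
    apply Real.exp_le_exp.2
    have : (n : ℝ) * κ * (1 - 6652 / 10 ^ 12) ≤
        n * κ * (4 * Real.pi / √3 * (1924 / 13959)) :=
      mul_le_mul_of_nonneg_left hc (by positivity)
    linarith
  have hx0 : 0 ≤ (n : ℝ) * κ := by positivity
  have hx : (n : ℝ) * κ ≤ 270 := by
    calc (n : ℝ) * κ ≤ 9 * 30 := mul_le_mul hn' h1 h0 (by norm_num)
      _ = 270 := by norm_num
  have e2 : Real.exp (n * κ * (6652 / 10 ^ 12)) ≤ 1 + n * κ * (66521 / 10 ^ 13) := by
    have h := Real.abs_exp_sub_one_sub_id_le (x := n * κ * (6652 / 10 ^ 12))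
      (by rw [abs_of_nonneg (by positivity)]; linarith)
    have h' := (abs_le.1 h).2
    have h2 : ((n : ℝ) * κ * (6652 / 10 ^ 12)) ^ 2 ≤ n * κ * (1 / 10 ^ 13) := by
      have : ((n : ℝ) * κ * (6652 / 10 ^ 12)) ^ 2 =
          (n : ℝ) * κ * (((n : ℝ) * κ) * (6652 / 10 ^ 12) ^ 2) := by ring
      rw [this]
      apply mul_le_mul_of_nonneg_left _ hx0
      linarith
    linarith
  refine e1.trans ?_
  apply mul_le_mul _ _ (by positivity) (by positivity)
  · exact pow_le_pow_left₀ (Real.exp_pos _).le hb n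
  · exact mul_le_mul_of_nonneg_left e2 (Real.exp_pos _).le

theorem vn_le (x : ℝ) (hx : 0 ≤ x) : Real.exp (-x) * (1 + x) ≤ 1 := by
  have h := Real.add_one_le_exp x
  have h2 : Real.exp (-x) * Real.exp x = 1 := by rw [← Real.exp_add]; simp
  calc Real.exp (-x) * (1 + x) ≤ Real.exp (-x) * Real.exp x :=
        mul_le_mul_of_nonneg_left (by linarith) (Real.exp_pos _).le
    _ = 1 := h2

theorem vn_le2 (x : ℝ) (hx : 0 ≤ x) : Real.exp (-x) * (1 + x + x ^ 2 / 2) ≤ 1 := by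
  have h := Real.quadratic_le_exp_of_nonneg hx
  have h2 : Real.exp (-x) * Real.exp x = 1 := by rw [← Real.exp_add]; simp
  calc Real.exp (-x) * (1 + x + x ^ 2 / 2) ≤ Real.exp (-x) * Real.exp x :=
        mul_le_mul_of_nonneg_left (by linarith) (Real.exp_pos _).le
    _ = 1 := h2

theorem term_bound (n : ℕ) (hn : n ≤ 9) (c A B M κ : ℝ) (hc : 0 ≤ c) (h0 : 0 ≤ κ) (h1 : κ ≤ 30)
    (hM : 0 ≤ M) (hA : c * (0.02657993347641949098 : ℝ) ^ n - A ≤ M)
    (hB : c * (0.02657993347641949098 : ℝ) ^ n * (n * (66521 / 10 ^ 13)) - B ≤ n * M) :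
    c * Real.exp (-((n : ℝ) * (Real.pi * (1 + 2 * κ * 1924 / 13959) * c3))) ≤
      Real.exp (-((n : ℝ) * κ)) * (A + κ * B) + M := by
  have h := term_le n hn κ h0 h1
  have hv := vn_le ((n : ℝ) * κ) (by positivity)
  have hp := Real.exp_pos (-((n : ℝ) * κ))
  set v := Real.exp (-((n : ℝ) * κ)) with hvdef
  calc c * Real.exp (-((n : ℝ) * (Real.pi * (1 + 2 * κ * 1924 / 13959) * c3)))
      ≤ c * ((0.02657993347641949098 : ℝ) ^ n * (v * (1 + n * κ * (66521 / 10 ^ 13)))) :=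
        mul_le_mul_of_nonneg_left h hc
    _ = v * (c * (0.02657993347641949098 : ℝ) ^ n +
          κ * (c * (0.02657993347641949098 : ℝ) ^ n * (n * (66521 / 10 ^ 13)))) := by ring
    _ ≤ v * ((A + M) + κ * (B + n * M)) := by
        apply mul_le_mul_of_nonneg_left _ hp.le
        have := mul_le_mul_of_nonneg_left hB h0
        linarith
    _ = v * (A + κ * B) + M * (v * (1 + n * κ)) := by ring
    _ ≤ v * (A + κ * B) + M * 1 := by
        have := mul_le_mul_of_nonneg_left hv hM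
        linarith
    _ = _ := by ring

theorem term_one (κ : ℝ) (h0 : 0 ≤ κ) (h1 : κ ≤ 30) :
    6 * Real.exp (-(Real.pi * (1 + 2 * κ * 1924 / 13959) * c3)) ≤
      Real.exp (-κ) * (159479600850945837448193 / 10 ^ 24 + κ * (1051482238529370 / 10 ^ 24)) +
        78 / 10 ^ 13 := by
  have h := term_le 1 (by norm_num) κ h0 h1
  have hv := vn_le2 κ h0
  have hp := Real.exp_pos (-κ)
  simp only [Nat.cast_one, one_mul, pow_one] at h
  set v := Real.exp (-κ) with hvdef
  have hq : 6 * (0.02657993347641949098 : ℝ) * (1 + κ * (66521 / 10 ^ 13)) ≤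
      (159479600850945837448193 / 10 ^ 24 + κ * (1051482238529370 / 10 ^ 24)) +
        78 / 10 ^ 13 * (1 + κ + κ ^ 2 / 2) := by
    nlinarith [sq_nonneg (κ - 1 / 5)]
  calc 6 * Real.exp (-(Real.pi * (1 + 2 * κ * 1924 / 13959) * c3))
      ≤ 6 * ((0.02657993347641949098 : ℝ) * (v * (1 + κ * (66521 / 10 ^ 13)))) :=
        mul_le_mul_of_nonneg_left h (by norm_num)
    _ = v * (6 * (0.02657993347641949098 : ℝ) * (1 + κ * (66521 / 10 ^ 13))) := by ring
    _ ≤ v * ((159479600850945837448193 / 10 ^ 24 + κ * (1051482238529370 / 10 ^ 24)) +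
        78 / 10 ^ 13 * (1 + κ + κ ^ 2 / 2)) := mul_le_mul_of_nonneg_left hq hp.le
    _ = v * (159479600850945837448193 / 10 ^ 24 + κ * (1051482238529370 / 10 ^ 24)) +
        78 / 10 ^ 13 * (v * (1 + κ + κ ^ 2 / 2)) := by ring
    _ ≤ _ := by linarith

/-- a lower bound of one term of `V` -/
theorem low (n : ℝ) (hn : 1 ≤ n) (A B κ : ℝ) (hA : 0 ≤ A) (hB : 0 ≤ B) (h0 : 0 ≤ κ) :
    -B ≤ Real.exp (-(n * κ)) * (A - κ * B) := by
  have hv := vn_le (n * κ) (by positivity)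
  have hp := Real.exp_pos (-(n * κ))
  set v := Real.exp (-(n * κ)) with hvdef
  have h1 : v * κ ≤ 1 := by
    have : v * κ ≤ v * (1 + n * κ) := by
      apply mul_le_mul_of_nonneg_left _ hp.le
      nlinarith
    linarith
  have h2 : v * κ * B ≤ 1 * B := mul_le_mul_of_nonneg_right h1 hB
  have h3 : 0 ≤ v * A := by positivity
  calc -B ≤ 0 - v * κ * B := by linarith
    _ ≤ v * A - v * κ * B := by linarith
    _ = _ := by ring

theorem low16 (κ : ℝ) (h0 : 0 ≤ κ) : -1 ≤ Real.exp (-(16 * κ)) * (-1 - κ) := by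
  have hv := vn_le (16 * κ) (by positivity)
  have hp := Real.exp_pos (-(16 * κ))
  set v := Real.exp (-(16 * κ)) with hvdef
  have : v * (1 + κ) ≤ v * (1 + 16 * κ) := by
    apply mul_le_mul_of_nonneg_left _ hp.le
    linarith
  linarith

theorem small (κ : ℝ) (h0 : 0 ≤ κ) (h1 : κ ≤ 30)
    (h : En (Real.pi * (1 + 2 * κ * 1924 / 13959)) ≤
      6 * Real.exp (-(Real.pi * (1 + 2 * κ * 1924 / 13959) * c3)) +
      6 * Real.exp (-(3 * (Real.pi * (1 + 2 * κ * 1924 / 13959) * c3))) +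
      6 * Real.exp (-(4 * (Real.pi * (1 + 2 * κ * 1924 / 13959) * c3))) +
      12 * Real.exp (-(7 * (Real.pi * (1 + 2 * κ * 1924 / 13959) * c3))) +
      100 * Real.exp (-(9 * (Real.pi * (1 + 2 * κ * 1924 / 13959) * c3)))) :
    En (Real.pi * (1 + 2 * κ * 1924 / 13959)) ≤ V κ + 10 ^ (-11 : ℤ) := by
  refine h.trans ?_
  have t1 := term_one κ h0 h1
  have t3 := term_bound 3 (by norm_num) 6 (112671199057027325494 / 10 ^ 24)
    (1158874127564 / 10 ^ 24) (85 / 10 ^ 14) κ (by norm_num) h0 h1 (by norm_num)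
    (by norm_num) (by norm_num)
  have t4 := term_bound 4 (by norm_num) 6 (2994792579047398450 / 10 ^ 24)
    (-28787553029 / 10 ^ 24) (43 / 10 ^ 14) κ (by norm_num) h0 h1 (by norm_num)
    (by norm_num) (by norm_num)
  have t7 := term_bound 7 (by norm_num) 12 (112475541379852 / 10 ^ 24)
    (-53673307 / 10 ^ 24) (1 / 10 ^ 15) κ (by norm_num) h0 h1 (by norm_num)
    (by norm_num) (by norm_num)
  have t9 := term_bound 9 (by norm_num) 100 (39728940796 / 10 ^ 24)
    (-1191877 / 10 ^ 24) (63 / 10 ^ 14) κ (by norm_num) h0 h1 (by norm_num)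
    (by norm_num) (by norm_num)
  have t12 := low 12 (by norm_num) 741101 10392 κ (by norm_num) (by norm_num) h0
  have t13 := low 13 (by norm_num) 35104 1171 κ (by norm_num) (by norm_num) h0
  have t16 := low16 κ h0
  push_cast at t3 t4 t7 t9
  have hz : (10 : ℝ) ^ (-11 : ℤ) = 1 / 10 ^ 11 := by norm_num
  rw [hz]
  have hV : V κ = Real.exp (-κ) * (159479600850945837448193 / 10 ^ 24 +
        κ * (1051482238529370 / 10 ^ 24)) +
      Real.exp (-(3 * κ)) * (112671199057027325494 / 10 ^ 24 + κ * (1158874127564 / 10 ^ 24)) +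
      Real.exp (-(4 * κ)) * (2994792579047398450 / 10 ^ 24 + κ * (-28787553029 / 10 ^ 24)) +
      Real.exp (-(7 * κ)) * (112475541379852 / 10 ^ 24 + κ * (-53673307 / 10 ^ 24)) +
      Real.exp (-(9 * κ)) * (39728940796 / 10 ^ 24 + κ * (-1191877 / 10 ^ 24)) +
      (Real.exp (-(12 * κ)) * (741101 - κ * 10392) +
      Real.exp (-(13 * κ)) * (35104 - κ * 1171) +
      Real.exp (-(16 * κ)) * (-1 - κ)) / 10 ^ 24 := by
    unfold V; ring
  rw [hV]
  linarith

theorem exp_32 : Real.exp (-32) ≤ 2 / 10 ^ 14 := by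
  have h := Real.exp_one_gt_d9
  have h1 : Real.exp 1 ^ 32 = Real.exp 32 := by rw [← Real.exp_nat_mul]; norm_num
  have h2 : (2.7182818283 : ℝ) ^ 32 ≤ Real.exp 1 ^ 32 :=
    pow_le_pow_left₀ (by norm_num) h.le 32
  rw [Real.exp_neg, inv_le_comm₀ (Real.exp_pos _) (by norm_num), ← h1]
  refine le_trans ?_ h2
  norm_num

theorem large (κ : ℝ) (h1 : 30 ≤ κ)
    (h : En (Real.pi * (1 + 2 * κ * 1924 / 13959)) ≤
      6 * Real.exp (-(Real.pi * (1 + 2 * κ * 1924 / 13959) * c3)) +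
      6 * Real.exp (-(3 * (Real.pi * (1 + 2 * κ * 1924 / 13959) * c3))) +
      6 * Real.exp (-(4 * (Real.pi * (1 + 2 * κ * 1924 / 13959) * c3))) +
      12 * Real.exp (-(7 * (Real.pi * (1 + 2 * κ * 1924 / 13959) * c3))) +
      100 * Real.exp (-(9 * (Real.pi * (1 + 2 * κ * 1924 / 13959) * c3)))) :
    En (Real.pi * (1 + 2 * κ * 1924 / 13959)) ≤ V κ + 10 ^ (-11 : ℤ) := by
  refine h.trans ?_
  have h0 : 0 ≤ κ := by linarith
  have hy : 32 ≤ Real.pi * (1 + 2 * κ * 1924 / 13959) * c3 := by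
    rw [key]
    have hc := c_ge
    have e1 : 30 * (1 - 6652 / 10 ^ 12) ≤ κ * (4 * Real.pi / √3 * (1924 / 13959)) :=
      mul_le_mul h1 hc (by norm_num) h0
    have e2 : 3 ≤ 2 * Real.pi / √3 := by
      have h3 : √3 ≤ 2 := by
        rw [Real.sqrt_le_left (by norm_num)]; norm_num
      have h4 : 0 < √3 := by positivity
      rw [le_div_iff₀ h4]
      have := Real.pi_gt_three
      linarith
    linarith
  set y := Real.pi * (1 + 2 * κ * 1924 / 13959) * c3 with hydef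
  have hE : Real.exp (-32) ≤ 2 / 10 ^ 14 := exp_32
  have f1 : Real.exp (-y) ≤ 2 / 10 ^ 14 := (Real.exp_le_exp.2 (by linarith)).trans hE
  have f3 : Real.exp (-(3 * y)) ≤ 2 / 10 ^ 14 := (Real.exp_le_exp.2 (by linarith)).trans hE
  have f4 : Real.exp (-(4 * y)) ≤ 2 / 10 ^ 14 := (Real.exp_le_exp.2 (by linarith)).trans hE
  have f7 : Real.exp (-(7 * y)) ≤ 2 / 10 ^ 14 := (Real.exp_le_exp.2 (by linarith)).trans hE
  have f9 : Real.exp (-(9 * y)) ≤ 2 / 10 ^ 14 := (Real.exp_le_exp.2 (by linarith)).trans hE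
  have g1 : 0 ≤ Real.exp (-κ) * (159479600850945837448193 + κ * 1051482238529370) := by positivity
  have g3 : 0 ≤ Real.exp (-(3 * κ)) * (112671199057027325494 + κ * 1158874127564) := by positivity
  have g4 := low 4 (by norm_num) 2994792579047398450 28787553029 κ (by norm_num) (by norm_num) h0
  have g7 := low 7 (by norm_num) 112475541379852 53673307 κ (by norm_num) (by norm_num) h0
  have g9 := low 9 (by norm_num) 39728940796 1191877 κ (by norm_num) (by norm_num) h0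
  have t12 := low 12 (by norm_num) 741101 10392 κ (by norm_num) (by norm_num) h0
  have t13 := low 13 (by norm_num) 35104 1171 κ (by norm_num) (by norm_num) h0
  have t16 := low16 κ h0
  have hz : (10 : ℝ) ^ (-11 : ℤ) = 1 / 10 ^ 11 := by norm_num
  rw [hz]
  have hV : -(1 / 10 ^ 12) ≤ V κ := by
    unfold V
    rw [le_div_iff₀ (by norm_num)]
    linarith
  linarith

/-- `fin1` from the shell bound at the point -/
theorem fin1_of (κ : ℝ) (hκ : 0 ≤ κ)
    (h : En (Real.pi * (1 + 2 * κ * 1924 / 13959)) ≤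
      6 * Real.exp (-(Real.pi * (1 + 2 * κ * 1924 / 13959) * c3)) +
      6 * Real.exp (-(3 * (Real.pi * (1 + 2 * κ * 1924 / 13959) * c3))) +
      6 * Real.exp (-(4 * (Real.pi * (1 + 2 * κ * 1924 / 13959) * c3))) +
      12 * Real.exp (-(7 * (Real.pi * (1 + 2 * κ * 1924 / 13959) * c3))) +
      100 * Real.exp (-(9 * (Real.pi * (1 + 2 * κ * 1924 / 13959) * c3)))) :
    En (Real.pi * (1 + 2 * κ * 1924 / 13959)) ≤ V κ + 10 ^ (-11 : ℤ) := by
  rcases le_total κ 30 with h1 | h1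
  · exact small κ hκ h1 h
  · exact large κ h1 h

theorem three_le (κ : ℝ) (hκ : 0 ≤ κ) : 3 ≤ Real.pi * (1 + 2 * κ * 1924 / 13959) := by
  have h := Real.pi_gt_three
  have : 0 ≤ 2 * κ * 1924 / 13959 := by positivity
  nlinarith

end Fin1

/-- `fin1` with the shell bound `hS` (`En_shells` with tail constant 100) as hypothesis -/
theorem fin1_of (hS : ∀ α : ℝ, 3 ≤ α →
    En α ≤ 6 * Real.exp (-(α * c3)) + 6 * Real.exp (-(3 * (α * c3))) +
      6 * Real.exp (-(4 * (α * c3))) + 12 * Real.exp (-(7 * (α * c3))) +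
      100 * Real.exp (-(9 * (α * c3)))) (κ : ℝ) (hκ : 0 ≤ κ) :
    En (Real.pi * (1 + 2 * κ * 1924 / 13959)) ≤ V κ + 10 ^ (-11 : ℤ) :=
  Fin1.fin1_of κ hκ (hS _ (Fin1.three_le κ hκ))

end Pool.Agent.J4.H93.NS
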