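import Pool.Agent.J4.H93.NS.VDef

/-!
# PIECE FIN2: the final inequality for the relative bound
-/

set_option autoImplicit false

open Polynomial Pool.Agent.TH478.CE

namespace Pool.Agent.J4.H93.NS

namespace Fin2

theorem sqrt3_le : √3 ≤ (1.7320508075688773 : ℝ) := by
  rw [Real.sqrt_le_iff]
  norm_num

theorem sqrt3_pos : (0 : ℝ) < √3 := by positivity

/-- `π / √3` from below -/
theorem p3_lower : (1.8137993642342178 : ℝ) ≤ Real.pi / √3 := by
  rw [le_div_iff₀ sqrt3_pos]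
  have h1 := sqrt3_le
  have h2 := Real.pi_gt_d20
  nlinarith

theorem one_sub_le : (1 : ℝ) - 1 / 10 ^ 8 ≤ 4 * (Real.pi / √3) * (1924 / 13959) := by
  have h := p3_lower
  nlinarith

theorem one_le : (1 : ℝ) ≤ 4 * (Real.pi / √3) * (1924 / 13959) +
    1 / 10 ^ 8 * (2 * Real.pi * (1924 / 13959)) := by
  have h := p3_lower
  have h2 := Real.pi_gt_d20
  nlinarith

/-- the exponent -/
theorem ac3 (κ : ℝ) : Real.pi * (1 + 2 * κ * 1924 / 13959) * c3 =
    2 * Real.pi / √3 + κ * (4 * (Real.pi / √3) * (1924 / 13959)) := by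
  unfold c3
  ring

theorem kexp_le (κ : ℝ) : κ * Real.exp (-κ) ≤ 1 := by
  have h1 := Real.add_one_le_exp κ
  have h2 := Real.exp_pos (-κ)
  have h3 : Real.exp κ * Real.exp (-κ) = 1 := by rw [← Real.exp_add]; simp
  nlinarith

theorem kexp_le2 (κ n : ℝ) (hκ : 0 ≤ κ) (hn : 2 ≤ n) :
    κ * Real.exp (-(n * κ)) ≤ Real.exp (-κ) := by
  have h1 : Real.exp (-(n * κ)) ≤ Real.exp (-κ) * Real.exp (-κ) := by
    rw [← Real.exp_add]
    apply Real.exp_le_exp.2
    nlinarith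
  have h2 := kexp_le κ
  have h3 := Real.exp_pos (-κ)
  calc κ * Real.exp (-(n * κ)) ≤ κ * (Real.exp (-κ) * Real.exp (-κ)) :=
        mul_le_mul_of_nonneg_left h1 hκ
    _ = (κ * Real.exp (-κ)) * Real.exp (-κ) := by ring
    _ ≤ 1 * Real.exp (-κ) := mul_le_mul_of_nonneg_right h2 h3.le
    _ = _ := one_mul _

/-- the shells beyond the first -/
theorem shell (κ n : ℝ) (hκ : 0 ≤ κ) (h3 : 3 ≤ n) :
    Real.exp (-(n * (κ * (1 - 1 / 10 ^ 8)))) ≤
      Real.exp (-(n * κ)) + n * (1 / 10 ^ 8) * Real.exp (-κ) := by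
  have e1 : Real.exp (-(n * (κ * (1 - 1 / 10 ^ 8)))) - Real.exp (-(n * κ)) ≤
      n * (1 / 10 ^ 8) * (κ * Real.exp (-(n * (κ * (1 - 1 / 10 ^ 8))))) := by
    have h1 := Real.add_one_le_exp (-(n * (1 / 10 ^ 8) * κ))
    have h2 : Real.exp (-(n * κ)) = Real.exp (-(n * (κ * (1 - 1 / 10 ^ 8)))) *
        Real.exp (-(n * (1 / 10 ^ 8) * κ)) := by
      rw [← Real.exp_add]
      congr 1
      ring
    have h4 := Real.exp_pos (-(n * (κ * (1 - 1 / 10 ^ 8))))
    rw [h2]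
    nlinarith
  have e2 : κ * Real.exp (-(n * (κ * (1 - 1 / 10 ^ 8)))) ≤ Real.exp (-κ) := by
    have h5 := kexp_le2 κ (n * (1 - 1 / 10 ^ 8)) hκ (by nlinarith)
    have h6 : n * (1 - 1 / 10 ^ 8) * κ = n * (κ * (1 - 1 / 10 ^ 8)) := by ring
    rwa [h6] at h5
  have h7 : 0 ≤ n * (1 / 10 ^ 8) := by positivity
  have h8 := mul_le_mul_of_nonneg_left e2 h7
  linarith

/-- the bound for `exp (-10^-8 π)` -/
theorem exp_pi_small : Real.exp (-(1 / 10 ^ 8 * Real.pi)) ≤ 1 - 31 / 10 ^ 9 := by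
  have h1 := Real.add_one_le_exp (1 / 10 ^ 8 * Real.pi)
  have h2 := Real.pi_gt_d2
  rw [Real.exp_neg, inv_le_comm₀ (Real.exp_pos _) (by norm_num)]
  refine le_trans ?_ h1
  rw [inv_le_iff_one_le_mul₀ (by norm_num)]
  nlinarith

end Fin2

/-- FIN2, from the shells of the energy and the value of `exp (-2 π / √3)` -/
theorem fin2_of
    (hsh : ∀ α : ℝ, 3 ≤ α → En α ≤ 6 * Real.exp (-(α * c3)) + 6 * Real.exp (-(3 * (α * c3))) +
      6 * Real.exp (-(4 * (α * c3))) + 12 * Real.exp (-(7 * (α * c3))) +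
      200 * Real.exp (-(9 * (α * c3))))
    (hb : |Real.exp (-(2 * Real.pi / √3)) - 0.02657993347641948998| ≤ 10 ^ (-18 : ℤ))
    (κ : ℝ) (hκ : 0 ≤ κ) :
    Real.exp (-(10 ^ (-8 : ℤ) * (Real.pi * (1 + 2 * κ * 1924 / 13959)))) *
      En (Real.pi * (1 + 2 * κ * 1924 / 13959)) ≤ V κ := by
  obtain ⟨h, hh⟩ : ∃ h, h = Real.exp (-(2 * Real.pi / √3)) := ⟨_, rfl⟩
  have hpos : 0 < h := by rw [hh]; exact Real.exp_pos _
  have hle : h ≤ 0.02657993347641949098 := by
    rw [← hh] at hb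
    have h1 := (abs_le.1 hb).2
    norm_num at h1 ⊢
    linarith
  obtain ⟨α, hα⟩ : ∃ α, α = Real.pi * (1 + 2 * κ * 1924 / 13959) := ⟨_, rfl⟩
  have hpi := Real.pi_gt_three
  have hα3 : 3 ≤ α := by
    rw [hα]
    have : 0 ≤ Real.pi * (2 * κ * 1924 / 13959) := by positivity
    linarith
  have hac := Fin2.ac3 κ
  rw [← hα] at hac ⊢
  have h8 : (10 : ℝ) ^ (-8 : ℤ) = 1 / 10 ^ 8 := by norm_num
  rw [h8]
  -- the first shell
  have s1 : Real.exp (-(1 / 10 ^ 8 * α)) * Real.exp (-(α * c3)) ≤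
      h * Real.exp (-κ) * (1 - 31 / 10 ^ 9) := by
    have h1 : Real.exp (-(1 / 10 ^ 8 * α)) * Real.exp (-(α * c3)) ≤
        h * Real.exp (-κ) * Real.exp (-(1 / 10 ^ 8 * Real.pi)) := by
      rw [hh, ← Real.exp_add, ← Real.exp_add, ← Real.exp_add]
      apply Real.exp_le_exp.2
      have h2 := mul_le_mul_of_nonneg_left Fin2.one_le hκ
      rw [hac, hα]
      linarith
    refine h1.trans (mul_le_mul_of_nonneg_left Fin2.exp_pi_small ?_)
    positivity
  -- the other shells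
  have hexp1 : Real.exp (-(1 / 10 ^ 8 * α)) ≤ 1 := by
    rw [Real.exp_le_one_iff]
    have : 0 ≤ 1 / 10 ^ 8 * α := by positivity
    linarith
  have sn : ∀ n : ℕ, 3 ≤ n →
      Real.exp (-(1 / 10 ^ 8 * α)) * Real.exp (-((n : ℝ) * (α * c3))) ≤
        h ^ n * (Real.exp (-((n : ℝ) * κ)) + (n : ℝ) * (1 / 10 ^ 8) * Real.exp (-κ)) := by
    intro n h3
    have h3' : (3 : ℝ) ≤ n := by exact_mod_cast h3
    have h1 : Real.exp (-((n : ℝ) * (α * c3))) ≤
        h ^ n * Real.exp (-((n : ℝ) * (κ * (1 - 1 / 10 ^ 8)))) := by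
      rw [hh, ← Real.exp_nat_mul, ← Real.exp_add]
      apply Real.exp_le_exp.2
      have h2 := mul_le_mul_of_nonneg_left Fin2.one_sub_le hκ
      have h4 := mul_le_mul_of_nonneg_left h2 (by linarith : (0 : ℝ) ≤ n)
      rw [hac]
      linarith
    calc Real.exp (-(1 / 10 ^ 8 * α)) * Real.exp (-((n : ℝ) * (α * c3)))
        ≤ 1 * Real.exp (-((n : ℝ) * (α * c3))) :=
          mul_le_mul_of_nonneg_right hexp1 (Real.exp_pos _).le
      _ ≤ h ^ n * Real.exp (-((n : ℝ) * (κ * (1 - 1 / 10 ^ 8)))) := by rw [one_mul]; exact h1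
      _ ≤ _ := mul_le_mul_of_nonneg_left (Fin2.shell κ n hκ h3') (by positivity)
  have s3 := sn 3 (by norm_num)
  have s4 := sn 4 (by norm_num)
  have s7 := sn 7 (by norm_num)
  have s9 := sn 9 (by norm_num)
  push_cast at s3 s4 s7 s9
  -- numerical facts
  have n1 : 6 * h * (1 - 31 / 10 ^ 9) ≤ 159479600850945837448193 / 10 ^ 24 - 49 / 10 ^ 10 := by
    have := mul_le_mul_of_nonneg_left hle (by norm_num : (0 : ℝ) ≤ 6 * (1 - 31 / 10 ^ 9))
    norm_num at this ⊢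
    linarith
  have n3 : 6 * h ^ 3 ≤ 112671199057027325494 / 10 ^ 24 + 1 / 10 ^ 12 := by
    have := pow_le_pow_left₀ hpos.le hle 3
    norm_num at this ⊢
    linarith
  have n4 : 6 * h ^ 4 ≤ 2994792579047398450 / 10 ^ 24 + 1 / 10 ^ 12 := by
    have := pow_le_pow_left₀ hpos.le hle 4
    norm_num at this ⊢
    linarith
  have n7 : 12 * h ^ 7 ≤ 112475541379852 / 10 ^ 24 + 1 / 10 ^ 15 := by
    have := pow_le_pow_left₀ hpos.le hle 7
    norm_num at this ⊢
    linarith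
  have n9 : 200 * h ^ 9 ≤ 2 / 10 ^ 12 := by
    have := pow_le_pow_left₀ hpos.le hle 9
    norm_num at this ⊢
    linarith
  -- the exponentials
  obtain ⟨E, hE⟩ : ∃ E, E = Real.exp (-κ) := ⟨_, rfl⟩
  have hE0 : 0 < E := by rw [hE]; exact Real.exp_pos _
  have hmono : ∀ n : ℝ, 1 ≤ n → Real.exp (-(n * κ)) ≤ E := by
    intro n hn
    rw [hE]
    apply Real.exp_le_exp.2
    nlinarith
  have k4 := Fin2.kexp_le2 κ 4 hκ (by norm_num)
  have k7 := Fin2.kexp_le2 κ 7 hκ (by norm_num)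
  have k9 := Fin2.kexp_le2 κ 9 hκ (by norm_num)
  have k12 := Fin2.kexp_le2 κ 12 hκ (by norm_num)
  have k13 := Fin2.kexp_le2 κ 13 hκ (by norm_num)
  have k16 := Fin2.kexp_le2 κ 16 hκ (by norm_num)
  have m3 := hmono 3 (by norm_num)
  have m4 := hmono 4 (by norm_num)
  have m7 := hmono 7 (by norm_num)
  have m9 := hmono 9 (by norm_num)
  have m16 := hmono 16 (by norm_num)
  have p3 := Real.exp_pos (-(3 * κ))
  have p4 := Real.exp_pos (-(4 * κ))
  have p7 := Real.exp_pos (-(7 * κ))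
  have p9 := Real.exp_pos (-(9 * κ))
  have p12 := Real.exp_pos (-(12 * κ))
  have p13 := Real.exp_pos (-(13 * κ))
  have hkE : 0 ≤ κ * E := by positivity
  have hk3 : 0 ≤ κ * Real.exp (-(3 * κ)) := by positivity
  have p1 : 0 ≤ κ * Real.exp (-(9 * κ)) := by positivity
  have hV : V κ = (E * (159479600850945837448193 + κ * 1051482238529370) +
      Real.exp (-(3 * κ)) * (112671199057027325494 + κ * 1158874127564) +
      Real.exp (-(4 * κ)) * (2994792579047398450 - κ * 28787553029) +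
      Real.exp (-(7 * κ)) * (112475541379852 - κ * 53673307) +
      Real.exp (-(9 * κ)) * (39728940796 - κ * 1191877) +
      Real.exp (-(12 * κ)) * (741101 - κ * 10392) +
      Real.exp (-(13 * κ)) * (35104 - κ * 1171) +
      Real.exp (-(16 * κ)) * (-1 - κ)) / 10 ^ 24 := by
    rw [hE]
    rfl
  rw [← hE] at s1 s3 s4 s7 s9 k4 k7 k9 k12 k13 k16
  have hEn := mul_le_mul_of_nonneg_left (hsh α hα3) (Real.exp_pos (-(1 / 10 ^ 8 * α))).le
  refine hEn.trans ?_
  rw [hV]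
  generalize Real.exp (-(3 * κ)) = E3 at *
  generalize Real.exp (-(4 * κ)) = E4 at *
  generalize Real.exp (-(7 * κ)) = E7 at *
  generalize Real.exp (-(9 * κ)) = E9 at *
  generalize Real.exp (-(12 * κ)) = E12 at *
  generalize Real.exp (-(13 * κ)) = E13 at *
  generalize Real.exp (-(16 * κ)) = E16 at *
  have t1 := mul_le_mul_of_nonneg_right n1 hE0.le
  have t3 := mul_le_mul_of_nonneg_right n3
    (by positivity : 0 ≤ E3 + 3 * (1 / 10 ^ 8) * E)
  have t4 := mul_le_mul_of_nonneg_right n4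
    (by positivity : 0 ≤ E4 + 4 * (1 / 10 ^ 8) * E)
  have t7 := mul_le_mul_of_nonneg_right n7
    (by positivity : 0 ≤ E7 + 7 * (1 / 10 ^ 8) * E)
  have t9 := mul_le_mul_of_nonneg_right n9
    (by positivity : 0 ≤ E9 + 9 * (1 / 10 ^ 8) * E)
  generalize Real.exp (-(1 / 10 ^ 8 * α)) = X at *
  generalize Real.exp (-(α * c3)) = a1 at *
  generalize Real.exp (-(3 * (α * c3))) = a3 at *
  generalize Real.exp (-(4 * (α * c3))) = a4 at *
  generalize Real.exp (-(7 * (α * c3))) = a7 at *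
  generalize Real.exp (-(9 * (α * c3))) = a9 at *
  have u : X * (6 * a1 + 6 * a3 + 6 * a4 + 12 * a7 + 200 * a9) =
      6 * (X * a1) + 6 * (X * a3) + 6 * (X * a4) + 12 * (X * a7) + 200 * (X * a9) := by ring
  rw [u]
  linarith

end Pool.Agent.J4.H93.NS
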