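import Pool.Agent.TH478.CE.Hex

/-!
# Piece HEX of the project NS (helper46): the shells of the hexagonal lattice
-/

set_option autoImplicit false

open Polynomial Pool.Agent.TH478.CE

namespace Pool.Agent.J4.H93.NS

namespace HexP

/-- the quadratic form, truncated at 9 -/
def qn (p : ℤ × ℤ) : ℕ := min (p.1 ^ 2 + p.1 * p.2 + p.2 ^ 2).toNat 9

/-- the box -/
noncomputable def Bx : Finset (ℤ × ℤ) := (Finset.Icc (-3 : ℤ) 3) ×ˢ (Finset.Icc (-3 : ℤ) 3)

lemma box_image : Bx.image qn = {0, 1, 3, 4, 7, 9} := by decide +kernel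
lemma box_card0 : (Bx.filter fun p => qn p = 0).card = 1 := by decide +kernel
lemma box_card1 : (Bx.filter fun p => qn p = 1).card = 6 := by decide +kernel
lemma box_card3 : (Bx.filter fun p => qn p = 3).card = 6 := by decide +kernel
lemma box_card4 : (Bx.filter fun p => qn p = 4).card = 6 := by decide +kernel
lemma box_card7 : (Bx.filter fun p => qn p = 7).card = 12 := by decide +kernel
lemma box_card9 : (Bx.filter fun p => qn p = 9).card = 18 := by decide +kernel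

lemma box_sum (E : ℝ) : ∑ p ∈ Bx, E ^ qn p = 1 + 6 * E + 6 * E ^ 3 + 6 * E ^ 4 + 12 * E ^ 7 + 18 * E ^ 9 := by
  rw [Finset.sum_comp (fun n => E ^ n) qn, box_image]
  rw [Finset.sum_insert (by decide), Finset.sum_insert (by decide), Finset.sum_insert (by decide),
    Finset.sum_insert (by decide), Finset.sum_insert (by decide), Finset.sum_singleton]
  rw [box_card0, box_card1, box_card3, box_card4, box_card7, box_card9]
  simp only [nsmul_eq_mul]
  push_cast
  ring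

lemma le_qn {β : ℝ} (hβ : 0 ≤ β) (p : ℤ × ℤ) : Real.exp (-(β * qf p)) ≤ Real.exp (-β) ^ qn p := by
  rw [← Real.exp_nat_mul, Real.exp_le_exp]
  have h1 : 0 ≤ p.1 ^ 2 + p.1 * p.2 + p.2 ^ 2 := by
    nlinarith [sq_nonneg (p.1 + p.2), sq_nonneg p.1, sq_nonneg p.2]
  have h2 : (qn p : ℝ) ≤ qf p := by
    have h3 : ((qn p : ℕ) : ℤ) ≤ p.1 ^ 2 + p.1 * p.2 + p.2 ^ 2 := by
      unfold qn
      omega
    unfold qf
    exact_mod_cast h3
  nlinarith

lemma geo_int : HasSum (fun n : ℤ => (1 / 2 : ℝ) ^ n.natAbs) 3 := by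
  have h1 : HasSum (fun n : ℕ => (1 / 2 : ℝ) ^ ((n : ℤ)).natAbs) 2 := by
    simp only [Int.natAbs_natCast]
    exact hasSum_geometric_two
  have h2 : HasSum (fun n : ℕ => (1 / 2 : ℝ) ^ (-((n : ℤ) + 1)).natAbs) 1 := by
    have e : (fun n : ℕ => (1 / 2 : ℝ) ^ (-((n : ℤ) + 1)).natAbs) = fun n : ℕ => (1 / 2 : ℝ) ^ n * (1 / 2) := by
      funext n
      rw [Int.natAbs_neg, ← pow_succ]
      congr 1
    rw [e]
    have h3 := hasSum_geometric_two.mul_right (1 / 2 : ℝ)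
    have e3 : (2 : ℝ) * (1 / 2) = 1 := by norm_num
    rw [e3] at h3
    exact h3
  have h3 := HasSum.of_nat_of_neg_add_one (f := fun n : ℤ => (1 / 2 : ℝ) ^ n.natAbs) h1 h2
  have e3 : (2 : ℝ) + 1 = 3 := by norm_num
  rw [e3] at h3
  exact h3

lemma geo_prod : HasSum (fun p : ℤ × ℤ => (1 / 2 : ℝ) ^ p.1.natAbs * (1 / 2 : ℝ) ^ p.2.natAbs) 9 := by
  have h := HasSum.mul geo_int geo_int (geo_int.summable.mul_of_nonneg geo_int.summable
    (fun n => by positivity) (fun n => by positivity))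
  have e3 : (3 : ℝ) * 3 = 9 := by norm_num
  rw [e3] at h
  exact h

/-- outside the box -/
lemma out_box {β : ℝ} (hβ : 3 ≤ β) {p : ℤ × ℤ} (hp : p ∉ Bx) :
    Real.exp (-(β * qf p)) ≤ Real.exp (-(9 * β)) * ((1 / 2 : ℝ) ^ p.1.natAbs * (1 / 2 : ℝ) ^ p.2.natAbs) := by
  obtain ⟨j, k⟩ := p
  have h1 : 4 ≤ |j| ∨ 4 ≤ |k| := by
    by_contra hcon
    push Not at hcon
    apply hp
    unfold Bx
    rw [Finset.mem_product, Finset.mem_Icc, Finset.mem_Icc]
    have a1 := abs_lt.1 hcon.1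
    have a2 := abs_lt.1 hcon.2
    simp only
    omega
  have hj0 := abs_nonneg j
  have hk0 := abs_nonneg k
  have hjk : -(|j| * |k|) ≤ j * k := by
    have := neg_abs_le (j * k)
    rwa [abs_mul] at this
  have hj2 := sq_abs j
  have hk2 := sq_abs k
  have h2 : 36 + (|j| + |k|) ≤ 4 * (j ^ 2 + j * k + k ^ 2) := by
    rcases h1 with h | h
    · nlinarith [sq_nonneg (|j| - 2 * |k|)]
    · nlinarith [sq_nonneg (|k| - 2 * |j|)]
  have h3 : 9 + ((j.natAbs : ℝ) + k.natAbs) / 4 ≤ qf (j, k) := by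
    unfold qf
    have h4 : (36 : ℝ) + (|(j : ℝ)| + |(k : ℝ)|) ≤ 4 * ((j : ℝ) ^ 2 + j * k + (k : ℝ) ^ 2) := by exact_mod_cast h2
    rw [Nat.cast_natAbs, Nat.cast_natAbs, Int.cast_abs, Int.cast_abs]
    simp only
    linarith
  have h5 : Real.exp (-(β * qf (j, k))) ≤ Real.exp (-(9 * β)) * Real.exp (-(3 / 4 * ((j.natAbs : ℝ) + k.natAbs))) := by
    rw [← Real.exp_add, Real.exp_le_exp]
    have hn : 0 ≤ ((j.natAbs : ℝ) + k.natAbs) / 4 := by positivity
    nlinarith [mul_le_mul_of_nonneg_left h3 (by linarith : 0 ≤ β), mul_nonneg (by linarith : 0 ≤ β - 3) hn]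
  refine h5.trans (mul_le_mul_of_nonneg_left ?_ (Real.exp_pos _).le)
  have h6 : Real.exp (-(3 / 4)) ≤ 1 / 2 := by
    have e1 : Real.exp (3 / 4) * Real.exp (-(3 / 4)) = 1 := by rw [← Real.exp_add]; norm_num
    have e2 : (2 : ℝ) ≤ Real.exp (3 / 4) := by
      have := Real.quadratic_le_exp_of_nonneg (x := 3 / 4) (by norm_num)
      norm_num at this
      linarith
    have e3 := Real.exp_pos (-(3 / 4 : ℝ))
    nlinarith
  have h7 : Real.exp (-(3 / 4 * ((j.natAbs : ℝ) + k.natAbs))) =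
      Real.exp (-(3 / 4)) ^ j.natAbs * Real.exp (-(3 / 4)) ^ k.natAbs := by
    rw [← Real.exp_nat_mul, ← Real.exp_nat_mul, ← Real.exp_add]
    congr 1
    ring
  rw [h7]
  have h8 := (Real.exp_pos (-(3 / 4 : ℝ))).le
  exact mul_le_mul (pow_le_pow_left₀ h8 h6 _) (pow_le_pow_left₀ h8 h6 _) (by positivity) (by positivity)

end HexP

open HexP

theorem En_shells (α : ℝ) (hα : 3 ≤ α) :
    En α ≤ 6 * Real.exp (-(α * c3)) + 6 * Real.exp (-(3 * (α * c3))) + 6 * Real.exp (-(4 * (α * c3))) +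
      12 * Real.exp (-(7 * (α * c3))) + 100 * Real.exp (-(9 * (α * c3))) := by
  have hα0 : 0 < α := by linarith
  have hc := one_lt_c3
  obtain ⟨β, hβ⟩ : ∃ β, β = α * c3 := ⟨_, rfl⟩
  have hβ3 : 3 ≤ β := by rw [hβ]; nlinarith
  have hβ0 : 0 ≤ β := by linarith
  have e1 := Th_eq hα0
  have hs := summable_Th hα0
  have e2 : (fun p : ℤ × ℤ => Real.exp (-α * (c3 * qf p))) = fun p => Real.exp (-(β * qf p)) := by
    funext p
    rw [hβ]
    congr 1
    ring
  unfold Th at e1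
  rw [e2] at e1 hs
  rw [← hβ]
  -- the majorant
  have g1 : HasSum (fun p : ℤ × ℤ => if p ∈ Bx then Real.exp (-(β * qf p)) else 0)
      (∑ p ∈ Bx, Real.exp (-(β * qf p))) := by
    have h : HasSum (fun p : ℤ × ℤ => if p ∈ Bx then Real.exp (-(β * qf p)) else 0)
        (∑ p ∈ Bx, (if p ∈ Bx then Real.exp (-(β * qf p)) else 0)) :=
      hasSum_sum_of_ne_finset_zero (fun p hp => by simp only [if_neg hp])
    have h' : ∑ p ∈ Bx, (if p ∈ Bx then Real.exp (-(β * qf p)) else 0) = ∑ p ∈ Bx, Real.exp (-(β * qf p)) :=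
      Finset.sum_congr rfl fun p hp => by rw [if_pos hp]
    rwa [h'] at h
  have g2 := geo_prod.mul_left (Real.exp (-(9 * β)))
  have g3 := g1.add g2
  have g4 : ∑' p : ℤ × ℤ, Real.exp (-(β * qf p)) ≤
      ∑ p ∈ Bx, Real.exp (-(β * qf p)) + Real.exp (-(9 * β)) * 9 := by
    rw [← g3.tsum_eq]
    refine hs.tsum_le_tsum (fun p => ?_) g3.summable
    have hx : 0 ≤ Real.exp (-(9 * β)) * ((1 / 2 : ℝ) ^ p.1.natAbs * (1 / 2 : ℝ) ^ p.2.natAbs) := by positivity
    by_cases hp : p ∈ Bx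
    · simp only [if_pos hp]
      linarith
    · simp only [if_neg hp]
      have := out_box hβ3 hp
      linarith
  have g5 : ∑ p ∈ Bx, Real.exp (-(β * qf p)) ≤ ∑ p ∈ Bx, Real.exp (-β) ^ qn p :=
    Finset.sum_le_sum fun p _ => le_qn hβ0 p
  rw [box_sum] at g5
  have k3 : Real.exp (-β) ^ 3 = Real.exp (-(3 * β)) := by
    rw [← Real.exp_nat_mul]
    congr 1
    push_cast
    ring
  have k4 : Real.exp (-β) ^ 4 = Real.exp (-(4 * β)) := by
    rw [← Real.exp_nat_mul]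
    congr 1
    push_cast
    ring
  have k7 : Real.exp (-β) ^ 7 = Real.exp (-(7 * β)) := by
    rw [← Real.exp_nat_mul]
    congr 1
    push_cast
    ring
  have k9 : Real.exp (-β) ^ 9 = Real.exp (-(9 * β)) := by
    rw [← Real.exp_nat_mul]
    congr 1
    push_cast
    ring
  rw [k3, k4, k7, k9] at g5
  have := Real.exp_pos (-(9 * β))
  linarith

end Pool.Agent.J4.H93.NS
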