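import Pool.Agent.J4.H93.NS.Cfg

/-!
# Project NS, piece MIX: from Gaussians to completely monotone potentials
-/

set_option autoImplicit false

open MeasureTheory Pool.Agent.TH478.CE

namespace Pool.Agent.J4.H93.NS

namespace MixAux

theorem hexPt_norm (p : ℤ × ℤ) : ‖hexPt p‖ ^ 2 = c3 * qf p := by
  rw [← len_sq p, mul_pow, Real.sq_sqrt (by
    have h0 := qf_nonneg p
    unfold qf at h0
    exact h0)]
  unfold hexPt
  rw [EuclideanSpace.norm_sq_eq]
  simp only [Fin.sum_univ_two, Real.norm_eq_abs, sq_abs]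
  have h2 : √(3 : ℝ) ^ 2 = 3 := Real.sq_sqrt (by norm_num)
  simp
  rw [mul_pow, mul_pow, mul_pow, div_pow, h2]
  ring

/-- the Gaussian potential -/
noncomputable def gs (α r : ℝ) : ENNReal := ENNReal.ofReal (Real.exp (-α * r ^ 2))

theorem measurable_gs (r : ℝ) : Measurable (fun α : ℝ => gs α r) := by
  unfold gs
  fun_prop

theorem mix_zero (μ : Measure ℝ) : mix μ 0 = ∫⁻ _ : ℝ, 1 ∂μ := by
  unfold mix
  simp

open Classical in
theorem energy_mix (μ : Measure ℝ) (a b : P) (N : ℕ) (x : Fin N → P) :
    energy (mix μ) a b N x = ∫⁻ α, energy (gs α) a b N x ∂μ := by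
  have hm : ∀ (v : P), Measurable (fun α : ℝ => if v = 0 then (0 : ENNReal) else gs α ‖v‖) := by
    intro v
    by_cases h : v = 0
    · simp [h]
    · simp only [h, if_false]
      exact measurable_gs _
  have hi : ∀ (v : P), (if v = 0 then (0 : ENNReal) else mix μ ‖v‖) =
      ∫⁻ α, (if v = 0 then (0 : ENNReal) else gs α ‖v‖) ∂μ := by
    intro v
    by_cases h : v = 0
    · simp [h]
    · simp only [h, if_false]
      rfl
  have ht : ∀ j k : Fin N, Measurable (fun α : ℝ => ∑' m : ℤ × ℤ,
      if x j - x k + latPt a b m = 0 then (0 : ENNReal) else gs α ‖x j - x k + latPt a b m‖) :=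
    fun j k => Measurable.tsum (fun m => hm _)
  unfold energy
  rw [lintegral_const_mul]
  · congr 1
    rw [lintegral_finsetSum]
    · apply Finset.sum_congr rfl
      intro j _
      rw [lintegral_finsetSum]
      · apply Finset.sum_congr rfl
        intro k _
        rw [lintegral_tsum (fun m => (hm _).aemeasurable)]
        apply tsum_congr
        intro m
        exact hi _
      · intro k _
        exact ht j k
    · intro j _
      exact Finset.measurable_sum _ (fun k _ => ht j k)
  · exact Finset.measurable_sum _ (fun j _ => Finset.measurable_sum _ (fun k _ => ht j k))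

theorem energyHex_mix (μ : Measure ℝ) :
    energyHex (mix μ) = ∫⁻ α, energyHex (gs α) ∂μ := by
  unfold energyHex
  rw [lintegral_tsum (fun m => (measurable_gs _).aemeasurable)]
  rfl

theorem measurable_energyHex : Measurable (fun α : ℝ => energyHex (gs α)) := by
  unfold energyHex
  exact Measurable.tsum (fun m => measurable_gs _)

theorem energyHex_gs {α : ℝ} (hα : 0 < α) : energyHex (gs α) = ENNReal.ofReal (En α) := by
  unfold energyHex gs
  rw [En_def', ENNReal.ofReal_tsum_of_nonneg (fun p => (Real.exp_pos _).le)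
    ((summable_Th hα).comp_injective Subtype.val_injective)]
  apply tsum_congr
  intro p
  rw [hexPt_norm]

end MixAux

open MixAux in
theorem mix_near {ε : ℝ} (hε0 : 0 ≤ ε) (hε1 : ε ≤ 1)
    (hnear : ∀ α : ℝ, 0 < α → (1 - ε) * (1 + En α) ≤ 1 + LP α)
    (hcfg : ∀ (α : ℝ), 0 < α → ∀ (a b : P) (N : ℕ) (x : Fin N → P), IsConf a b N x →
      ENNReal.ofReal (LP α) ≤ energy (fun r => ENNReal.ofReal (Real.exp (-α * r ^ 2))) a b N x)
    (μ : Measure ℝ) (hμ : μ (Set.Iic 0) = 0) {a b : P} {N : ℕ} {x : Fin N → P}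
    (h : IsConf a b N x) :
    ENNReal.ofReal (1 - ε) * (energyHex (mix μ) + mix μ 0) ≤ energy (mix μ) a b N x + mix μ 0 := by
  have hmeas : Measurable (fun α : ℝ => energyHex (gs α) + 1) :=
    measurable_energyHex.add measurable_const
  rw [energyHex_mix, energy_mix, mix_zero, ← lintegral_add_right _ measurable_const,
    ← lintegral_add_right _ measurable_const, ← lintegral_const_mul _ hmeas]
  have hae : ∀ᵐ α ∂μ, 0 < α := by
    rw [ae_iff]
    convert hμ using 2
    ext α
    simp
  apply lintegral_mono_ae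
  filter_upwards [hae] with α hα
  rw [energyHex_gs hα]
  have hEn : 0 ≤ En α := by
    rw [En_def']
    exact tsum_nonneg (fun p => (Real.exp_pos _).le)
  have h1 : ENNReal.ofReal (En α) + 1 = ENNReal.ofReal (1 + En α) := by
    rw [add_comm, ENNReal.ofReal_add (by norm_num) hEn, ENNReal.ofReal_one]
  rw [h1, ← ENNReal.ofReal_mul (by linarith)]
  calc ENNReal.ofReal ((1 - ε) * (1 + En α)) ≤ ENNReal.ofReal (LP α + 1) :=
        ENNReal.ofReal_le_ofReal (by linarith [hnear α hα])
    _ ≤ ENNReal.ofReal (LP α) + ENNReal.ofReal 1 := ENNReal.ofReal_add_le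
    _ = ENNReal.ofReal (LP α) + 1 := by rw [ENNReal.ofReal_one]
    _ ≤ energy (gs α) a b N x + 1 := by
        gcongr
        exact hcfg α hα a b N x h

end Pool.Agent.J4.H93.NS
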