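import Pool.Agent.J4.H93.NS.Low8
import Pool.Agent.J4.H93.NS.Fin1
import Pool.Agent.J4.H93.NS.Fin2
import Pool.Agent.J4.H93.NS.Hex
import Pool.Agent.J4.H93.NS.Num1
import Pool.Agent.J4.H93.NS.Mix
import Pool.Agent.J4.H93.NS.Cfg2
import Pool.Agent.TH478.CE.Num
import Pool.Agent.TH478.CE.Final

/-!
# Near-sharpness of the LP bound for Gaussian energy in the plane: final assembly
-/

set_option autoImplicit false

open MeasureTheory Filter Topology Pool.Agent.TH478.CE

namespace Pool.Agent.J4.H93.NS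

theorem kappa_eq {α : ℝ} :
    Real.pi * (1 + 2 * ((α / Real.pi - 1) * 13959 / 3848) * 1924 / 13959) = α := by
  have hpi := Real.pi_pos
  field_simp
  ring

theorem kappa_nonneg {α : ℝ} (h : Real.pi ≤ α) : 0 ≤ (α / Real.pi - 1) * 13959 / 3848 := by
  have hpi := Real.pi_pos
  have : 1 ≤ α / Real.pi := by rw [le_div_iff₀ hpi]; linarith
  have : 0 ≤ α / Real.pi - 1 := by linarith
  positivity

theorem En_le_LP_add {α : ℝ} (h : Real.pi ≤ α) : En α ≤ LP α + 10 ^ (-11 : ℤ) := by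
  have h1 := fin1_of En_shells _ (kappa_nonneg h)
  have h2 := main_lower _ (kappa_nonneg h)
  rw [kappa_eq] at h1 h2
  exact h1.trans (add_le_add_left h2 _)

theorem exp_En_le_LP {α : ℝ} (h : Real.pi ≤ α) :
    Real.exp (-(10 ^ (-8 : ℤ) * α)) * En α ≤ LP α := by
  have h1 := fin2_of (fun α hα => (En_shells α hα).trans (by
    have := Real.exp_pos (-(9 * (α * c3)))
    linarith)) exp_beta0 _ (kappa_nonneg h)
  have h2 := main_lower _ (kappa_nonneg h)
  rw [kappa_eq] at h1 h2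
  exact h1.trans h2

theorem En_nonneg (α : ℝ) : 0 ≤ En α := by
  rw [En_def']
  exact tsum_nonneg (fun p => (Real.exp_pos _).le)

/-- (1) relative near-sharpness, including the self-interaction term -/
theorem near_one {α : ℝ} (hα : 0 < α) :
    (1 - 10 ^ (-11 : ℤ)) * (1 + En α) ≤ 1 + LP α := by
  have hpi := Real.pi_pos
  have key : ∀ β : ℝ, Real.pi ≤ β → (1 - 10 ^ (-11 : ℤ)) * (1 + En β) ≤ 1 + LP β := by
    intro β hβ
    have h1 := En_le_LP_add hβ
    have h2 := En_nonneg β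
    have h3 : (0 : ℝ) ≤ 10 ^ (-11 : ℤ) := by positivity
    nlinarith
  rcases le_total Real.pi α with h | h
  · exact key α h
  · have hβ : Real.pi ≤ Real.pi ^ 2 / α := by
      rw [le_div_iff₀ hα]
      nlinarith
    have h1 := key _ hβ
    have h2 := LP_dual hα
    have h3 := En_dual hα
    have h4 : (1 - 10 ^ (-11 : ℤ)) * (α / Real.pi * (En α + 1)) ≤ α / Real.pi * (LP α + 1) := by
      rw [← h2, ← h3]
      linarith
    have h5 : 0 < α / Real.pi := by positivity
    have h6 : α / Real.pi * ((1 - 10 ^ (-11 : ℤ)) * (1 + En α)) ≤ α / Real.pi * (1 + LP α) := by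
      calc _ = (1 - 10 ^ (-11 : ℤ)) * (α / Real.pi * (En α + 1)) := by ring
        _ ≤ α / Real.pi * (LP α + 1) := h4
        _ = _ := by ring
    exact le_of_mul_le_mul_left h6 h5

theorem En_pi_ge : (3 / 20 : ℝ) ≤ En Real.pi := by
  have h1 := six_le_En Real.pi_pos
  have h2 := (abs_le.1 exp_beta0).1
  have h3 : -Real.pi * c3 = -(2 * Real.pi / √3) := by
    unfold c3
    ring
  rw [h3] at h1
  norm_num at h2
  linarith

/-- (2) relative near-sharpness -/
theorem near_two {α : ℝ} (hα : 0 < α) :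
    (1 - 10 ^ (-10 : ℤ)) * (Real.exp (-(10 ^ (-8 : ℤ) * α)) * En α) ≤ LP α := by
  have hE := En_nonneg α
  have h10 : (0 : ℝ) ≤ 10 ^ (-10 : ℤ) := by positivity
  rcases le_total Real.pi α with h | h
  · have h1 := exp_En_le_LP h
    have h2 : 0 ≤ Real.exp (-(10 ^ (-8 : ℤ) * α)) * En α := by positivity
    nlinarith
  · have h1 := near_one hα
    have h2 : (3 / 20 : ℝ) ≤ En α := En_pi_ge.trans (En_anti hα h)
    have h3 : Real.exp (-(10 ^ (-8 : ℤ) * α)) ≤ 1 := by
      apply Real.exp_le_one_iff.2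
      have : (0 : ℝ) ≤ 10 ^ (-8 : ℤ) * α := by positivity
      linarith
    have h4 : Real.exp (-(10 ^ (-8 : ℤ) * α)) * En α ≤ En α := by nlinarith
    have h5 : (1 - 10 ^ (-10 : ℤ)) * (Real.exp (-(10 ^ (-8 : ℤ) * α)) * En α) ≤
        (1 - 10 ^ (-10 : ℤ)) * En α := by
      apply mul_le_mul_of_nonneg_left h4
      norm_num
    refine h5.trans ?_
    norm_num at h1 ⊢
    linarith

/-- (3) the packing bound -/
theorem L2_le : L2 ≤ c3 + 10 ^ (-8 : ℤ) := by
  have h1 : Tendsto (fun α : ℝ => -Real.log (En α) / α + 10 ^ (-8 : ℤ)) atTop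
      (𝓝 (c3 + 10 ^ (-8 : ℤ))) := rate_En.add tendsto_const_nhds
  refine le_of_tendsto_of_tendsto rate_LP h1 ?_
  filter_upwards [eventually_ge_atTop Real.pi] with α hα
  have hα0 : 0 < α := Real.pi_pos.trans_le hα
  have h2 := exp_En_le_LP hα
  have h3 := Real.log_le_log (mul_pos (Real.exp_pos _) (En_pos hα0)) h2
  rw [Real.log_mul (Real.exp_pos _).ne' (En_pos hα0).ne', Real.log_exp] at h3
  rw [div_add' _ _ _ hα0.ne']
  apply div_le_div_of_nonneg_right _ hα0.le
  linarith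

end Pool.Agent.J4.H93.NS
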