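import Pool.Agent.J4.H93.NS.Final

/-!
# Near-optimality of the hexagonal lattice for completely monotone potentials
-/

set_option autoImplicit false

open MeasureTheory Filter Topology Pool.Agent.TH478.CE

namespace Pool.Agent.J4.H93.NS

open MixAux

/-- small `α`, by duality -/
theorem near_small {α : ℝ} (hα : 0 < α) (h : α ≤ Real.pi) :
    En α ≤ LP α + Real.pi / α *
      ((1 - Real.exp (-(10 ^ (-8 : ℤ) * (Real.pi ^ 2 / α)))) * En (Real.pi ^ 2 / α)) := by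
  have hpi := Real.pi_pos
  have hβ : Real.pi ≤ Real.pi ^ 2 / α := by
    rw [le_div_iff₀ hα]
    nlinarith
  have h1 := exp_En_le_LP hβ
  have h2 := LP_dual hα
  have h3 := En_dual hα
  have h4 : Real.pi / α * (α / Real.pi) = 1 := by field_simp
  have h5 : En α + 1 = Real.pi / α * (En (Real.pi ^ 2 / α) + 1) := by
    rw [h3, ← mul_assoc, h4, one_mul]
  have h6 : LP α + 1 = Real.pi / α * (LP (Real.pi ^ 2 / α) + 1) := by
    rw [h2, ← mul_assoc, h4, one_mul]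
  have h7 : 0 < Real.pi / α := by positivity
  have h8 : Real.pi / α * (En (Real.pi ^ 2 / α) - LP (Real.pi ^ 2 / α)) ≤ Real.pi / α *
      ((1 - Real.exp (-(10 ^ (-8 : ℤ) * (Real.pi ^ 2 / α)))) * En (Real.pi ^ 2 / α)) := by
    apply mul_le_mul_of_nonneg_left _ h7.le
    linarith
  linarith

theorem mix_near' (μ : Measure ℝ) (hμ : μ (Set.Iic 0) = 0) {a b : P} {N : ℕ} {x : Fin N → P}
    (h : IsConf a b N x) :
    ENNReal.ofReal (1 - 10 ^ (-11 : ℤ)) * (energyHex (mix μ) + mix μ 0) ≤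
      energy (mix μ) a b N x + mix μ 0 :=
  mix_near (by positivity) (by norm_num) (fun α hα => near_one hα)
    (fun α hα a b N x h => LP_le_energy hα h) μ hμ h

theorem gs_shift (α ε r : ℝ) (hε : 0 ≤ ε) :
    gs α (√(r ^ 2 + ε)) = ENNReal.ofReal (Real.exp (-(ε * α))) * gs α r := by
  unfold gs
  rw [Real.sq_sqrt (by positivity), ← ENNReal.ofReal_mul (Real.exp_pos _).le, ← Real.exp_add]
  congr 2
  ring

theorem mix_shift (μ : Measure ℝ) (hμ : μ (Set.Iic 0) = 0) {a b : P} {N : ℕ} {x : Fin N → P}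
    (h : IsConf a b N x) :
    ENNReal.ofReal (1 - 10 ^ (-10 : ℤ)) *
      ∑' m : {m : ℤ × ℤ // m ≠ 0}, mix μ (√(‖hexPt m.1‖ ^ 2 + 10 ^ (-8 : ℤ))) ≤
      energy (mix μ) a b N x := by
  have e1 : ∑' m : {m : ℤ × ℤ // m ≠ 0}, mix μ (√(‖hexPt m.1‖ ^ 2 + 10 ^ (-8 : ℤ))) =
      ∫⁻ α, ∑' m : {m : ℤ × ℤ // m ≠ 0}, gs α (√(‖hexPt m.1‖ ^ 2 + 10 ^ (-8 : ℤ))) ∂μ := by
    rw [lintegral_tsum (fun m => (measurable_gs _).aemeasurable)]
    rfl
  have hmeas : Measurable (fun α : ℝ => ∑' m : {m : ℤ × ℤ // m ≠ 0},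
      gs α (√(‖hexPt m.1‖ ^ 2 + 10 ^ (-8 : ℤ)))) := Measurable.tsum (fun m => measurable_gs _)
  rw [e1, energy_mix, ← lintegral_const_mul _ hmeas]
  have hae : ∀ᵐ α ∂μ, 0 < α := by
    rw [ae_iff]
    convert hμ using 2
    ext α
    simp
  apply lintegral_mono_ae
  filter_upwards [hae] with α hα
  have e2 : ∑' m : {m : ℤ × ℤ // m ≠ 0}, gs α (√(‖hexPt m.1‖ ^ 2 + 10 ^ (-8 : ℤ))) =
      ENNReal.ofReal (Real.exp (-(10 ^ (-8 : ℤ) * α)) * En α) := by
    rw [tsum_congr (fun m => gs_shift α _ _ (by positivity)), ENNReal.tsum_mul_left,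
      ENNReal.ofReal_mul (Real.exp_pos _).le, ← energyHex_gs hα]
    rfl
  rw [e2, ← ENNReal.ofReal_mul (by norm_num)]
  exact (ENNReal.ofReal_le_ofReal (near_two hα)).trans (LP_le_energy hα h)

end Pool.Agent.J4.H93.NS
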