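import Mathlib

/-!
# Hermite interpolation of `exp (-κ y)` at double nodes from below (piece HERM of project NS)

Proof by helper7: Rolle's theorem `2j` times.
-/

set_option autoImplicit false

open Polynomial

namespace Pool.Agent.J4.H93.NS

namespace HermAux

/-- Rolle: between consecutive zeros of `f` there is a zero of `f'`. -/
theorem rolle_finset (f f' : ℝ → ℝ) (hf : ∀ x, HasDerivAt f (f' x) x) (S : Finset ℝ)
    (hS : ∀ x ∈ S, f x = 0) :
    ∃ T : Finset ℝ, S.card ≤ T.card + 1 ∧ Disjoint T S ∧ (∀ t ∈ T, f' t = 0) ∧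
      ∀ t ∈ T, ∃ x ∈ S, t < x := by
  classical
  induction S using Finset.induction_on_max with
  | empty => exact ⟨∅, by simp, by simp, by simp, by simp⟩
  | insert a s ha ih =>
    obtain ⟨T, hT1, hT2, hT3, hT4⟩ := ih (fun x hx => hS x (Finset.mem_insert_of_mem hx))
    have has : a ∉ s := fun h => lt_irrefl _ (ha a h)
    rcases s.eq_empty_or_nonempty with hs | hs
    · subst hs
      exact ⟨∅, by simp, by simp, by simp, by simp⟩
    · set m := s.max' hs with hm
      have hms : m ∈ s := s.max'_mem hs
      have hma : m < a := ha m hms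
      obtain ⟨c, hc, hc0⟩ := exists_hasDerivAt_eq_zero (f := f) (f' := f') hma
        (fun x _ => (hf x).continuousAt.continuousWithinAt)
        (by rw [hS m (Finset.mem_insert_of_mem hms), hS a (Finset.mem_insert_self _ _)])
        (fun x _ => hf x)
      have hle : ∀ x ∈ s, x ≤ m := fun x hx => s.le_max' x hx
      have hTm : ∀ t ∈ T, t < m := fun t ht => by
        obtain ⟨x, hx, htx⟩ := hT4 t ht
        exact lt_of_lt_of_le htx (hle x hx)
      have hcT : c ∉ T := fun h => lt_irrefl _ ((hTm c h).trans hc.1)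
      refine ⟨insert c T, ?_, ?_, ?_, ?_⟩
      · rw [Finset.card_insert_of_notMem hcT, Finset.card_insert_of_notMem has]
        omega
      · rw [Finset.disjoint_left]
        intro t ht hts
        rcases Finset.mem_insert.1 ht with rfl | ht
        · rcases Finset.mem_insert.1 hts with h | h
          · exact absurd hc.2 (by rw [h]; exact lt_irrefl _)
          · exact absurd hc.1 (not_lt.2 (hle _ h))
        · rcases Finset.mem_insert.1 hts with h | h
          · exact lt_irrefl _ ((hTm t ht).trans (by rw [h]; exact hma))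
          · exact Finset.disjoint_left.1 hT2 ht h
      · intro t ht
        rcases Finset.mem_insert.1 ht with rfl | ht
        · exact hc0
        · exact hT3 t ht
      · intro t ht
        rcases Finset.mem_insert.1 ht with rfl | ht
        · exact ⟨a, Finset.mem_insert_self _ _, hc.2⟩
        · exact ⟨m, Finset.mem_insert_of_mem hms, hTm t ht⟩

/-- `A exp (-κ y) + Q(y)` -/
noncomputable def ep (κ A : ℝ) (Q : Polynomial ℝ) (y : ℝ) : ℝ := A * Real.exp (-κ * y) + Q.eval y

theorem ep_deriv (κ A : ℝ) (Q : Polynomial ℝ) (y : ℝ) :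
    HasDerivAt (ep κ A Q) (ep κ (A * -κ) (derivative Q) y) y := by
  unfold ep
  have h1 : HasDerivAt (fun y : ℝ => Real.exp (-κ * y)) (Real.exp (-κ * y) * (-κ)) y := by
    have := ((hasDerivAt_id y).const_mul (-κ)).exp
    simpa using this
  have h2 := (h1.const_mul A).add (Q.hasDerivAt y)
  have h3 : A * (Real.exp (-κ * y) * -κ) + (derivative Q).eval y =
      A * -κ * Real.exp (-κ * y) + (derivative Q).eval y := by ring
  rw [h3] at h2
  exact h2

theorem ep_iter (κ : ℝ) (m : ℕ) : ∀ (A : ℝ) (Q : Polynomial ℝ) (S : Finset ℝ),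
    m + 1 ≤ S.card → (∀ x ∈ S, ep κ A Q x = 0) →
    ∃ ξ : ℝ, ep κ (A * (-κ) ^ m) (derivative^[m] Q) ξ = 0 := by
  induction m with
  | zero =>
    intro A Q S hS h
    obtain ⟨x, hx⟩ := Finset.card_pos.1 (by omega : 0 < S.card)
    exact ⟨x, by simpa using h x hx⟩
  | succ m ih =>
    intro A Q S hS h
    obtain ⟨T, hT1, -, hT3, -⟩ := rolle_finset _ _ (ep_deriv κ A Q) S h
    obtain ⟨ξ, hξ⟩ := ih (A * -κ) (derivative Q) T (by omega) hT3
    refine ⟨ξ, ?_⟩
    rw [Function.iterate_succ_apply, pow_succ']
    rw [← mul_assoc]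
    exact hξ

theorem iter_monic (P : Polynomial ℝ) (n : ℕ) (hP : P.Monic) (hn : P.natDegree = n) :
    derivative^[n] P = C (n.factorial : ℝ) := by
  have hd : (P - X ^ n).natDegree < n ∨ P - X ^ n = 0 := by
    by_cases h0 : P - X ^ n = 0
    · exact Or.inr h0
    · left
      have h1 : (P - X ^ n).degree < P.degree := by
        apply degree_sub_lt_left
        · rw [degree_X_pow, degree_eq_natDegree hP.ne_zero, hn]
        · exact hP.ne_zero
        · rw [hP.leadingCoeff, leadingCoeff_X_pow]
      rw [degree_eq_natDegree hP.ne_zero, hn] at h1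
      exact (natDegree_lt_iff_degree_lt h0).2 h1
  have h2 : derivative^[n] (P - X ^ n) = 0 := by
    rcases hd with hd | hd
    · exact iterate_derivative_eq_zero hd
    · rw [hd]; simp
  rw [iterate_derivative_sub, sub_eq_zero] at h2
  rw [h2, iterate_derivative_X_pow_eq_C_mul]
  simp [Nat.descFactorial_self]

end HermAux

open HermAux in
theorem hermite_le (κ : ℝ) (hκ : 0 ≤ κ) (z : List ℝ) (hz : z.Nodup) (H : Polynomial ℝ)
    (hdeg : H.degree < ((2 * z.length : ℕ) : WithBot ℕ)) (h0 : ∀ r ∈ z, H.eval r = Real.exp (-κ * r))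
    (h1 : ∀ r ∈ z, (derivative H).eval r = -κ * Real.exp (-κ * r)) (y : ℝ) :
    H.eval y ≤ Real.exp (-κ * y) := by
  classical
  by_cases hy : y ∈ z
  · exact (h0 y hy).le
  set Z := z.toFinset with hZ
  have hcard : Z.card = z.length := List.toFinset_card_of_nodup hz
  have hyZ : y ∉ Z := by simpa [hZ] using hy
  rcases Nat.eq_zero_or_pos z.length with hj | hj
  · rw [hj] at hdeg
    have : H = 0 := by
      apply degree_eq_bot.1
      simpa using hdeg
    rw [this]
    simpa using (Real.exp_pos (-κ * y)).le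
  set P : Polynomial ℝ := ∏ r ∈ Z, (X - C r) ^ 2 with hP
  have hPm : P.Monic := monic_prod_of_monic _ _ (fun r _ => (monic_X_sub_C r).pow 2)
  have hPd : P.natDegree = 2 * z.length := by
    rw [hP, natDegree_prod_of_monic _ _ (fun r _ => (monic_X_sub_C r).pow 2)]
    simp [hcard, mul_comm]
  have hPy : 0 < P.eval y := by
    rw [hP, eval_prod]
    apply Finset.prod_pos
    intro r hr
    have : y - r ≠ 0 := sub_ne_zero.2 (fun h => hyZ (h ▸ hr))
    simp only [eval_pow, eval_sub, eval_X, eval_C]
    positivity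
  have hPr : ∀ r ∈ Z, P.eval r = 0 ∧ (derivative P).eval r = 0 := by
    intro r hr
    have hdvd : (X - C r) ^ 2 ∣ P := Finset.dvd_prod_of_mem (fun r : ℝ => (X - C r) ^ 2) hr
    obtain ⟨R, hR⟩ := hdvd
    constructor
    · rw [hR]; simp
    · rw [hR]; simp [derivative_mul, derivative_pow]
  set c : ℝ := (Real.exp (-κ * y) - H.eval y) / P.eval y with hc
  set Q : Polynomial ℝ := -H - C c * P with hQ
  have hzero : ∀ x ∈ insert y Z, ep κ 1 Q x = 0 := by
    intro x hx
    rcases Finset.mem_insert.1 hx with rfl | hx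
    · simp only [ep, hQ, eval_sub, eval_neg, eval_mul, eval_C, hc]
      field_simp
      ring
    · simp only [ep, hQ, eval_sub, eval_neg, eval_mul, eval_C]
      rw [(hPr x hx).1, h0 x (by simpa [hZ] using hx)]
      ring
  obtain ⟨T, hT1, hT2, hT3, -⟩ := rolle_finset _ _ (ep_deriv κ 1 Q) _ hzero
  have hzero' : ∀ x ∈ T ∪ Z, ep κ (1 * -κ) (derivative Q) x = 0 := by
    intro x hx
    rcases Finset.mem_union.1 hx with hx | hx
    · exact hT3 x hx
    · simp only [ep, hQ, derivative_sub, derivative_neg, derivative_C_mul, eval_sub, eval_neg,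
        eval_mul, eval_C]
      rw [(hPr x hx).2, h1 x (by simpa [hZ] using hx)]
      ring
  have hdis : Disjoint T Z := hT2.mono_right (Finset.subset_insert _ _)
  have hcard2 : (2 * z.length - 1) + 1 ≤ (T ∪ Z).card := by
    rw [Finset.card_union_of_disjoint hdis, hcard]
    rw [Finset.card_insert_of_notMem hyZ, hcard] at hT1
    omega
  obtain ⟨ξ, hξ⟩ := ep_iter κ (2 * z.length - 1) _ _ _ hcard2 hzero'
  have e1 : (1 * -κ) * (-κ) ^ (2 * z.length - 1) = κ ^ (2 * z.length) := by
    rw [one_mul, ← pow_succ', Nat.sub_add_cancel (by omega), pow_mul, pow_mul, neg_sq]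
  have e2 : derivative^[2 * z.length - 1] (derivative Q) = - (C (c * ((2 * z.length).factorial : ℝ))) := by
    rw [← Function.iterate_succ_apply, Nat.succ_eq_add_one, Nat.sub_add_cancel (by omega), hQ,
      iterate_derivative_sub, iterate_derivative_neg, iterate_derivative_C_mul,
      iter_monic P _ hPm hPd, C_mul]
    have : derivative^[2 * z.length] H = 0 := by
      by_cases hH : H = 0
      · rw [hH]; simp
      · apply iterate_derivative_eq_zero
        exact (natDegree_lt_iff_degree_lt hH).2 hdeg
    rw [this]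
    simp
  rw [e1, e2] at hξ
  simp only [ep, eval_neg, eval_C] at hξ
  have hc0 : 0 ≤ c := by
    have h2 : c * ((2 * z.length).factorial : ℝ) = κ ^ (2 * z.length) * Real.exp (-κ * ξ) := by
      linarith
    have h3 : 0 ≤ c * ((2 * z.length).factorial : ℝ) := by
      rw [h2]; positivity
    have h4 : (0 : ℝ) < ((2 * z.length).factorial : ℝ) := by positivity
    exact nonneg_of_mul_nonneg_left h3 h4
  have h5 : Real.exp (-κ * y) - H.eval y = c * P.eval y := by
    rw [hc]; field_simp
  have h6 : 0 ≤ c * P.eval y := mul_nonneg hc0 hPy.le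
  linarith

end Pool.Agent.J4.H93.NS
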