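import Pool.Agent.J4.H93.NS.D8

/-!
# Near-sharpness of the LP bound: the certificate of degree 31 is checked by the kernel
-/

set_option autoImplicit false
set_option maxRecDepth 100000

namespace Pool.Agent.J4.H93.NS.D8

def hA : List (List ℤ) := ra.map (hatL p ns)
def hB : List (List ℤ) := rb.map (hatL p ns)
def sA : List (List ℤ) := ra.map (funL p q ns)
def sB : List (List ℤ) := rb.map (funL p q ns)
def qA : List (List ℤ) := sA.map (quot (znodes p ns))
def qB : List (List ℤ) := sB.map (quot (znodes p ns))

def va : List ℤ := [159479600850945837448193, 112671199057027325494, 2994792579047398450,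
  112475541379852, 39728940796, 741101, 35104, -1]

def vb : List ℤ := [1051482238529370, 1158874127564, -28787553029, -53673307, -1191877, -10392,
  -1171, -1]

theorem den_pos : 0 < den := by decide +kernel

theorem chk_hA : hermAll p den 0 ns 0 sA = true := by decide +kernel

theorem chk_hB : hermAll p 0 (-den) ns 0 sB = true := by decide +kernel

theorem chk_ra : psum p [] ra = true := by decide +kernel

theorem chk_rb : psum p [] rb = true := by decide +kernel

theorem chk_qb : psum p [] (qB.map negL) = true := by decide +kernel

theorem chk_rows : rowsCheck p (qA ++ qB) rows = true := by decide +kernel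

theorem chk_va : valCheck (10 ^ 24) den va hA sA = true := by decide +kernel

theorem chk_vb : valCheck (10 ^ 24) den vb hB sB = true := by decide +kernel

end Pool.Agent.J4.H93.NS.D8
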