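import Pool.Agent.J4.H93.NS.Defs

/-!
# The Fourier transforms of `|x|^(2k) exp(-π |x|²)` in the plane
-/

set_option autoImplicit false

open Polynomial Pool.Agent.TH478.CE MeasureTheory Set Filter Topology

namespace Pool.Agent.J4.H93.NS

namespace LagAux

open scoped SchwartzMap

/-- `|x|^(2k) exp (-a |x|²)` -/
noncomputable def fk (k : ℕ) (a : ℝ) (x : P) : ℝ := ‖x‖ ^ (2 * k) * Real.exp (-a * ‖x‖ ^ 2)

lemma isRS_fk (k : ℕ) {a : ℝ} (ha : 0 < a) : IsRS (fk k a) := by
  obtain ⟨G, hG⟩ := (isRS_gauss ha).schwartz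
  have ht : (fun x : P => (‖x‖ ^ 2) ^ k).HasTemperateGrowth :=
    (Function.hasTemperateGrowth_norm_sq P).pow k
  refine ⟨⟨SchwartzMap.smulLeftCLM ℝ (fun x : P => (‖x‖ ^ 2) ^ k) G, fun x => ?_⟩, fun x y h => ?_⟩
  · rw [SchwartzMap.smulLeftCLM_apply_apply ht, hG, fk, smul_eq_mul, pow_mul]
  · unfold fk
    rw [h]

/-- the value of the transform -/
noncomputable def val (k : ℕ) (B a : ℝ) : ℝ :=
  Real.pi * (a⁻¹) ^ (k + 1) * ((Lam k).eval (B / a) * Real.exp (-(B / a)))

lemma val_deriv (k : ℕ) (B : ℝ) {a : ℝ} (ha : 0 < a) :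
    HasDerivAt (val k B) (-(val (k + 1) B a)) a := by
  have h0 : a ≠ 0 := ha.ne'
  have hz : HasDerivAt (fun a : ℝ => B / a) (-(B / a ^ 2)) a := by
    refine HasDerivAt.congr_deriv ((hasDerivAt_const a B).div (hasDerivAt_id a) h0) ?_
    show (0 * a - B * 1) / a ^ 2 = -(B / a ^ 2)
    ring
  have hi : HasDerivAt (fun a : ℝ => (a⁻¹) ^ (k + 1))
      (((k + 1 : ℕ) : ℝ) * (a⁻¹) ^ k * (-(a ^ 2)⁻¹)) a := by
    refine HasDerivAt.congr_deriv ((hasDerivAt_inv h0).pow (k + 1)) ?_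
    rw [Nat.add_sub_cancel]
  have hL : HasDerivAt (fun a : ℝ => (Lam k).eval (B / a))
      ((derivative (Lam k)).eval (B / a) * (-(B / a ^ 2))) a :=
    ((Lam k).hasDerivAt (B / a)).comp a hz
  have hE : HasDerivAt (fun a : ℝ => Real.exp (-(B / a)))
      (Real.exp (-(B / a)) * (-(-(B / a ^ 2)))) a := hz.neg.exp
  have h := (hi.const_mul Real.pi).mul (hL.mul hE)
  refine h.congr_deriv ?_
  unfold val
  simp only [Lam, eval_add, eval_mul, eval_sub, eval_C, eval_X, Pi.mul_apply]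
  push_cast
  have e : a⁻¹ ^ (k + 1 + 1) = a⁻¹ ^ k * (a⁻¹ * a⁻¹) := by ring
  have e1 : a⁻¹ ^ (k + 1) = a⁻¹ ^ k * a⁻¹ := by ring
  rw [e, e1]
  generalize a⁻¹ ^ k = u
  field_simp
  ring

lemma ft_fk (k : ℕ) : ∀ (y : P) {a : ℝ}, 0 < a →
    ft (fk k a) y = ((val k (Real.pi ^ 2 * ‖y‖ ^ 2) a : ℝ) : ℂ) := by
  induction k with
  | zero =>
    intro y a ha
    have e : fk 0 a = fun x : P => Real.exp (-a * ‖x‖ ^ 2) := by
      funext x
      simp [fk]
    rw [e, ft_gauss ha]
    congr 1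
    unfold val
    simp only [Lam, eval_one, zero_add, pow_one, one_mul]
    congr 2
    ring
  | succ k ih =>
    intro y a ha
    -- the derivative under the integral
    have hF : HasDerivAt (fun s : ℝ => ft (fk k s) y) (-(ft (fk (k + 1) a) y)) a := by
      have hfun : (fun s : ℝ => ft (fk k s) y) = fun s : ℝ => ∫ x : P,
          Complex.exp (((-2 * Real.pi * inner ℝ x y : ℝ) : ℂ) * Complex.I) * (fk k s x : ℂ) := by
        funext s
        rw [ft_eq_integral]
      rw [hfun, ft_eq_integral, ← integral_neg]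
      have hnorm : ∀ x : P,
          ‖Complex.exp (((-2 * Real.pi * inner ℝ x y : ℝ) : ℂ) * Complex.I)‖ = 1 := by
        intro x
        rw [Complex.norm_exp_ofReal_mul_I]
      have hcont : Continuous fun x : P =>
          Complex.exp (((-2 * Real.pi * inner ℝ x y : ℝ) : ℂ) * Complex.I) := by
        fun_prop
      have hmeas : ∀ (m : ℕ) {s : ℝ}, 0 < s → Integrable (fun x : P =>
          Complex.exp (((-2 * Real.pi * inner ℝ x y : ℝ) : ℂ) * Complex.I) * (fk m s x : ℂ)) := by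
        intro m s hs
        refine ((isRS_fk m hs).integrableC).bdd_mul (c := 1) hcont.aestronglyMeasurable ?_
        exact Eventually.of_forall fun x => (hnorm x).le
      refine (hasDerivAt_integral_of_dominated_loc_of_deriv_le (s := Metric.ball a (a / 2))
        (F := fun s x => Complex.exp (((-2 * Real.pi * inner ℝ x y : ℝ) : ℂ) * Complex.I) *
          (fk k s x : ℂ))
        (F' := fun s x => -(Complex.exp (((-2 * Real.pi * inner ℝ x y : ℝ) : ℂ) * Complex.I) *
          (fk (k + 1) s x : ℂ)))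
        (bound := fk (k + 1) (a / 2)) (Metric.ball_mem_nhds a (half_pos ha)) ?_ (hmeas k ha)
        ?_ ?_ ?_ ?_).2
      · filter_upwards [Metric.ball_mem_nhds a (half_pos ha)] with s hs
        rw [Metric.mem_ball, Real.dist_eq, abs_lt] at hs
        exact (hmeas k (by linarith)).aestronglyMeasurable
      · exact ((hmeas (k + 1) ha).neg).aestronglyMeasurable
      · refine Eventually.of_forall fun x s hs => ?_
        rw [Metric.mem_ball, Real.dist_eq, abs_lt] at hs
        rw [norm_neg, norm_mul, hnorm, one_mul, Complex.norm_real, Real.norm_eq_abs, abs_of_nonneg]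
        · unfold fk
          refine mul_le_mul_of_nonneg_left (Real.exp_le_exp.2 ?_) (by positivity)
          have := sq_nonneg ‖x‖
          nlinarith
        · unfold fk
          positivity
      · exact (isRS_fk (k + 1) (half_pos ha)).integrable
      · refine Eventually.of_forall fun x s _ => ?_
        have h1 : HasDerivAt (fun s : ℝ => fk k s x) (-(fk (k + 1) s x)) s := by
          have h2 : HasDerivAt (fun s : ℝ => Real.exp (-s * ‖x‖ ^ 2))
              (Real.exp (-s * ‖x‖ ^ 2) * (-1 * ‖x‖ ^ 2)) s :=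
            ((hasDerivAt_id s).neg.mul_const (‖x‖ ^ 2)).exp
          refine (h2.const_mul (‖x‖ ^ (2 * k))).congr_deriv ?_
          unfold fk
          ring
        have h3 := (h1.ofReal_comp).const_mul
          (Complex.exp (((-2 * Real.pi * inner ℝ x y : ℝ) : ℂ) * Complex.I))
        refine h3.congr_deriv ?_
        push_cast
        ring
    have hV : HasDerivAt (fun s : ℝ => ((val k (Real.pi ^ 2 * ‖y‖ ^ 2) s : ℝ) : ℂ))
        ((-(val (k + 1) (Real.pi ^ 2 * ‖y‖ ^ 2) a) : ℝ) : ℂ) a :=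
      (val_deriv k _ ha).ofReal_comp
    have hEq : (fun s : ℝ => ft (fk k s) y) =ᶠ[𝓝 a]
        fun s : ℝ => ((val k (Real.pi ^ 2 * ‖y‖ ^ 2) s : ℝ) : ℂ) := by
      filter_upwards [lt_mem_nhds ha] with s hs
      exact ih y hs
    have := (hF.congr_of_eventuallyEq hEq.symm).unique hV
    have h2 := congrArg Neg.neg this
    simpa using h2

end LagAux

open LagAux

theorem lag (k : ℕ) :
    IsRS (fun x : P => ‖x‖ ^ (2 * k) * Real.exp (-Real.pi * ‖x‖ ^ 2)) ∧
    ∀ y : P, rft (fun x : P => ‖x‖ ^ (2 * k) * Real.exp (-Real.pi * ‖x‖ ^ 2)) y =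
      (Real.pi ^ k)⁻¹ * (Lam k).eval (Real.pi * ‖y‖ ^ 2) * Real.exp (-Real.pi * ‖y‖ ^ 2) := by
  refine ⟨isRS_fk k Real.pi_pos, fun y => ?_⟩
  have h := ft_fk k y Real.pi_pos
  have h1 : rft (fk k Real.pi) y = val k (Real.pi ^ 2 * ‖y‖ ^ 2) Real.pi := by
    unfold rft
    rw [h, Complex.ofReal_re]
  have h2 : rft (fun x : P => ‖x‖ ^ (2 * k) * Real.exp (-Real.pi * ‖x‖ ^ 2)) y =
      rft (fk k Real.pi) y := rfl
  rw [h2, h1]
  unfold val
  have hp := Real.pi_ne_zero
  have e : Real.pi ^ 2 * ‖y‖ ^ 2 / Real.pi = Real.pi * ‖y‖ ^ 2 := by field_simp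
  rw [e]
  have e2 : -(Real.pi * ‖y‖ ^ 2) = -Real.pi * ‖y‖ ^ 2 := by ring
  rw [e2]
  have e3 : Real.pi * Real.pi⁻¹ ^ (k + 1) = (Real.pi ^ k)⁻¹ := by
    rw [pow_succ, inv_pow]
    field_simp
  rw [e3]
  ring

end Pool.Agent.J4.H93.NS
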