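import Mathlib

/-!
# Piece LOGX of the project NS (helper46)
-/

set_option autoImplicit false

namespace Pool.Agent.J4.H93.NS

theorem log_series_le (m : ℕ) (x : ℝ) (h0 : 0 < x) (h1 : x ≤ 1) :
    ∑ k ∈ Finset.range m, (1 - x) ^ (k + 1) / ((k : ℝ) + 1) ≤ -Real.log x := by
  have h := Real.hasSum_pow_div_log_of_abs_lt_one (x := 1 - x) (by rw [abs_lt]; constructor <;> linarith)
  rw [sub_sub_cancel] at h
  refine sum_le_hasSum _ (fun k _ => ?_) h
  have : 0 ≤ 1 - x := by linarith
  positivity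

end Pool.Agent.J4.H93.NS
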