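import Pool.Agent.J4.H93.NS.Main8

/-!
# Near-sharpness of the LP bound: the lower bound `V κ ≤ LP`
-/

set_option autoImplicit false

open Polynomial Pool.Agent.TH478.CE

namespace Pool.Agent.J4.H93.NS.D8

/-- the transform of the test function -/
noncomputable def G (κ : ℝ) (x : P) : ℝ := tot κ (fun l => gf q l x) hA hB

/-- the test function -/
noncomputable def f (κ : ℝ) (x : P) : ℝ := tot κ (fun l => gf q l x) sA sB

theorem sA_eq : sA = hA.map (Tr q 0 [1]) := by
  simp only [sA, hA, List.map_map]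
  rfl

theorem sB_eq : sB = hB.map (Tr q 0 [1]) := by
  simp only [sB, hB, List.map_map]
  rfl

theorem G_rs (κ : ℝ) : IsRS (G κ) ∧ ∀ y, rft (G κ) y = f κ y := by
  obtain ⟨h1, h2⟩ := ws_rs q q_pos (W κ) hA
  obtain ⟨h3, h4⟩ := ws_rs q q_pos (W κ) hB
  have h5 : IsRS (fun x => ws (W κ) hA (fun l => gf q l x) + κ * ws (W κ) hB (fun l => gf q l x)) :=
    h1.add (h3.const_mul κ)
  refine ⟨h5.const_mul _, fun y => ?_⟩
  have e : G κ = fun x => (den : ℝ)⁻¹ *
      (ws (W κ) hA (fun l => gf q l x) + κ * ws (W κ) hB (fun l => gf q l x)) := rfl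
  rw [e, rft_const_mul, rft_add h1 (h3.const_mul κ), rft_const_mul, h2, h4, f, tot, sA_eq, sB_eq,
    ws_map, ws_map]

theorem f_rs (κ : ℝ) : IsRS (f κ) := by
  have h := (G_rs κ).1.rft
  have e : rft (G κ) = f κ := funext (G_rs κ).2
  rwa [e] at h

theorem rft_f (κ : ℝ) : rft (f κ) = G κ := by
  have e : rft (G κ) = f κ := funext (G_rs κ).2
  rw [← e]
  exact rft_rft (G_rs κ).1

theorem tot_mul (κ c : ℝ) (g : List ℤ → ℝ) (LA LB : List (List ℤ)) :
    tot κ (fun l => c * g l) LA LB = c * tot κ g LA LB := by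
  unfold tot
  rw [ws_mul, ws_mul]
  ring

theorem tot_mul' (κ c : ℝ) (g : List ℤ → ℝ) (LA LB : List (List ℤ)) :
    tot κ (fun l => g l * c) LA LB = tot κ g LA LB * c := by
  unfold tot
  rw [ws_mul', ws_mul']
  ring

theorem den_pos' : (0 : ℝ) < (den : ℝ) := by exact_mod_cast den_pos

theorem G_nonneg {κ : ℝ} (hκ : 0 ≤ κ) (x : P) : 0 ≤ G κ x := by
  set y : ℝ := (q : ℝ) * (2 * Real.pi * ‖x‖ ^ 2) with hy
  have hq : (0 : ℝ) < q := by exact_mod_cast q_pos
  have hy0 : 0 ≤ y := by have := Real.pi_pos; positivity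
  have e : G κ x = ((nodeP (znodes p ns)).eval y * tot κ (fun l => (toP l).eval y) ra rb) *
      Real.exp (-Real.pi * ‖x‖ ^ 2) := by
    rw [← tot_mul, ← tot_mul']
    unfold G tot hA hB
    rw [ws_map, ws_map]
    simp only [gf, hatL, toP_mulNodes, eval_mul, ← hy]
  rw [e]
  have h1 := psum_nonneg p p_pos y hy0 (W κ) ra (W_dec hκ) chk_ra (by rw [W_len, ra_len])
  have h2 := psum_nonneg p p_pos y hy0 (W κ) rb (W_dec hκ) chk_rb (by rw [W_len, rb_len])
  have h3 := node_nonneg p ns y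
  have h4 := den_pos'
  unfold tot
  generalize ws (W κ) ra (fun l => (toP l).eval y) = A at h1 ⊢
  generalize ws (W κ) rb (fun l => (toP l).eval y) = B at h2 ⊢
  generalize (nodeP (znodes p ns)).eval y = C at h3 ⊢
  generalize (den : ℝ) = d at h4 ⊢
  exact mul_nonneg (mul_nonneg h3 (mul_nonneg (inv_nonneg.2 h4.le) (add_nonneg h1 (mul_nonneg hκ h2))))
    (Real.exp_pos _).le

theorem f_le {κ : ℝ} (hκ : 0 ≤ κ) (x : P) :
    f κ x ≤ Real.exp (-(Real.pi * (1 + 2 * κ * 1924 / 13959)) * ‖x‖ ^ 2) := by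
  set y : ℝ := (q : ℝ) * (2 * Real.pi * ‖x‖ ^ 2) with hy
  have hq : (0 : ℝ) < q := by exact_mod_cast q_pos
  have hy0 : 0 ≤ y := by have := Real.pi_pos; positivity
  have e : f κ x = tot κ (fun s => (toP s).eval y) sA sB * Real.exp (-Real.pi * ‖x‖ ^ 2) := by
    rw [← tot_mul']
    rfl
  have e2 : tot κ (fun s => (toP s).eval y) sA sB = (H κ).eval y +
      (nodeP (znodes p ns)).eval y * ((den : ℝ)⁻¹ *
        (ws (W κ) qA (fun l => (toP l).eval y) + κ * ws (W κ) qB (fun l => (toP l).eval y))) := by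
    rw [H_eval]
    unfold tot qA qB
    rw [ws_map, ws_map]
    have h : ∀ L : List (List ℤ), ws (W κ) L (fun s => (toP s).eval y) =
        ws (W κ) L (fun s => (Nf s).eval y) + (nodeP (znodes p ns)).eval y *
          ws (W κ) L (fun s => (toP (quot (znodes p ns) s)).eval y) := by
      intro L
      rw [← ws_mul, ← ws_add]
      apply ws_congr
      intro s _
      have := congrArg (fun Q => Q.eval y) (Nf_eq s)
      simp only [eval_add, eval_mul] at this
      rw [this]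
    rw [h sA, h sB]
    ring
  have h1 := H_le hκ y
  have h2 := remainder_nonpos hκ hy0
  have h3 := node_nonneg p ns y
  have h4 := den_pos'
  have h5 : (nodeP (znodes p ns)).eval y * ((den : ℝ)⁻¹ *
        (ws (W κ) qA (fun l => (toP l).eval y) + κ * ws (W κ) qB (fun l => (toP l).eval y))) ≤ 0 :=
    mul_nonpos_of_nonneg_of_nonpos h3 (mul_nonpos_of_nonneg_of_nonpos (by positivity) h2)
  have h6 : tot κ (fun s => (toP s).eval y) sA sB ≤ Real.exp (-(κ / p) * y) := by
    rw [e2]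
    linarith
  rw [e]
  refine le_trans (mul_le_mul_of_nonneg_right h6 (Real.exp_pos _).le) ?_
  rw [← Real.exp_add]
  apply Real.exp_le_exp.2
  rw [hy]
  have hp' : (p : ℝ) = 13959 := by norm_num [p]
  have hq' : (q : ℝ) = 1924 := by norm_num [q]
  rw [hp', hq']
  apply le_of_eq
  ring

theorem f_feas {κ : ℝ} (hκ : 0 ≤ κ) : Feas (Real.pi * (1 + 2 * κ * 1924 / 13959)) (f κ) :=
  mkFeas (f_rs κ) (fun x _ => f_le hκ x) (fun y => by rw [rft_f]; exact G_nonneg hκ y)

theorem V_le_val {κ : ℝ} (hκ : 0 ≤ κ) : V κ ≤ rft (f κ) 0 - f κ 0 := by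
  rw [rft_f]
  have hg : ∀ L : List (List ℤ), ws (W κ) L (fun l => gf q l (0 : P)) =
      ws (W κ) L (fun l => (hd l : ℝ)) := by
    intro L
    apply ws_congr
    intro l _
    unfold gf
    rw [norm_zero]
    norm_num [toP_hd]
  have h1 := valCheck_sound (10 ^ 24) den (W κ) va hA sA (W_nonneg κ) chk_va
  have h2 := valCheck_sound (10 ^ 24) den (W κ) vb hB sB (W_nonneg κ) chk_vb
  unfold G f tot
  rw [hg, hg, hg, hg]
  set A1 := ws (W κ) hA (fun l => (hd l : ℝ))
  set A2 := ws (W κ) sA (fun l => (hd l : ℝ))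
  set B1 := ws (W κ) hB (fun l => (hd l : ℝ))
  set B2 := ws (W κ) sB (fun l => (hd l : ℝ))
  have hd0 := den_pos'
  have hV : V κ = (wi (W κ) va + κ * wi (W κ) vb) / 10 ^ 24 := by
    unfold V
    simp only [W, ns, va, vb, List.map_cons, List.map_nil, wi]
    push_cast
    rw [show -κ * 1 = -κ by ring, show -κ * 3 = -(3 * κ) by ring, show -κ * 4 = -(4 * κ) by ring,
      show -κ * 7 = -(7 * κ) by ring, show -κ * 9 = -(9 * κ) by ring,
      show -κ * 12 = -(12 * κ) by ring, show -κ * 13 = -(13 * κ) by ring,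
      show -κ * 16 = -(16 * κ) by ring]
    ring
  rw [hV]
  push_cast at h1 h2
  have h3 : (wi (W κ) va + κ * wi (W κ) vb) * (den : ℝ) ≤
      10 ^ 24 * ((A1 - A2) + κ * (B1 - B2)) := by
    nlinarith [mul_le_mul_of_nonneg_left h2 hκ]
  rw [div_le_iff₀ (by positivity)]
  have h4 : ((den : ℝ)⁻¹ * (A1 + κ * B1) - (den : ℝ)⁻¹ * (A2 + κ * B2)) * 10 ^ 24 =
      (10 ^ 24 * ((A1 - A2) + κ * (B1 - B2))) / den := by
    field_simp
    ring
  rw [h4, le_div_iff₀ hd0]
  exact h3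

end D8

theorem main_lower (κ : ℝ) (hκ : 0 ≤ κ) : V κ ≤ LP (Real.pi * (1 + 2 * κ * 1924 / 13959)) := by
  have hα : 0 < Real.pi * (1 + 2 * κ * 1924 / 13959) := by have := Real.pi_pos; positivity
  exact (D8.V_le_val hκ).trans (le_LP hα (D8.f_feas hκ))

end Pool.Agent.J4.H93.NS
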