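import Pool.Agent.J4.H93.NS.Defs

/-!
# The explicit lower bound given by the certificates
-/

set_option autoImplicit false

namespace Pool.Agent.J4.H93.NS

/-- lower bound of LP given by the certificates -/
noncomputable def V (κ : ℝ) : ℝ :=
  (Real.exp (-κ) * (159479600850945837448193 + κ * 1051482238529370) +
   Real.exp (-(3 * κ)) * (112671199057027325494 + κ * 1158874127564) +
   Real.exp (-(4 * κ)) * (2994792579047398450 - κ * 28787553029) +
   Real.exp (-(7 * κ)) * (112475541379852 - κ * 53673307) +
   Real.exp (-(9 * κ)) * (39728940796 - κ * 1191877) +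
   Real.exp (-(12 * κ)) * (741101 - κ * 10392) +
   Real.exp (-(13 * κ)) * (35104 - κ * 1171) +
   Real.exp (-(16 * κ)) * (-1 - κ)) / 10 ^ 24

end Pool.Agent.J4.H93.NS
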