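import Pool.Agent.J4.H93.NS.Defs

/-! Project NS, piece POS (helper71): soundness of the positivity check. -/

set_option autoImplicit false

open Polynomial

namespace Pool.Agent.J4.H93.NS

namespace PosAux

theorem ev_cons (a : ℤ) (p : List ℤ) (v : ℝ) : (toP (a :: p)).eval v = a + v * (toP p).eval v := by
  simp [toP]

theorem ev_nil (v : ℝ) : (toP []).eval v = 0 := by
  simp [toP]

theorem ev_addL (p q : List ℤ) (v : ℝ) : (toP (addL p q)).eval v = (toP p).eval v + (toP q).eval v := by
  induction p generalizing q with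
  | nil => simp [addL, ev_nil]
  | cons a p ih =>
    cases q with
    | nil => simp [addL, ev_nil]
    | cons b q =>
      simp only [addL, ev_cons, ih]
      push_cast
      ring

theorem ev_smulL (c : ℤ) (p : List ℤ) (v : ℝ) : (toP (smulL c p)).eval v = c * (toP p).eval v := by
  induction p with
  | nil => simp [smulL, ev_nil]
  | cons a p ih =>
    simp only [smulL, ev_cons, ih]
    push_cast
    ring

theorem ev_mulLin (r prev : ℤ) (p : List ℤ) (v : ℝ) :
    (toP (mulLin r prev p)).eval v = prev + (v - r) * (toP p).eval v := by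
  induction p generalizing prev with
  | nil => simp [mulLin, ev_cons, ev_nil]
  | cons a p ih =>
    simp only [mulLin, ev_cons, ih]
    push_cast
    ring

theorem ev_scaleV (b c : ℤ) (p : List ℤ) (v : ℝ) :
    (toP (scaleV b c p)).eval v = c * (toP p).eval (b * v) := by
  induction p generalizing c with
  | nil => simp [scaleV, ev_nil]
  | cons a p ih =>
    simp only [scaleV, ev_cons, ih]
    push_cast
    ring

theorem ev_shift1 (p : List ℤ) (v : ℝ) : (toP (shift1 p)).eval v = (toP p).eval (v + 1) := by
  induction p with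
  | nil => simp [shift1, ev_nil]
  | cons a p ih =>
    simp only [shift1, ev_addL, ev_mulLin, ev_cons, ev_nil, ih]
    push_cast
    ring

theorem ev_brow (n : ℕ) (v : ℝ) : (toP (brow n)).eval v = (1 + v) ^ n := by
  induction n with
  | zero => simp [brow, ev_cons, ev_nil]
  | succ n ih =>
    simp only [brow, ev_mulLin, ih]
    push_cast
    ring

theorem ev_bern (p : List ℤ) (s : ℝ) (hs : 0 ≤ s) :
    (1 + s) * (toP (bern p)).eval s = (1 + s) ^ p.length * (toP p).eval (s / (1 + s)) := by
  have h1 : (1 + s) ≠ 0 := by positivity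
  induction p with
  | nil => simp [bern, ev_nil]
  | cons a p ih =>
    simp only [bern, ev_addL, ev_smulL, ev_brow, ev_cons, List.length_cons]
    have e : (1 + s) * ((a : ℝ) * (1 + s) ^ p.length + (((0 : ℤ) : ℝ) + s * (toP (bern p)).eval s)) =
        (a : ℝ) * (1 + s) ^ (p.length + 1) + s * ((1 + s) * (toP (bern p)).eval s) := by
      push_cast
      ring
    rw [e, ih]
    have e2 : (1 + s) ^ (p.length + 1) * ((a : ℝ) + s / (1 + s) * (toP p).eval (s / (1 + s))) =
        (a : ℝ) * (1 + s) ^ (p.length + 1) + s * ((1 + s) ^ p.length * (toP p).eval (s / (1 + s))) := by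
      rw [pow_succ]
      field_simp
    rw [e2]

theorem ev_nn (p : List ℤ) (h : nn p = true) (v : ℝ) (hv : 0 ≤ v) : 0 ≤ (toP p).eval v := by
  induction p with
  | nil => simp [ev_nil]
  | cons a p ih =>
    simp only [nn, Bool.and_eq_true, decide_eq_true_eq] at h
    rw [ev_cons]
    have h1 : (0 : ℝ) ≤ a := by exact_mod_cast h.1
    have h2 := ih h.2
    positivity

end PosAux

open PosAux in
theorem posCheck_sound (b : ℤ) (hb : 0 < b) (p : List ℤ) (h : posCheck b p = true) (y : ℝ)
    (hy : 0 ≤ y) : 0 ≤ (toP p).eval y := by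
  have hb' : (0 : ℝ) < b := by exact_mod_cast hb
  simp only [posCheck, Bool.and_eq_true] at h
  obtain ⟨v, hv⟩ : ∃ v : ℝ, v = y / b := ⟨_, rfl⟩
  have hv0 : 0 ≤ v := by rw [hv]; positivity
  have hyv : (b : ℝ) * v = y := by rw [hv]; field_simp
  have key : (toP (scaleV b 1 p)).eval v = (toP p).eval y := by
    rw [ev_scaleV, hyv]
    simp
  rw [← key]
  rcases le_or_gt 1 v with h1 | h1
  · have := ev_nn _ h.2 (v - 1) (by linarith)
    rw [ev_shift1] at this
    simpa using this
  · have hd : 0 < 1 - v := by linarith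
    have hs : 0 ≤ v / (1 - v) := by positivity
    have h2 := ev_nn _ h.1 (v / (1 - v)) hs
    have h3 := ev_bern (scaleV b 1 p) (v / (1 - v)) hs
    have e1 : 1 + v / (1 - v) = 1 / (1 - v) := by field_simp; ring
    have e2 : v / (1 - v) / (1 + v / (1 - v)) = v := by
      rw [e1]
      field_simp
    rw [e2, e1] at h3
    have h4 : 0 ≤ 1 / (1 - v) * (toP (bern (scaleV b 1 p))).eval (v / (1 - v)) := by positivity
    rw [h3] at h4
    have h5 : 0 < (1 / (1 - v)) ^ (scaleV b 1 p).length := by positivity
    exact (mul_nonneg_iff_of_pos_left h5).1 h4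

end Pool.Agent.J4.H93.NS
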