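import Pool.Agent.J4.H93.NS.Defs

/-!
# Project NS, piece SYN: the list operations on polynomials
-/

set_option autoImplicit false

open Polynomial Pool.Agent.TH478.CE

namespace Pool.Agent.J4.H93.NS

theorem toP_addL (p q : List ℤ) : toP (addL p q) = toP p + toP q := by
  induction p generalizing q with
  | nil => simp [addL, toP]
  | cons a p ih =>
    cases q with
    | nil => simp [addL, toP]
    | cons b q =>
      simp only [addL, toP, ih, Int.cast_add, C_add]
      ring

theorem toP_smulL (c : ℤ) (p : List ℤ) : toP (smulL c p) = C (c : ℝ) * toP p := by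
  induction p with
  | nil => simp [smulL, toP]
  | cons a p ih =>
    simp only [smulL, toP, ih, Int.cast_mul, C_mul]
    ring

theorem Syn.toP_mulLin_aux (r prev : ℤ) (p : List ℤ) :
    toP (mulLin r prev p) = C (prev : ℝ) + (X - C (r : ℝ)) * toP p := by
  induction p generalizing prev with
  | nil => simp [mulLin, toP]
  | cons a p ih =>
    simp only [mulLin, toP, ih, Int.cast_sub, Int.cast_mul, C_sub, C_mul]
    ring

theorem toP_mulLin (r : ℤ) (p : List ℤ) : toP (mulLin r 0 p) = (X - C (r : ℝ)) * toP p := by
  rw [Syn.toP_mulLin_aux]; simp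

theorem toP_mulNodes (z p : List ℤ) : toP (mulNodes z p) = nodeP z * toP p := by
  induction z generalizing p with
  | nil => simp [mulNodes, nodeP]
  | cons r z ih =>
    simp only [mulNodes, nodeP, ih, toP_mulLin]
    ring

theorem synth_spec (r : ℤ) (p : List ℤ) :
    toP p = (X - C (r : ℝ)) * toP (synth r p).1 + C ((synth r p).2 : ℝ) := by
  induction p with
  | nil => simp [synth, toP]
  | cons a p ih =>
    simp only [synth, toP, Int.cast_add, Int.cast_mul, C_add, C_mul]
    rw [ih]
    ring

theorem quot_spec (z p : List ℤ) :
    ∃ N : Polynomial ℝ, N.degree < (z.length : ℕ) ∧ toP p = N + nodeP z * toP (quot z p) := by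
  induction z generalizing p with
  | nil => exact ⟨0, by simp, by simp [quot, nodeP]⟩
  | cons r z ih =>
    obtain ⟨N, hN, h⟩ := ih (synth r p).1
    refine ⟨(X - C (r : ℝ)) * N + C ((synth r p).2 : ℝ), ?_, ?_⟩
    · refine lt_of_le_of_lt (degree_add_le _ _) (max_lt ?_ ?_)
      · rw [degree_mul, degree_X_sub_C, List.length_cons]
        by_cases h0 : N = 0
        · subst h0
          rw [degree_zero, WithBot.add_bot]
          exact WithBot.bot_lt_coe _
        · rw [degree_eq_natDegree h0] at hN ⊢
          have h1 : N.natDegree < z.length := by exact_mod_cast hN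
          have h2 : 1 + N.natDegree < z.length + 1 := by omega
          exact_mod_cast h2
      · refine lt_of_le_of_lt degree_C_le ?_
        rw [List.length_cons]
        exact_mod_cast Nat.succ_pos z.length
    · rw [synth_spec r p, h]
      simp only [quot, nodeP]
      ring

theorem synth_eval (r : ℤ) (p : List ℤ) : (toP p).eval (r : ℝ) = ((synth r p).2 : ℝ) := by
  rw [synth_spec r p]; simp

theorem synth_deriv (r : ℤ) (p : List ℤ) :
    (derivative (toP p)).eval (r : ℝ) = ((synth r (synth r p).1).2 : ℝ) := by
  have h : derivative (toP p) = toP (synth r p).1 + (X - C (r : ℝ)) * derivative (toP (synth r p).1) := by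
    conv_lhs => rw [synth_spec r p]
    simp [derivative_mul]
  rw [h]
  simp [synth_eval]

end Pool.Agent.J4.H93.NS
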