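import Pool.Agent.J4.H93.NS.TrfAux
import Pool.Agent.J4.H93.NS.Lag

/-!
# Project NS, piece TRF: the list recursion computes the Fourier transform
-/

set_option autoImplicit false

open Polynomial Pool.Agent.TH478.CE

namespace Pool.Agent.J4.H93.NS

/- PIECE TRF -/
theorem transform (q : ℤ) (hq : 0 < q) (p : List ℤ) :
    IsRS (gf q p) ∧ ∀ y : P, rft (gf q p) y = gf q (Tr q 0 [1] p) y :=
  Trf.transform_of lag q hq p

end Pool.Agent.J4.H93.NS
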