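import Pool.Agent.J4.H93.NS.Chk
import Pool.Agent.J4.H93.NS.Pos
import Pool.Agent.J4.H93.NS.Syn
import Pool.Agent.J4.H93.NS.Trf
import Pool.Agent.TH478.CE.Func

/-!
# Near-sharpness of the LP bound: weighted sums over lists, soundness of the checks
-/

set_option autoImplicit false

open Polynomial Pool.Agent.TH478.CE

namespace Pool.Agent.J4.H93.NS

/-- weighted sum `∑ W_i f(L_i)` -/
noncomputable def ws : List ℝ → List (List ℤ) → (List ℤ → ℝ) → ℝ
  | w :: W, l :: L, f => w * f l + ws W L f
  | [], _, _ => 0
  | _ :: _, [], _ => 0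

@[simp] theorem ws_cons (w : ℝ) (W : List ℝ) (l : List ℤ) (L : List (List ℤ)) (f : List ℤ → ℝ) :
    ws (w :: W) (l :: L) f = w * f l + ws W L f := rfl

@[simp] theorem ws_nil (L : List (List ℤ)) (f : List ℤ → ℝ) : ws [] L f = 0 := by
  cases L <;> rfl

@[simp] theorem ws_nil' (W : List ℝ) (f : List ℤ → ℝ) : ws W [] f = 0 := by
  cases W <;> rfl

theorem ws_map (W : List ℝ) (L : List (List ℤ)) (g : List ℤ → List ℤ) (f : List ℤ → ℝ) :
    ws W (L.map g) f = ws W L (fun l => f (g l)) := by
  induction W generalizing L with
  | nil => simp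
  | cons w W ih =>
    cases L with
    | nil => simp
    | cons l L => simp [ih]

theorem ws_mul (c : ℝ) (W : List ℝ) (L : List (List ℤ)) (f : List ℤ → ℝ) :
    ws W L (fun l => c * f l) = c * ws W L f := by
  induction W generalizing L with
  | nil => simp
  | cons w W ih =>
    cases L with
    | nil => simp
    | cons l L => simp only [ws_cons, ih]; ring

theorem ws_mul' (c : ℝ) (W : List ℝ) (L : List (List ℤ)) (f : List ℤ → ℝ) :
    ws W L (fun l => f l * c) = ws W L f * c := by
  simp_rw [mul_comm _ c]
  exact ws_mul c W L f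

theorem ws_add (W : List ℝ) (L : List (List ℤ)) (f g : List ℤ → ℝ) :
    ws W L (fun l => f l + g l) = ws W L f + ws W L g := by
  induction W generalizing L with
  | nil => simp
  | cons w W ih =>
    cases L with
    | nil => simp
    | cons l L => simp only [ws_cons, ih]; ring

theorem ws_congr (W : List ℝ) (L : List (List ℤ)) (f g : List ℤ → ℝ) (h : ∀ l ∈ L, f l = g l) :
    ws W L f = ws W L g := by
  induction W generalizing L with
  | nil => simp
  | cons w W ih =>
    cases L with
    | nil => simp
    | cons l L =>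
      simp only [ws_cons, h l (by simp)]
      rw [ih L (fun l hl => h l (by simp [hl]))]

/-- weights decreasing and nonnegative -/
def Dec : List ℝ → Prop
  | [] => True
  | w :: W => 0 ≤ w ∧ W.headD 0 ≤ w ∧ Dec W

theorem psum_sound (b : ℤ) (hb : 0 < b) (y : ℝ) (hy : 0 ≤ y) (W : List ℝ) (L : List (List ℤ))
    (acc : List ℤ) (hW : Dec W) (h : psum b acc L = true) (hacc : 0 ≤ (toP acc).eval y)
    (hlen : W.length = L.length) :
    0 ≤ ws W L (fun l => (toP l).eval y) + W.headD 0 * (toP acc).eval y := by
  induction W generalizing L acc with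
  | nil => simp
  | cons w W ih =>
    cases L with
    | nil => simp at hlen
    | cons l L =>
      obtain ⟨h1, h2, h3⟩ := hW
      rw [psum, Bool.and_eq_true] at h
      have hp := posCheck_sound b hb _ h.1 y hy
      have := ih L (addL acc l) h3 h.2 hp (by simpa using hlen)
      rw [toP_addL, eval_add] at this hp
      simp only [ws_cons, List.headD_cons]
      nlinarith [mul_le_mul_of_nonneg_right h2 hp]

theorem psum_nonneg (b : ℤ) (hb : 0 < b) (y : ℝ) (hy : 0 ≤ y) (W : List ℝ) (L : List (List ℤ))
    (hW : Dec W) (h : psum b [] L = true) (hlen : W.length = L.length) :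
    0 ≤ ws W L (fun l => (toP l).eval y) := by
  have := psum_sound b hb y hy W L [] hW h (by simp [toP]) hlen
  simpa [toP] using this

theorem herm_get (p va vb : ℤ) (s : List ℤ) (i : ℕ) : ∀ (ns : List ℤ) (m : ℕ),
    herm p va vb s i m ns = true → ∀ (l : ℕ) (n : ℤ), ns[l]? = some n →
      (synth (p * n) s).2 = (if m + l = i then va else 0) ∧
      p * (synth (p * n) (synth (p * n) s).1).2 = (if m + l = i then vb else 0)
  | [], m => by intro _ l n hl; simp at hl
  | n :: ns, m => by
    intro h l n' hl
    rw [herm, Bool.and_eq_true, Bool.and_eq_true, decide_eq_true_eq, decide_eq_true_eq] at h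
    cases l with
    | zero =>
      simp only [List.getElem?_cons_zero, Option.some.injEq] at hl
      subst hl
      simpa using h.1
    | succ l =>
      simp only [List.getElem?_cons_succ] at hl
      have := herm_get p va vb s i ns (m + 1) h.2 l n' hl
      rwa [show m + 1 + l = m + (l + 1) by ring] at this

theorem hermAll_sound (p va vb : ℤ) (ns : List ℤ) (l : ℕ) (n : ℤ) (hn : ns[l]? = some n) :
    ∀ (L : List (List ℤ)) (W : List ℝ) (i : ℕ), hermAll p va vb ns i L = true →
      W.length = L.length →
      ws W L (fun s => ((synth (p * n) s).2 : ℝ)) = (if i ≤ l then W.getD (l - i) 0 else 0) * va ∧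
      ws W L (fun s => ((p * (synth (p * n) (synth (p * n) s).1).2 : ℤ) : ℝ)) =
        (if i ≤ l then W.getD (l - i) 0 else 0) * vb
  | [], W, i => by
    intro _ hl
    have : W = [] := by simpa using hl
    subst this
    simp
  | s :: L, [], i => by intro _ hl; simp at hl
  | s :: L, w :: W, i => by
    intro h hl
    rw [hermAll, Bool.and_eq_true] at h
    obtain ⟨h1, h2⟩ := herm_get p va vb s i ns 0 h.1 l n hn
    obtain ⟨h3, h4⟩ := hermAll_sound p va vb ns l n hn L W (i + 1) h.2 (by simpa using hl)
    rw [zero_add] at h1 h2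
    simp only [ws_cons]
    rw [h3, h4, h1, h2]
    rcases lt_trichotomy l i with hlt | heq | hgt
    · simp only [if_neg (show ¬ l = i by omega), if_neg (show ¬ i + 1 ≤ l by omega),
        if_neg (show ¬ i ≤ l by omega)]
      simp
    · subst heq
      simp
    · simp only [if_neg (show ¬ l = i by omega), if_pos (show i + 1 ≤ l by omega),
        if_pos (show i ≤ l by omega)]
      have : l - i = (l - (i + 1)) + 1 := by omega
      rw [this, List.getD_cons_succ]
      simp

/-- sums of test functions -/
theorem ws_rs (q : ℤ) (hq : 0 < q) (W : List ℝ) (L : List (List ℤ)) :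
    IsRS (fun x => ws W L (fun l => gf q l x)) ∧
      ∀ y, rft (fun x => ws W L (fun l => gf q l x)) y =
        ws W L (fun l => gf q (Tr q 0 [1] l) y) := by
  induction W generalizing L with
  | nil =>
    refine ⟨by simpa using zero_rs, fun y => ?_⟩
    simp only [ws_nil]
    exact rft_zero_fun y
  | cons w W ih =>
    cases L with
    | nil =>
      refine ⟨by simpa using zero_rs, fun y => ?_⟩
      simp only [ws_nil']
      exact rft_zero_fun y
    | cons l L =>
      obtain ⟨h1, h2⟩ := transform q hq l
      obtain ⟨h3, h4⟩ := ih L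
      refine ⟨?_, fun y => ?_⟩
      · simp only [ws_cons]
        exact (h1.const_mul w).add h3
      · simp only [ws_cons]
        rw [rft_add (h1.const_mul w) h3, rft_const_mul, h2, h4]

theorem toP_hd (l : List ℤ) : (toP l).eval 0 = (hd l : ℝ) := by
  cases l with
  | nil => simp [toP, hd]
  | cons a l => simp [toP, hd]

/-- weighted sum of a list of integers -/
noncomputable def wi : List ℝ → List ℤ → ℝ
  | w :: W, c :: cs => w * (c : ℝ) + wi W cs
  | [], _ => 0
  | _ :: _, [] => 0

theorem valCheck_sound (K den : ℤ) : ∀ (W : List ℝ) (cs : List ℤ) (h s : List (List ℤ)),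
    (∀ w ∈ W, 0 ≤ w) → valCheck K den cs h s = true →
      wi W cs * (den : ℝ) ≤ (K : ℝ) * (ws W h (fun l => (hd l : ℝ)) - ws W s (fun l => (hd l : ℝ)))
  | [], cs, h, s => by intro _ _; simp [wi]
  | w :: W, [], [], [] => by intro _ _; simp [wi]
  | w :: W, [], [], _ :: _ => by intro _ hh; simp [valCheck] at hh
  | w :: W, [], _ :: _, _ => by intro _ hh; simp [valCheck] at hh
  | w :: W, _ :: _, [], _ => by intro _ hh; simp [valCheck] at hh
  | w :: W, _ :: _, _ :: _, [] => by intro _ hh; simp [valCheck] at hh
  | w :: W, c :: cs, h :: hs, s :: ss => by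
    intro hW hh
    rw [valCheck, Bool.and_eq_true, decide_eq_true_eq] at hh
    have h1 : ((c * den : ℤ) : ℝ) ≤ ((K * (hd h - hd s) : ℤ) : ℝ) := by exact_mod_cast hh.1
    have h2 := valCheck_sound K den W cs hs ss (fun w hw => hW w (by simp [hw])) hh.2
    have h3 : 0 ≤ w := hW w (by simp)
    simp only [ws_cons, wi]
    push_cast at h1
    nlinarith [mul_le_mul_of_nonneg_left h1 h3]

/-- the nodes are double: the product is nonnegative and has double zeros -/
theorem node_nonneg (p : ℤ) (ns : List ℤ) (y : ℝ) : 0 ≤ (nodeP (znodes p ns)).eval y := by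
  induction ns with
  | nil => simp [znodes, nodeP]
  | cons n ns ih =>
    simp only [znodes, nodeP, eval_mul, eval_sub, eval_X, eval_C]
    rw [← mul_assoc]
    exact mul_nonneg (mul_self_nonneg _) ih

theorem node_dvd (p : ℤ) (ns : List ℤ) (n : ℤ) (hn : n ∈ ns) :
    ∃ Q : Polynomial ℝ, nodeP (znodes p ns) = (X - C ((p * n : ℤ) : ℝ)) ^ 2 * Q := by
  induction ns with
  | nil => simp at hn
  | cons m ns ih =>
    rcases List.mem_cons.1 hn with h | h
    · subst h
      exact ⟨nodeP (znodes p ns), by simp only [znodes, nodeP]; ring⟩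
    · obtain ⟨Q, hQ⟩ := ih h
      refine ⟨(X - C ((p * m : ℤ) : ℝ)) ^ 2 * Q, ?_⟩
      simp only [znodes, nodeP]
      rw [hQ]
      ring

theorem znodes_length (p : ℤ) (ns : List ℤ) : (znodes p ns).length = 2 * ns.length := by
  induction ns with
  | nil => rfl
  | cons n ns ih => simp only [znodes, List.length_cons, ih]; ring

/-- weighted sum of polynomials -/
noncomputable def wp : List ℝ → List (List ℤ) → (List ℤ → Polynomial ℝ) → Polynomial ℝ
  | w :: W, l :: L, f => C w * f l + wp W L f
  | [], _, _ => 0
  | _ :: _, [], _ => 0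

theorem wp_eval (y : ℝ) (W : List ℝ) (L : List (List ℤ)) (f : List ℤ → Polynomial ℝ) :
    (wp W L f).eval y = ws W L (fun l => (f l).eval y) := by
  induction W generalizing L with
  | nil => cases L <;> simp [wp]
  | cons w W ih =>
    cases L with
    | nil => simp [wp]
    | cons l L => simp [wp, ih]

theorem wp_deriv (y : ℝ) (W : List ℝ) (L : List (List ℤ)) (f : List ℤ → Polynomial ℝ) :
    (derivative (wp W L f)).eval y = ws W L (fun l => (derivative (f l)).eval y) := by
  induction W generalizing L with
  | nil => cases L <;> simp [wp]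
  | cons w W ih =>
    cases L with
    | nil => simp [wp]
    | cons l L => simp [wp, ih]

theorem wp_degree (d : WithBot ℕ) (hd : ⊥ < d) (W : List ℝ) (L : List (List ℤ))
    (f : List ℤ → Polynomial ℝ) (h : ∀ l ∈ L, (f l).degree < d) : (wp W L f).degree < d := by
  induction W generalizing L with
  | nil => cases L <;> simpa [wp] using hd
  | cons w W ih =>
    cases L with
    | nil => simpa [wp] using hd
    | cons l L =>
      simp only [wp]
      refine lt_of_le_of_lt (degree_add_le _ _) (max_lt ?_ (ih L (fun l hl => h l (by simp [hl]))))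
      refine lt_of_le_of_lt ?_ (h l (by simp))
      calc (C w * f l).degree ≤ (C w).degree + (f l).degree := degree_mul_le _ _
        _ ≤ 0 + (f l).degree := by gcongr; exact degree_C_le
        _ = (f l).degree := zero_add _

end Pool.Agent.J4.H93.NS
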