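import Pool.Agent.J4.H93.NS.Rows8
import Pool.Agent.J4.H93.NS.Ws
import Pool.Agent.J4.H93.NS.Herm
import Pool.Agent.J4.H93.NS.LogX
import Pool.Agent.J4.H93.NS.VDef

/-!
# Near-sharpness of the LP bound: the lower bound `V κ ≤ LP`
-/

set_option autoImplicit false

open Polynomial Pool.Agent.TH478.CE

namespace Pool.Agent.J4.H93.NS.D8

/-- the weights `exp(-κ n)` -/
noncomputable def W (κ : ℝ) : List ℝ := ns.map (fun n : ℤ => Real.exp (-κ * (n : ℝ)))

theorem W_len (κ : ℝ) : (W κ).length = 8 := by simp [W, ns]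

theorem W_nonneg (κ : ℝ) : ∀ w ∈ W κ, 0 ≤ w := by
  intro w hw
  obtain ⟨n, _, rfl⟩ := List.mem_map.1 hw
  positivity

theorem W_dec {κ : ℝ} (hκ : 0 ≤ κ) : Dec (W κ) := by
  simp only [W, ns, List.map_cons, List.map_nil, Dec, List.headD_cons, List.headD_nil]
  refine ⟨by positivity, ?_, by positivity, ?_, by positivity, ?_, by positivity, ?_, by positivity, ?_,
    by positivity, ?_, by positivity, ?_, by positivity, by positivity, trivial⟩ <;>
  · apply Real.exp_le_exp.2
    push_cast
    nlinarith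

theorem W_get (κ : ℝ) (l : ℕ) (n : ℤ) (h : ns[l]? = some n) :
    (W κ).getD l 0 = Real.exp (-κ * (n : ℝ)) := by
  simp [W, List.getD, h]

theorem p_pos : (0 : ℤ) < p := by decide

theorem q_pos : (0 : ℤ) < q := by decide

theorem ra_len : ra.length = 8 := rfl

theorem rb_len : rb.length = 8 := rfl

/-- Newton part -/
noncomputable def Nf (s : List ℤ) : Polynomial ℝ := (quot_spec (znodes p ns) s).choose

theorem Nf_deg (s : List ℤ) : (Nf s).degree < ((znodes p ns).length : ℕ) :=
  (quot_spec (znodes p ns) s).choose_spec.1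

theorem Nf_eq (s : List ℤ) :
    toP s = Nf s + nodeP (znodes p ns) * toP (quot (znodes p ns) s) :=
  (quot_spec (znodes p ns) s).choose_spec.2

theorem Nf_eval (s : List ℤ) (n : ℤ) (hn : n ∈ ns) :
    (Nf s).eval ((p * n : ℤ) : ℝ) = ((synth (p * n) s).2 : ℝ) ∧
    (derivative (Nf s)).eval ((p * n : ℤ) : ℝ) =
      ((synth (p * n) (synth (p * n) s).1).2 : ℝ) := by
  obtain ⟨Q, hQ⟩ := node_dvd p ns n hn
  have h1 : Nf s = toP s - nodeP (znodes p ns) * toP (quot (znodes p ns) s) := by
    rw [Nf_eq s]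
    have := Nf_eq s
    rw [← this]
    linear_combination -this
  rw [h1, hQ]
  constructor
  · rw [← synth_eval]
    simp
  · rw [← synth_deriv]
    simp [derivative_mul, derivative_pow]

/-- the weighted sum of the type `A` and `B` parts -/
noncomputable def tot (κ : ℝ) (f : List ℤ → ℝ) (LA LB : List (List ℤ)) : ℝ :=
  ((den : ℝ)⁻¹) * (ws (W κ) LA f + κ * ws (W κ) LB f)

/-- the Hermite interpolation polynomial -/
noncomputable def H (κ : ℝ) : Polynomial ℝ :=
  C ((den : ℝ)⁻¹) * (wp (W κ) sA Nf + C κ * wp (W κ) sB Nf)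

theorem den_ne : (den : ℝ) ≠ 0 := by
  have := den_pos
  exact_mod_cast this.ne'

theorem H_eval (κ y : ℝ) : (H κ).eval y = tot κ (fun s => (Nf s).eval y) sA sB := by
  simp only [H, tot, eval_mul, eval_add, eval_C, wp_eval]

theorem H_deriv (κ y : ℝ) :
    (derivative (H κ)).eval y = tot κ (fun s => (derivative (Nf s)).eval y) sA sB := by
  simp only [H, tot, derivative_mul, derivative_C, zero_mul, zero_add, derivative_add, eval_mul,
    eval_add, eval_C, wp_deriv]

theorem H_deg (κ : ℝ) : (H κ).degree < ((2 * 8 : ℕ) : WithBot ℕ) := by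
  have hz : (znodes p ns).length = 2 * 8 := by rw [znodes_length]; rfl
  have h : ∀ L : List (List ℤ), (wp (W κ) L Nf).degree < ((2 * 8 : ℕ) : WithBot ℕ) := by
    intro L
    apply wp_degree _ (by exact WithBot.bot_lt_coe _)
    intro l _
    have := Nf_deg l
    rwa [hz] at this
  have hC : ∀ (c : ℝ) (Q : Polynomial ℝ), Q.degree < ((2 * 8 : ℕ) : WithBot ℕ) →
      (C c * Q).degree < ((2 * 8 : ℕ) : WithBot ℕ) := by
    intro c Q hQ
    refine lt_of_le_of_lt ?_ hQ
    calc (C c * Q).degree ≤ (C c).degree + Q.degree := degree_mul_le _ _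
      _ ≤ 0 + Q.degree := by gcongr; exact degree_C_le
      _ = Q.degree := zero_add _
  apply hC
  exact lt_of_le_of_lt (degree_add_le _ _) (max_lt (h _) (hC _ _ (h _)))

theorem mem_get {n : ℤ} (hn : n ∈ ns) : ∃ l : ℕ, ns[l]? = some n := List.mem_iff_getElem?.1 hn

theorem H_node (κ : ℝ) (n : ℤ) (hn : n ∈ ns) :
    (H κ).eval ((p * n : ℤ) : ℝ) = Real.exp (-κ * (n : ℝ)) ∧
    (derivative (H κ)).eval ((p * n : ℤ) : ℝ) = -(κ / p) * Real.exp (-κ * (n : ℝ)) := by
  obtain ⟨l, hl⟩ := mem_get hn
  have hlenA : (W κ).length = sA.length := by rw [W_len]; simp [sA, ra_len]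
  have hlenB : (W κ).length = sB.length := by rw [W_len]; simp [sB, rb_len]
  obtain ⟨a1, a2⟩ := hermAll_sound p den 0 ns l n hl sA (W κ) 0 chk_hA hlenA
  obtain ⟨b1, b2⟩ := hermAll_sound p 0 (-den) ns l n hl sB (W κ) 0 chk_hB hlenB
  rw [if_pos (Nat.zero_le _), Nat.sub_zero, W_get κ l n hl] at a1 a2 b1 b2
  have hp : (p : ℝ) ≠ 0 := by have := p_pos; exact_mod_cast this.ne'
  have hd := den_ne
  constructor
  · rw [H_eval]
    unfold tot
    rw [ws_congr (W κ) sA _ _ (fun s _ => (Nf_eval s n hn).1),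
      ws_congr (W κ) sB _ _ (fun s _ => (Nf_eval s n hn).1), a1, b1]
    push_cast
    field_simp
    ring
  · rw [H_deriv]
    unfold tot
    rw [ws_congr (W κ) sA _ _ (fun s _ => (Nf_eval s n hn).2),
      ws_congr (W κ) sB _ _ (fun s _ => (Nf_eval s n hn).2)]
    have a3 : (p : ℝ) * ws (W κ) sA (fun s => ((synth (p * n) (synth (p * n) s).1).2 : ℝ)) = 0 := by
      rw [← ws_mul]
      have : ws (W κ) sA (fun s => (p : ℝ) * ((synth (p * n) (synth (p * n) s).1).2 : ℝ)) =
          ws (W κ) sA (fun s => ((p * (synth (p * n) (synth (p * n) s).1).2 : ℤ) : ℝ)) := by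
        apply ws_congr
        intro s _
        push_cast
        ring
      rw [this, a2]
      simp
    have b3 : (p : ℝ) * ws (W κ) sB (fun s => ((synth (p * n) (synth (p * n) s).1).2 : ℝ)) =
        -(Real.exp (-κ * (n : ℝ)) * den) := by
      rw [← ws_mul]
      have : ws (W κ) sB (fun s => (p : ℝ) * ((synth (p * n) (synth (p * n) s).1).2 : ℝ)) =
          ws (W κ) sB (fun s => ((p * (synth (p * n) (synth (p * n) s).1).2 : ℤ) : ℝ)) := by
        apply ws_congr
        intro s _
        push_cast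
        ring
      rw [this, b2]
      push_cast
      ring
    have a4 : ws (W κ) sA (fun s => ((synth (p * n) (synth (p * n) s).1).2 : ℝ)) = 0 := by
      rcases mul_eq_zero.1 a3 with h | h
      · exact absurd h hp
      · exact h
    have b4 : ws (W κ) sB (fun s => ((synth (p * n) (synth (p * n) s).1).2 : ℝ)) =
        -(Real.exp (-κ * (n : ℝ)) * den) / p := by
      rw [← b3]
      field_simp
    rw [a4, b4]
    field_simp
    ring

theorem H_le {κ : ℝ} (hκ : 0 ≤ κ) (y : ℝ) : (H κ).eval y ≤ Real.exp (-(κ / p) * y) := by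
  have hp : (0 : ℝ) < p := by have := p_pos; exact_mod_cast this
  have hexp : ∀ n : ℤ, Real.exp (-(κ / p) * ((p * n : ℤ) : ℝ)) = Real.exp (-κ * (n : ℝ)) := by
    intro n
    congr 1
    push_cast
    field_simp
  apply hermite_le (κ / p) (by positivity) (ns.map (fun n : ℤ => ((p * n : ℤ) : ℝ)))
  · apply List.Nodup.map
    · intro a b h
      have h1 : p * a = p * b := by
        have h' : ((p * a : ℤ) : ℝ) = ((p * b : ℤ) : ℝ) := h
        exact_mod_cast h'
      exact mul_left_cancel₀ p_pos.ne' h1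
    · decide
  · rw [List.length_map]
    exact H_deg κ
  · intro r hr
    obtain ⟨n, hn, rfl⟩ := List.mem_map.1 hr
    rw [(H_node κ n hn).1, hexp]
  · intro r hr
    obtain ⟨n, hn, rfl⟩ := List.mem_map.1 hr
    rw [(H_node κ n hn).2, hexp]

/-- soundness of the check of the rows -/
theorem rowsCheck_sound (b : ℤ) (hb : 0 < b) (Q : List (List ℤ)) (y : ℝ) (hy : 0 ≤ y) :
    ∀ rs : List (List ℤ), rowsCheck b Q rs = true → ∀ r ∈ rs, 0 ≤ (toP (lin r Q)).eval y
  | [], _ => by intro r hr; simp at hr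
  | r :: rs, h => by
    intro r' hr'
    rw [rowsCheck, Bool.and_eq_true] at h
    rcases List.mem_cons.1 hr' with h1 | h1
    · subst h1
      exact posCheck_sound b hb _ h.1 y hy
    · exact rowsCheck_sound b hb Q y hy rs h.2 r' h1

theorem lin_eval (y : ℝ) : ∀ (r : List ℤ) (Q : List (List ℤ)),
    (toP (lin r Q)).eval y = dl r (Q.map (fun l => (toP l).eval y))
  | [], Q => by cases Q <;> simp [lin, dl, toP]
  | c :: cs, [] => by simp [lin, dl, toP]
  | c :: cs, l :: ls => by
    simp only [lin, dl, List.map_cons]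
    rw [toP_addL, toP_smulL, eval_add, eval_mul, eval_C, lin_eval y cs ls]

theorem neg_eval (l : List ℤ) (y : ℝ) : (toP (negL l)).eval y = -(toP l).eval y := by
  rw [negL, toP_smulL, eval_mul, eval_C]
  push_cast
  ring

theorem remainder_nonpos {κ : ℝ} (hκ : 0 ≤ κ) {y : ℝ} (hy : 0 ≤ y) :
    ws (W κ) qA (fun l => (toP l).eval y) + κ * ws (W κ) qB (fun l => (toP l).eval y) ≤ 0 := by
  -- type B sum with the weights x^(n-1)
  set x : ℝ := Real.exp (-κ) with hx
  have hx0 : 0 < x := Real.exp_pos _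
  have hx1 : x ≤ 1 := by rw [hx]; exact Real.exp_le_one_iff.2 (by linarith)
  have hWx : W κ = [x ^ 1, x ^ 3, x ^ 4, x ^ 7, x ^ 9, x ^ 12, x ^ 13, x ^ 16] := by
    simp only [W, ns, List.map_cons, List.map_nil, hx, ← Real.exp_nat_mul]
    norm_num
    refine ⟨?_, ?_, ?_, ?_, ?_, ?_, ?_⟩ <;> ring_nf
  have hB : ws (W κ) qB (fun l => (toP l).eval y) ≤ 0 := by
    have h := psum_nonneg p p_pos y hy (W κ) (qB.map negL) (W_dec hκ) chk_qb
      (by rw [W_len]; simp [qB, sB, rb_len])
    rw [ws_map] at h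
    simp only [neg_eval] at h
    have h2 : ws (W κ) qB (fun l => -(toP l).eval y) = -ws (W κ) qB (fun l => (toP l).eval y) := by
      have := ws_mul (-1) (W κ) qB (fun l => (toP l).eval y)
      simpa using this
    rw [h2] at h
    linarith
  have hlog : ser x ≤ κ := by
    have h := log_series_le 6 x hx0 hx1
    rw [hx, Real.log_exp, neg_neg] at h
    rw [hx]
    refine le_trans (le_of_eq ?_) h
    simp only [Finset.sum_range_succ, Finset.sum_range_zero, ser]
    push_cast
    ring
  have hrows := rowsCheck_sound p p_pos (qA ++ qB) y hy rows chk_rows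
  simp only [lin_eval] at hrows
  have eA : qA = [quot (znodes p ns) (funL p q ns ra0), quot (znodes p ns) (funL p q ns ra1),
      quot (znodes p ns) (funL p q ns ra2), quot (znodes p ns) (funL p q ns ra3),
      quot (znodes p ns) (funL p q ns ra4), quot (znodes p ns) (funL p q ns ra5),
      quot (znodes p ns) (funL p q ns ra6), quot (znodes p ns) (funL p q ns ra7)] := by
    simp only [qA, sA, ra, List.map_cons, List.map_nil]
  have eB : qB = [quot (znodes p ns) (funL p q ns rb0), quot (znodes p ns) (funL p q ns rb1),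
      quot (znodes p ns) (funL p q ns rb2), quot (znodes p ns) (funL p q ns rb3),
      quot (znodes p ns) (funL p q ns rb4), quot (znodes p ns) (funL p q ns rb5),
      quot (znodes p ns) (funL p q ns rb6), quot (znodes p ns) (funL p q ns rb7)] := by
    simp only [qB, sB, rb, List.map_cons, List.map_nil]
  rw [hWx] at hB ⊢
  rw [eA, eB] at hrows
  rw [eB] at hB
  rw [eA, eB]
  simp only [List.cons_append, List.nil_append, List.map_cons, List.map_nil] at hrows
  simp only [ws_cons, ws_nil, add_zero] at hB ⊢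
  generalize (toP (quot (znodes p ns) (funL p q ns ra0))).eval y = a0 at *
  generalize (toP (quot (znodes p ns) (funL p q ns ra1))).eval y = a1 at *
  generalize (toP (quot (znodes p ns) (funL p q ns ra2))).eval y = a2 at *
  generalize (toP (quot (znodes p ns) (funL p q ns ra3))).eval y = a3 at *
  generalize (toP (quot (znodes p ns) (funL p q ns ra4))).eval y = a4 at *
  generalize (toP (quot (znodes p ns) (funL p q ns ra5))).eval y = a5 at *
  generalize (toP (quot (znodes p ns) (funL p q ns ra6))).eval y = a6 at *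
  generalize (toP (quot (znodes p ns) (funL p q ns ra7))).eval y = a7 at *
  generalize (toP (quot (znodes p ns) (funL p q ns rb0))).eval y = b0 at *
  generalize (toP (quot (znodes p ns) (funL p q ns rb1))).eval y = b1 at *
  generalize (toP (quot (znodes p ns) (funL p q ns rb2))).eval y = b2 at *
  generalize (toP (quot (znodes p ns) (funL p q ns rb3))).eval y = b3 at *
  generalize (toP (quot (znodes p ns) (funL p q ns rb4))).eval y = b4 at *
  generalize (toP (quot (znodes p ns) (funL p q ns rb5))).eval y = b5 at *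
  generalize (toP (quot (znodes p ns) (funL p q ns rb6))).eval y = b6 at *
  generalize (toP (quot (znodes p ns) (funL p q ns rb7))).eval y = b7 at *
  have key := rows_key x hx0.le hx1 a0 a1 a2 a3 a4 a5 a6 a7 b0 b1 b2 b3 b4 b5 b6 b7 hrows
  set SB : ℝ := x ^ 0 * b0 + x ^ 2 * b1 + x ^ 3 * b2 + x ^ 6 * b3 + x ^ 8 * b4 + x ^ 11 * b5 +
    x ^ 12 * b6 + x ^ 15 * b7 with hSB
  have hSB0 : SB ≤ 0 := by
    have : x * SB ≤ 0 := by
      refine le_trans (le_of_eq ?_) hB
      rw [hSB]
      ring
    by_contra hc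
    push Not at hc
    nlinarith [mul_pos hx0 hc]
  have h3 : (κ - ser x) * SB ≤ 0 := mul_nonpos_of_nonneg_of_nonpos (by linarith) hSB0
  have h4 : (x ^ 0 * a0 + x ^ 2 * a1 + x ^ 3 * a2 + x ^ 6 * a3 + x ^ 8 * a4 + x ^ 11 * a5 +
      x ^ 12 * a6 + x ^ 15 * a7) + κ * SB ≤ 0 := by
    nlinarith [key]
  have h5 := mul_nonpos_of_nonneg_of_nonpos hx0.le h4
  refine le_trans (le_of_eq ?_) h5
  rw [hSB]
  ring

end Pool.Agent.J4.H93.NS.D8
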