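import Pool.Agent.J4.H93.NS.K8

/-!
# Near-sharpness of the LP bound: the algebra of the rows (Bernstein form of the remainder)
-/

set_option autoImplicit false
set_option maxRecDepth 100000

namespace Pool.Agent.J4.H93.NS.D8

/-- value of a linear form -/
noncomputable def dl : List ℤ → List ℝ → ℝ
  | c :: cs, u :: us => (c : ℝ) * u + dl cs us
  | [], _ => 0
  | _ :: _, [] => 0

/-- first terms of the series of `-log x` -/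
noncomputable def ser (x : ℝ) : ℝ :=
  (1 - x) + (1 - x) ^ 2 / 2 + (1 - x) ^ 3 / 3 + (1 - x) ^ 4 / 4 + (1 - x) ^ 5 / 5 + (1 - x) ^ 6 / 6

theorem id0 (x : ℝ) : (-60) * (x ^ 0 * (1 - x) ^ 21) + (-1260) * (x ^ 1 * (1 - x) ^ 20) + (-12600) * (x ^ 2 * (1 - x) ^ 19) + (-79800) * (x ^ 3 * (1 - x) ^ 18) + (-359100) * (x ^ 4 * (1 - x) ^ 17) + (-1220940) * (x ^ 5 * (1 - x) ^ 16) + (-3255840) * (x ^ 6 * (1 - x) ^ 15) + (-6976800) * (x ^ 7 * (1 - x) ^ 14) + (-12209400) * (x ^ 8 * (1 - x) ^ 13) + (-17635800) * (x ^ 9 * (1 - x) ^ 12) + (-21162960) * (x ^ 10 * (1 - x) ^ 11) + (-21162960) * (x ^ 11 * (1 - x) ^ 10) + (-17635800) * (x ^ 12 * (1 - x) ^ 9) + (-12209400) * (x ^ 13 * (1 - x) ^ 8) + (-6976800) * (x ^ 14 * (1 - x) ^ 7) + (-3255840) * (x ^ 15 * (1 - x) ^ 6) + (-1220940) * (x ^ 16 * (1 - x) ^ 5) + (-359100) * (x ^ 17 * (1 - x) ^ 4) +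 (-79800) * (x ^ 18 * (1 - x) ^ 3) + (-12600) * (x ^ 19 * (1 - x) ^ 2) + (-1260) * (x ^ 20 * (1 - x) ^ 1) + (-60) * (x ^ 21 * (1 - x) ^ 0) = -(60 * x ^ 0) := by
  ring

theorem id1 (x : ℝ) : (-60) * (x ^ 2 * (1 - x) ^ 19) + (-1140) * (x ^ 3 * (1 - x) ^ 18) + (-10260) * (x ^ 4 * (1 - x) ^ 17) + (-58140) * (x ^ 5 * (1 - x) ^ 16) + (-232560) * (x ^ 6 * (1 - x) ^ 15) + (-697680) * (x ^ 7 * (1 - x) ^ 14) + (-1627920) * (x ^ 8 * (1 - x) ^ 13) + (-3023280) * (x ^ 9 * (1 - x) ^ 12) + (-4534920) * (x ^ 10 * (1 - x) ^ 11) + (-5542680) * (x ^ 11 * (1 - x) ^ 10) + (-5542680) * (x ^ 12 * (1 - x) ^ 9) + (-4534920) * (x ^ 13 * (1 - x) ^ 8) + (-3023280) * (x ^ 14 * (1 - x) ^ 7) + (-1627920) * (x ^ 15 * (1 - x) ^ 6) + (-697680) * (x ^ 16 * (1 - x) ^ 5) + (-232560) * (x ^ 17 * (1 - x) ^ 4) + (-58140) * (x ^ 18 * (1 - x) ^ 3) + (-10260) * (x ^ 19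 * (1 - x) ^ 2) + (-1140) * (x ^ 20 * (1 - x) ^ 1) + (-60) * (x ^ 21 * (1 - x) ^ 0) = -(60 * x ^ 2) := by
  ring

theorem id2 (x : ℝ) : (-60) * (x ^ 3 * (1 - x) ^ 18) + (-1080) * (x ^ 4 * (1 - x) ^ 17) + (-9180) * (x ^ 5 * (1 - x) ^ 16) + (-48960) * (x ^ 6 * (1 - x) ^ 15) + (-183600) * (x ^ 7 * (1 - x) ^ 14) + (-514080) * (x ^ 8 * (1 - x) ^ 13) + (-1113840) * (x ^ 9 * (1 - x) ^ 12) + (-1909440) * (x ^ 10 * (1 - x) ^ 11) + (-2625480) * (x ^ 11 * (1 - x) ^ 10) + (-2917200) * (x ^ 12 * (1 - x) ^ 9) + (-2625480) * (x ^ 13 * (1 - x) ^ 8) + (-1909440) * (x ^ 14 * (1 - x) ^ 7) + (-1113840) * (x ^ 15 * (1 - x) ^ 6) + (-514080) * (x ^ 16 * (1 - x) ^ 5) + (-183600) * (x ^ 17 * (1 - x) ^ 4) + (-48960) * (x ^ 18 * (1 - x) ^ 3) + (-9180) * (x ^ 19 * (1 - x) ^ 2) + (-1080) * (x ^ 20 * (1 - x) ^ 1) + (-60) * (x ^ 21 * (1 - x) ^ 0) = -(60 * x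 ^ 3) := by
  ring

theorem id3 (x : ℝ) : (-60) * (x ^ 6 * (1 - x) ^ 15) + (-900) * (x ^ 7 * (1 - x) ^ 14) + (-6300) * (x ^ 8 * (1 - x) ^ 13) + (-27300) * (x ^ 9 * (1 - x) ^ 12) + (-81900) * (x ^ 10 * (1 - x) ^ 11) + (-180180) * (x ^ 11 * (1 - x) ^ 10) + (-300300) * (x ^ 12 * (1 - x) ^ 9) + (-386100) * (x ^ 13 * (1 - x) ^ 8) + (-386100) * (x ^ 14 * (1 - x) ^ 7) + (-300300) * (x ^ 15 * (1 - x) ^ 6) + (-180180) * (x ^ 16 * (1 - x) ^ 5) + (-81900) * (x ^ 17 * (1 - x) ^ 4) + (-27300) * (x ^ 18 * (1 - x) ^ 3) + (-6300) * (x ^ 19 * (1 - x) ^ 2) + (-900) * (x ^ 20 * (1 - x) ^ 1) + (-60) * (x ^ 21 * (1 - x) ^ 0) = -(60 * x ^ 6) := by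
  ring

theorem id4 (x : ℝ) : (-60) * (x ^ 8 * (1 - x) ^ 13) + (-780) * (x ^ 9 * (1 - x) ^ 12) + (-4680) * (x ^ 10 * (1 - x) ^ 11) + (-17160) * (x ^ 11 * (1 - x) ^ 10) + (-42900) * (x ^ 12 * (1 - x) ^ 9) + (-77220) * (x ^ 13 * (1 - x) ^ 8) + (-102960) * (x ^ 14 * (1 - x) ^ 7) + (-102960) * (x ^ 15 * (1 - x) ^ 6) + (-77220) * (x ^ 16 * (1 - x) ^ 5) + (-42900) * (x ^ 17 * (1 - x) ^ 4) + (-17160) * (x ^ 18 * (1 - x) ^ 3) + (-4680) * (x ^ 19 * (1 - x) ^ 2) + (-780) * (x ^ 20 * (1 - x) ^ 1) + (-60) * (x ^ 21 * (1 - x) ^ 0) = -(60 * x ^ 8) := by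
  ring

theorem id5 (x : ℝ) : (-60) * (x ^ 11 * (1 - x) ^ 10) + (-600) * (x ^ 12 * (1 - x) ^ 9) + (-2700) * (x ^ 13 * (1 - x) ^ 8) + (-7200) * (x ^ 14 * (1 - x) ^ 7) + (-12600) * (x ^ 15 * (1 - x) ^ 6) + (-15120) * (x ^ 16 * (1 - x) ^ 5) + (-12600) * (x ^ 17 * (1 - x) ^ 4) + (-7200) * (x ^ 18 * (1 - x) ^ 3) + (-2700) * (x ^ 19 * (1 - x) ^ 2) + (-600) * (x ^ 20 * (1 - x) ^ 1) + (-60) * (x ^ 21 * (1 - x) ^ 0) = -(60 * x ^ 11) := by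
  ring

theorem id6 (x : ℝ) : (-60) * (x ^ 12 * (1 - x) ^ 9) + (-540) * (x ^ 13 * (1 - x) ^ 8) + (-2160) * (x ^ 14 * (1 - x) ^ 7) + (-5040) * (x ^ 15 * (1 - x) ^ 6) + (-7560) * (x ^ 16 * (1 - x) ^ 5) + (-7560) * (x ^ 17 * (1 - x) ^ 4) + (-5040) * (x ^ 18 * (1 - x) ^ 3) + (-2160) * (x ^ 19 * (1 - x) ^ 2) + (-540) * (x ^ 20 * (1 - x) ^ 1) + (-60) * (x ^ 21 * (1 - x) ^ 0) = -(60 * x ^ 12) := by
  ring

theorem id7 (x : ℝ) : (-60) * (x ^ 15 * (1 - x) ^ 6) + (-360) * (x ^ 16 * (1 - x) ^ 5) + (-900) * (x ^ 17 * (1 - x) ^ 4) + (-1200) * (x ^ 18 * (1 - x) ^ 3) + (-900) * (x ^ 19 * (1 - x) ^ 2) + (-360) * (x ^ 20 * (1 - x) ^ 1) + (-60) * (x ^ 21 * (1 - x) ^ 0) = -(60 * x ^ 15) := by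
  ring

theorem id8 (x : ℝ) : (-147) * (x ^ 0 * (1 - x) ^ 21) + (-2727) * (x ^ 1 * (1 - x) ^ 20) + (-24120) * (x ^ 2 * (1 - x) ^ 19) + (-135260) * (x ^ 3 * (1 - x) ^ 18) + (-539370) * (x ^ 4 * (1 - x) ^ 17) + (-1625706) * (x ^ 5 * (1 - x) ^ 16) + (-3842626) * (x ^ 6 * (1 - x) ^ 15) + (-7292670) * (x ^ 7 * (1 - x) ^ 14) + (-11284260) * (x ^ 8 * (1 - x) ^ 13) + (-14373320) * (x ^ 9 * (1 - x) ^ 12) + (-15149706) * (x ^ 10 * (1 - x) ^ 11) + (-13233246) * (x ^ 11 * (1 - x) ^ 10) + (-9560330) * (x ^ 12 * (1 - x) ^ 9) + (-5679990) * (x ^ 13 * (1 - x) ^ 8) + (-2747430) * (x ^ 14 * (1 - x) ^ 7) + (-1065082) * (x ^ 15 * (1 - x) ^ 6) + (-323097) * (x ^ 16 * (1 - x) ^ 5) + (-73905) * (x ^ 17 * (1 - x) ^ 4) + (-11990) * (x ^ 18 * (1 - x) ^ 3) + (-1230) * (x ^ 19 * (1 - x) ^ 2) + (-60) * (x ^ 20 * (1 - x) ^ 1) = -(60 * (x ^ 0 * ser x)) := by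
  unfold ser
  ring

theorem id9 (x : ℝ) : (-147) * (x ^ 2 * (1 - x) ^ 19) + (-2433) * (x ^ 3 * (1 - x) ^ 18) + (-19107) * (x ^ 4 * (1 - x) ^ 17) + (-94613) * (x ^ 5 * (1 - x) ^ 16) + (-331037) * (x ^ 6 * (1 - x) ^ 15) + (-869019) * (x ^ 7 * (1 - x) ^ 14) + (-1773551) * (x ^ 8 * (1 - x) ^ 13) + (-2876549) * (x ^ 9 * (1 - x) ^ 12) + (-3757611) * (x ^ 10 * (1 - x) ^ 11) + (-3981549) * (x ^ 11 * (1 - x) ^ 10) + (-3428997) * (x ^ 12 * (1 - x) ^ 9) + (-2393703) * (x ^ 13 * (1 - x) ^ 8) + (-1343927) * (x ^ 14 * (1 - x) ^ 7) + (-598433) * (x ^ 15 * (1 - x) ^ 6) + (-206637) * (x ^ 16 * (1 - x) ^ 5) + (-53375) * (x ^ 17 * (1 - x) ^ 4) + (-9710) * (x ^ 18 * (1 - x) ^ 3) + (-1110) * (x ^ 19 * (1 - x) ^ 2) + (-60) * (x ^ 20 * (1 - x) ^ 1) = -(60 * (x ^ 2 * ser x)) := by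
  unfold ser
  ring

theorem id10 (x : ℝ) : (-147) * (x ^ 3 * (1 - x) ^ 18) + (-2286) * (x ^ 4 * (1 - x) ^ 17) + (-16821) * (x ^ 5 * (1 - x) ^ 16) + (-77792) * (x ^ 6 * (1 - x) ^ 15) + (-253245) * (x ^ 7 * (1 - x) ^ 14) + (-615774) * (x ^ 8 * (1 - x) ^ 13) + (-1157777) * (x ^ 9 * (1 - x) ^ 12) + (-1718772) * (x ^ 10 * (1 - x) ^ 11) + (-2038839) * (x ^ 11 * (1 - x) ^ 10) + (-1942710) * (x ^ 12 * (1 - x) ^ 9) + (-1486287) * (x ^ 13 * (1 - x) ^ 8) + (-907416) * (x ^ 14 * (1 - x) ^ 7) + (-436511) * (x ^ 15 * (1 - x) ^ 6) + (-161922) * (x ^ 16 * (1 - x) ^ 5) + (-44715) * (x ^ 17 * (1 - x) ^ 4) + (-8660) * (x ^ 18 * (1 - x) ^ 3) + (-1050) * (x ^ 19 * (1 - x) ^ 2) + (-60) * (x ^ 20 * (1 - x) ^ 1) = -(60 * (x ^ 3 * ser x)) := by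
  unfold ser
  ring

theorem id11 (x : ℝ) : (-147) * (x ^ 6 * (1 - x) ^ 15) + (-1845) * (x ^ 7 * (1 - x) ^ 14) + (-10845) * (x ^ 8 * (1 - x) ^ 13) + (-39575) * (x ^ 9 * (1 - x) ^ 12) + (-100140) * (x ^ 10 * (1 - x) ^ 11) + (-185784) * (x ^ 11 * (1 - x) ^ 10) + (-260430) * (x ^ 12 * (1 - x) ^ 9) + (-279990) * (x ^ 13 * (1 - x) ^ 8) + (-231795) * (x ^ 14 * (1 - x) ^ 7) + (-146925) * (x ^ 15 * (1 - x) ^ 6) + (-70137) * (x ^ 16 * (1 - x) ^ 5) + (-24435) * (x ^ 17 * (1 - x) ^ 4) + (-5870) * (x ^ 18 * (1 - x) ^ 3) + (-870) * (x ^ 19 * (1 - x) ^ 2) + (-60) * (x ^ 20 * (1 - x) ^ 1) = -(60 * (x ^ 6 * ser x)) := by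
  unfold ser
  ring

theorem id12 (x : ℝ) : (-147) * (x ^ 8 * (1 - x) ^ 13) + (-1551) * (x ^ 9 * (1 - x) ^ 12) + (-7596) * (x ^ 10 * (1 - x) ^ 11) + (-22832) * (x ^ 11 * (1 - x) ^ 10) + (-46880) * (x ^ 12 * (1 - x) ^ 9) + (-69192) * (x ^ 13 * (1 - x) ^ 8) + (-75166) * (x ^ 14 * (1 - x) ^ 7) + (-60466) * (x ^ 15 * (1 - x) ^ 6) + (-35697) * (x ^ 16 * (1 - x) ^ 5) + (-15065) * (x ^ 17 * (1 - x) ^ 4) + (-4310) * (x ^ 18 * (1 - x) ^ 3) + (-750) * (x ^ 19 * (1 - x) ^ 2) + (-60) * (x ^ 20 * (1 - x) ^ 1) = -(60 * (x ^ 8 * ser x)) := by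
  unfold ser
  ring

theorem id13 (x : ℝ) : (-147) * (x ^ 11 * (1 - x) ^ 10) + (-1110) * (x ^ 12 * (1 - x) ^ 9) + (-3825) * (x ^ 13 * (1 - x) ^ 8) + (-7880) * (x ^ 14 * (1 - x) ^ 7) + (-10655) * (x ^ 15 * (1 - x) ^ 6) + (-9762) * (x ^ 16 * (1 - x) ^ 5) + (-6035) * (x ^ 17 * (1 - x) ^ 4) + (-2420) * (x ^ 18 * (1 - x) ^ 3) + (-570) * (x ^ 19 * (1 - x) ^ 2) + (-60) * (x ^ 20 * (1 - x) ^ 1) = -(60 * (x ^ 11 * ser x)) := by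
  unfold ser
  ring

theorem id14 (x : ℝ) : (-147) * (x ^ 12 * (1 - x) ^ 9) + (-963) * (x ^ 13 * (1 - x) ^ 8) + (-2862) * (x ^ 14 * (1 - x) ^ 7) + (-5018) * (x ^ 15 * (1 - x) ^ 6) + (-5637) * (x ^ 16 * (1 - x) ^ 5) + (-4125) * (x ^ 17 * (1 - x) ^ 4) + (-1910) * (x ^ 18 * (1 - x) ^ 3) + (-510) * (x ^ 19 * (1 - x) ^ 2) + (-60) * (x ^ 20 * (1 - x) ^ 1) = -(60 * (x ^ 12 * ser x)) := by
  unfold ser
  ring

theorem id15 (x : ℝ) : (-147) * (x ^ 15 * (1 - x) ^ 6) + (-522) * (x ^ 16 * (1 - x) ^ 5) + (-855) * (x ^ 17 * (1 - x) ^ 4) + (-740) * (x ^ 18 * (1 - x) ^ 3) + (-330) * (x ^ 19 * (1 - x) ^ 2) + (-60) * (x ^ 20 * (1 - x) ^ 1) = -(60 * (x ^ 15 * ser x)) := by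
  unfold ser
  ring

theorem rows_key (x : ℝ) (hx0 : 0 ≤ x) (hx1 : x ≤ 1) (a0 a1 a2 a3 a4 a5 a6 a7 b0 b1 b2 b3 b4 b5 b6 b7 : ℝ)
    (h : ∀ r ∈ rows, 0 ≤ dl r [a0, a1, a2, a3, a4, a5, a6, a7, b0, b1, b2, b3, b4, b5, b6, b7]) :
    (x ^ 0 * a0 + x ^ 2 * a1 + x ^ 3 * a2 + x ^ 6 * a3 + x ^ 8 * a4 + x ^ 11 * a5 + x ^ 12 * a6 + x ^ 15 * a7) +
      ser x * (x ^ 0 * b0 + x ^ 2 * b1 + x ^ 3 * b2 + x ^ 6 * b3 + x ^ 8 * b4 + x ^ 11 * b5 + x ^ 12 * b6 + x ^ 15 * b7) ≤ 0 := by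
  simp only [rows, List.forall_mem_cons, dl, Int.cast_neg, Int.cast_ofNat, Int.cast_zero, Int.cast_one, zero_mul, add_zero, zero_add] at h
  obtain ⟨h0, h1, h2, h3, h4, h5, h6, h7, h8, h9, h10, h11, h12, h13, h14, h15, h16, h17, h18, h19, h20, h21, -⟩ := h
  have hy : 0 ≤ 1 - x := by linarith
  obtain ⟨w0, ew0⟩ : ∃ w, w = x ^ 0 * (1 - x) ^ 21 := ⟨_, rfl⟩
  have hw0 : 0 ≤ w0 := by rw [ew0]; positivity
  obtain ⟨w1, ew1⟩ : ∃ w, w = x ^ 1 * (1 - x) ^ 20 := ⟨_, rfl⟩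
  have hw1 : 0 ≤ w1 := by rw [ew1]; positivity
  obtain ⟨w2, ew2⟩ : ∃ w, w = x ^ 2 * (1 - x) ^ 19 := ⟨_, rfl⟩
  have hw2 : 0 ≤ w2 := by rw [ew2]; positivity
  obtain ⟨w3, ew3⟩ : ∃ w, w = x ^ 3 * (1 - x) ^ 18 := ⟨_, rfl⟩
  have hw3 : 0 ≤ w3 := by rw [ew3]; positivity
  obtain ⟨w4, ew4⟩ : ∃ w, w = x ^ 4 * (1 - x) ^ 17 := ⟨_, rfl⟩
  have hw4 : 0 ≤ w4 := by rw [ew4]; positivity
  obtain ⟨w5, ew5⟩ : ∃ w, w = x ^ 5 * (1 - x) ^ 16 := ⟨_, rfl⟩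
  have hw5 : 0 ≤ w5 := by rw [ew5]; positivity
  obtain ⟨w6, ew6⟩ : ∃ w, w = x ^ 6 * (1 - x) ^ 15 := ⟨_, rfl⟩
  have hw6 : 0 ≤ w6 := by rw [ew6]; positivity
  obtain ⟨w7, ew7⟩ : ∃ w, w = x ^ 7 * (1 - x) ^ 14 := ⟨_, rfl⟩
  have hw7 : 0 ≤ w7 := by rw [ew7]; positivity
  obtain ⟨w8, ew8⟩ : ∃ w, w = x ^ 8 * (1 - x) ^ 13 := ⟨_, rfl⟩
  have hw8 : 0 ≤ w8 := by rw [ew8]; positivity
  obtain ⟨w9, ew9⟩ : ∃ w, w = x ^ 9 * (1 - x) ^ 12 := ⟨_, rfl⟩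
  have hw9 : 0 ≤ w9 := by rw [ew9]; positivity
  obtain ⟨w10, ew10⟩ : ∃ w, w = x ^ 10 * (1 - x) ^ 11 := ⟨_, rfl⟩
  have hw10 : 0 ≤ w10 := by rw [ew10]; positivity
  obtain ⟨w11, ew11⟩ : ∃ w, w = x ^ 11 * (1 - x) ^ 10 := ⟨_, rfl⟩
  have hw11 : 0 ≤ w11 := by rw [ew11]; positivity
  obtain ⟨w12, ew12⟩ : ∃ w, w = x ^ 12 * (1 - x) ^ 9 := ⟨_, rfl⟩
  have hw12 : 0 ≤ w12 := by rw [ew12]; positivity
  obtain ⟨w13, ew13⟩ : ∃ w, w = x ^ 13 * (1 - x) ^ 8 := ⟨_, rfl⟩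
  have hw13 : 0 ≤ w13 := by rw [ew13]; positivity
  obtain ⟨w14, ew14⟩ : ∃ w, w = x ^ 14 * (1 - x) ^ 7 := ⟨_, rfl⟩
  have hw14 : 0 ≤ w14 := by rw [ew14]; positivity
  obtain ⟨w15, ew15⟩ : ∃ w, w = x ^ 15 * (1 - x) ^ 6 := ⟨_, rfl⟩
  have hw15 : 0 ≤ w15 := by rw [ew15]; positivity
  obtain ⟨w16, ew16⟩ : ∃ w, w = x ^ 16 * (1 - x) ^ 5 := ⟨_, rfl⟩
  have hw16 : 0 ≤ w16 := by rw [ew16]; positivity
  obtain ⟨w17, ew17⟩ : ∃ w, w = x ^ 17 * (1 - x) ^ 4 := ⟨_, rfl⟩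
  have hw17 : 0 ≤ w17 := by rw [ew17]; positivity
  obtain ⟨w18, ew18⟩ : ∃ w, w = x ^ 18 * (1 - x) ^ 3 := ⟨_, rfl⟩
  have hw18 : 0 ≤ w18 := by rw [ew18]; positivity
  obtain ⟨w19, ew19⟩ : ∃ w, w = x ^ 19 * (1 - x) ^ 2 := ⟨_, rfl⟩
  have hw19 : 0 ≤ w19 := by rw [ew19]; positivity
  obtain ⟨w20, ew20⟩ : ∃ w, w = x ^ 20 * (1 - x) ^ 1 := ⟨_, rfl⟩
  have hw20 : 0 ≤ w20 := by rw [ew20]; positivity
  obtain ⟨w21, ew21⟩ : ∃ w, w = x ^ 21 * (1 - x) ^ 0 := ⟨_, rfl⟩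
  have hw21 : 0 ≤ w21 := by rw [ew21]; positivity
  have i0 := id0 x
  have i1 := id1 x
  have i2 := id2 x
  have i3 := id3 x
  have i4 := id4 x
  have i5 := id5 x
  have i6 := id6 x
  have i7 := id7 x
  have i8 := id8 x
  have i9 := id9 x
  have i10 := id10 x
  have i11 := id11 x
  have i12 := id12 x
  have i13 := id13 x
  have i14 := id14 x
  have i15 := id15 x
  rw [← ew0, ← ew1, ← ew2, ← ew3, ← ew4, ← ew5, ← ew6, ← ew7, ← ew8, ← ew9, ← ew10, ← ew11, ← ew12, ← ew13, ← ew14, ← ew15, ← ew16, ← ew17, ← ew18, ← ew19, ← ew20, ← ew21] at i0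
  rw [← ew2, ← ew3, ← ew4, ← ew5, ← ew6, ← ew7, ← ew8, ← ew9, ← ew10, ← ew11, ← ew12, ← ew13, ← ew14, ← ew15, ← ew16, ← ew17, ← ew18, ← ew19, ← ew20, ← ew21] at i1
  rw [← ew3, ← ew4, ← ew5, ← ew6, ← ew7, ← ew8, ← ew9, ← ew10, ← ew11, ← ew12, ← ew13, ← ew14, ← ew15, ← ew16, ← ew17, ← ew18, ← ew19, ← ew20, ← ew21] at i2
  rw [← ew6, ← ew7, ← ew8, ← ew9, ← ew10, ← ew11, ← ew12, ← ew13, ← ew14, ← ew15, ← ew16, ← ew17, ← ew18, ← ew19, ← ew20, ← ew21] at i3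
  rw [← ew8, ← ew9, ← ew10, ← ew11, ← ew12, ← ew13, ← ew14, ← ew15, ← ew16, ← ew17, ← ew18, ← ew19, ← ew20, ← ew21] at i4
  rw [← ew11, ← ew12, ← ew13, ← ew14, ← ew15, ← ew16, ← ew17, ← ew18, ← ew19, ← ew20, ← ew21] at i5
  rw [← ew12, ← ew13, ← ew14, ← ew15, ← ew16, ← ew17, ← ew18, ← ew19, ← ew20, ← ew21] at i6
  rw [← ew15, ← ew16, ← ew17, ← ew18, ← ew19, ← ew20, ← ew21] at i7
  rw [← ew0, ← ew1, ← ew2, ← ew3, ← ew4, ← ew5, ← ew6, ← ew7, ← ew8, ← ew9, ← ew10, ← ew11, ← ew12, ← ew13, ← ew14, ← ew15, ← ew16, ← ew17, ← ew18, ← ew19, ← ew20] at i8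
  rw [← ew2, ← ew3, ← ew4, ← ew5, ← ew6, ← ew7, ← ew8, ← ew9, ← ew10, ← ew11, ← ew12, ← ew13, ← ew14, ← ew15, ← ew16, ← ew17, ← ew18, ← ew19, ← ew20] at i9
  rw [← ew3, ← ew4, ← ew5, ← ew6, ← ew7, ← ew8, ← ew9, ← ew10, ← ew11, ← ew12, ← ew13, ← ew14, ← ew15, ← ew16, ← ew17, ← ew18, ← ew19, ← ew20] at i10
  rw [← ew6, ← ew7, ← ew8, ← ew9, ← ew10, ← ew11, ← ew12, ← ew13, ← ew14, ← ew15, ← ew16, ← ew17, ← ew18, ← ew19, ← ew20] at i11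
  rw [← ew8, ← ew9, ← ew10, ← ew11, ← ew12, ← ew13, ← ew14, ← ew15, ← ew16, ← ew17, ← ew18, ← ew19, ← ew20] at i12
  rw [← ew11, ← ew12, ← ew13, ← ew14, ← ew15, ← ew16, ← ew17, ← ew18, ← ew19, ← ew20] at i13
  rw [← ew12, ← ew13, ← ew14, ← ew15, ← ew16, ← ew17, ← ew18, ← ew19, ← ew20] at i14
  rw [← ew15, ← ew16, ← ew17, ← ew18, ← ew19, ← ew20] at i15
  have m0 := mul_nonneg hw0 h0
  have m1 := mul_nonneg hw1 h1
  have m2 := mul_nonneg hw2 h2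
  have m3 := mul_nonneg hw3 h3
  have m4 := mul_nonneg hw4 h4
  have m5 := mul_nonneg hw5 h5
  have m6 := mul_nonneg hw6 h6
  have m7 := mul_nonneg hw7 h7
  have m8 := mul_nonneg hw8 h8
  have m9 := mul_nonneg hw9 h9
  have m10 := mul_nonneg hw10 h10
  have m11 := mul_nonneg hw11 h11
  have m12 := mul_nonneg hw12 h12
  have m13 := mul_nonneg hw13 h13
  have m14 := mul_nonneg hw14 h14
  have m15 := mul_nonneg hw15 h15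
  have m16 := mul_nonneg hw16 h16
  have m17 := mul_nonneg hw17 h17
  have m18 := mul_nonneg hw18 h18
  have m19 := mul_nonneg hw19 h19
  have m20 := mul_nonneg hw20 h20
  have m21 := mul_nonneg hw21 h21
  have e : 60 * ((x ^ 0 * a0 + x ^ 2 * a1 + x ^ 3 * a2 + x ^ 6 * a3 + x ^ 8 * a4 + x ^ 11 * a5 + x ^ 12 * a6 + x ^ 15 * a7) +
      ser x * (x ^ 0 * b0 + x ^ 2 * b1 + x ^ 3 * b2 + x ^ 6 * b3 + x ^ 8 * b4 + x ^ 11 * b5 + x ^ 12 * b6 + x ^ 15 * b7)) =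
    -(w0 * ((-60) * a0 + (-147) * b0) + w1 * ((-1260) * a0 + (-2727) * b0) + w2 * ((-12600) * a0 + (-60) * a1 + (-24120) * b0 + (-147) * b1) + w3 * ((-79800) * a0 + (-1140) * a1 + (-60) * a2 + (-135260) * b0 + (-2433) * b1 + (-147) * b2) + w4 * ((-359100) * a0 + (-10260) * a1 + (-1080) * a2 + (-539370) * b0 + (-19107) * b1 + (-2286) * b2) + w5 * ((-1220940) * a0 + (-58140) * a1 + (-9180) * a2 + (-1625706) * b0 + (-94613) * b1 + (-16821) * b2) + w6 * ((-3255840) * a0 + (-232560) * a1 + (-48960) * a2 + (-60) * a3 + (-3842626) * b0 + (-331037) * b1 + (-77792) * b2 + (-147) * b3) + w7 * ((-6976800) * a0 + (-697680) * a1 + (-183600) * a2 + (-900) * a3 + (-7292670) * b0 + (-869019) * b1 + (-253245) * b2 + (-1845) * b3) + w8 * ((-12209400) * a0 + (-1627920) * a1 + (-514080) * a2 + (-6300) * a3 + (-60) * a4 + (-11284260) * b0 + (-1773551)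 * b1 + (-615774) * b2 + (-10845) * b3 + (-147) * b4) + w9 * ((-17635800) * a0 + (-3023280) * a1 + (-1113840) * a2 + (-27300) * a3 + (-780) * a4 + (-14373320) * b0 + (-2876549) * b1 + (-1157777) * b2 + (-39575) * b3 + (-1551) * b4) + w10 * ((-21162960) * a0 + (-4534920) * a1 + (-1909440) * a2 + (-81900) * a3 + (-4680) * a4 + (-15149706) * b0 + (-3757611) * b1 + (-1718772) * b2 + (-100140) * b3 + (-7596) * b4) + w11 * ((-21162960) * a0 + (-5542680) * a1 + (-2625480) * a2 + (-180180) * a3 + (-17160) * a4 + (-60) * a5 + (-13233246) * b0 + (-3981549) * b1 + (-2038839) * b2 + (-185784) * b3 + (-22832) * b4 + (-147) * b5) + w12 * ((-17635800) * a0 + (-5542680) * a1 + (-2917200) * a2 + (-300300) * a3 + (-42900) * a4 + (-600) * a5 + (-60) * a6 + (-9560330) * b0 + (-3428997) * b1 + (-1942710) * b2 + (-260430) * b3 + (-46880) * b4 + (-1110)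 * b5 + (-147) * b6) + w13 * ((-12209400) * a0 + (-4534920) * a1 + (-2625480) * a2 + (-386100) * a3 + (-77220) * a4 + (-2700) * a5 + (-540) * a6 + (-5679990) * b0 + (-2393703) * b1 + (-1486287) * b2 + (-279990) * b3 + (-69192) * b4 + (-3825) * b5 + (-963) * b6) + w14 * ((-6976800) * a0 + (-3023280) * a1 + (-1909440) * a2 + (-386100) * a3 + (-102960) * a4 + (-7200) * a5 + (-2160) * a6 + (-2747430) * b0 + (-1343927) * b1 + (-907416) * b2 + (-231795) * b3 + (-75166) * b4 + (-7880) * b5 + (-2862) * b6) + w15 * ((-3255840) * a0 + (-1627920) * a1 + (-1113840) * a2 + (-300300) * a3 + (-102960) * a4 + (-12600) * a5 + (-5040) * a6 + (-60) * a7 + (-1065082) * b0 + (-598433) * b1 + (-436511) * b2 + (-146925) * b3 + (-60466) * b4 + (-10655) * b5 + (-5018) * b6 + (-147) * b7) + w16 * ((-1220940) * a0 + (-697680) * a1 + (-514080) * a2 + (-180180)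 * a3 + (-77220) * a4 + (-15120) * a5 + (-7560) * a6 + (-360) * a7 + (-323097) * b0 + (-206637) * b1 + (-161922) * b2 + (-70137) * b3 + (-35697) * b4 + (-9762) * b5 + (-5637) * b6 + (-522) * b7) + w17 * ((-359100) * a0 + (-232560) * a1 + (-183600) * a2 + (-81900) * a3 + (-42900) * a4 + (-12600) * a5 + (-7560) * a6 + (-900) * a7 + (-73905) * b0 + (-53375) * b1 + (-44715) * b2 + (-24435) * b3 + (-15065) * b4 + (-6035) * b5 + (-4125) * b6 + (-855) * b7) + w18 * ((-79800) * a0 + (-58140) * a1 + (-48960) * a2 + (-27300) * a3 + (-17160) * a4 + (-7200) * a5 + (-5040) * a6 + (-1200) * a7 + (-11990) * b0 + (-9710) * b1 + (-8660) * b2 + (-5870) * b3 + (-4310) * b4 + (-2420) * b5 + (-1910) * b6 + (-740) * b7) + w19 * ((-12600) * a0 + (-10260) * a1 + (-9180) * a2 + (-6300) * a3 + (-4680) * a4 + (-2700) * a5 + (-2160) * a6 + (-900) * a7 + (-1230)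 * b0 + (-1110) * b1 + (-1050) * b2 + (-870) * b3 + (-750) * b4 + (-570) * b5 + (-510) * b6 + (-330) * b7) + w20 * ((-1260) * a0 + (-1140) * a1 + (-1080) * a2 + (-900) * a3 + (-780) * a4 + (-600) * a5 + (-540) * a6 + (-360) * a7 + (-60) * b0 + (-60) * b1 + (-60) * b2 + (-60) * b3 + (-60) * b4 + (-60) * b5 + (-60) * b6 + (-60) * b7) + w21 * ((-60) * a0 + (-60) * a1 + (-60) * a2 + (-60) * a3 + (-60) * a4 + (-60) * a5 + (-60) * a6 + (-60) * a7)) := by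
    linear_combination i0 * a0 + i1 * a1 + i2 * a2 + i3 * a3 + i4 * a4 + i5 * a5 + i6 * a6 + i7 * a7 + i8 * b0 + i9 * b1 + i10 * b2 + i11 * b3 + i12 * b4 + i13 * b5 + i14 * b6 + i15 * b7
  have f : 0 ≤ w0 * ((-60) * a0 + (-147) * b0) + w1 * ((-1260) * a0 + (-2727) * b0) + w2 * ((-12600) * a0 + (-60) * a1 + (-24120) * b0 + (-147) * b1) + w3 * ((-79800) * a0 + (-1140) * a1 + (-60) * a2 + (-135260) * b0 + (-2433) * b1 + (-147) * b2) + w4 * ((-359100) * a0 + (-10260) * a1 + (-1080) * a2 + (-539370) * b0 + (-19107) * b1 + (-2286) * b2) + w5 * ((-1220940) * a0 + (-58140) * a1 + (-9180) * a2 + (-1625706) * b0 + (-94613) * b1 + (-16821) * b2) + w6 * ((-3255840) * a0 + (-232560) * a1 + (-48960) * a2 + (-60) * a3 + (-3842626) * b0 + (-331037) * b1 + (-77792) * b2 + (-147) * b3) + w7 * ((-6976800) * a0 + (-697680) * a1 + (-183600) * a2 +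 (-900) * a3 + (-7292670) * b0 + (-869019) * b1 + (-253245) * b2 + (-1845) * b3) + w8 * ((-12209400) * a0 + (-1627920) * a1 + (-514080) * a2 + (-6300) * a3 + (-60) * a4 + (-11284260) * b0 + (-1773551) * b1 + (-615774) * b2 + (-10845) * b3 + (-147) * b4) + w9 * ((-17635800) * a0 + (-3023280) * a1 + (-1113840) * a2 + (-27300) * a3 + (-780) * a4 + (-14373320) * b0 + (-2876549) * b1 + (-1157777) * b2 + (-39575) * b3 + (-1551) * b4) + w10 * ((-21162960) * a0 + (-4534920) * a1 + (-1909440) * a2 + (-81900) * a3 + (-4680) * a4 + (-15149706) * b0 + (-3757611) * b1 + (-1718772) * b2 + (-100140) * b3 + (-7596) * b4) + w11 * ((-21162960) * a0 + (-5542680) * a1 + (-2625480) * a2 + (-180180) * a3 + (-17160) * a4 + (-60) * a5 + (-13233246) * b0 + (-3981549) * b1 + (-2038839) * b2 + (-185784) * b3 + (-22832) * b4 + (-147) * b5) + w12 * ((-17635800)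 * a0 + (-5542680) * a1 + (-2917200) * a2 + (-300300) * a3 + (-42900) * a4 + (-600) * a5 + (-60) * a6 + (-9560330) * b0 + (-3428997) * b1 + (-1942710) * b2 + (-260430) * b3 + (-46880) * b4 + (-1110) * b5 + (-147) * b6) + w13 * ((-12209400) * a0 + (-4534920) * a1 + (-2625480) * a2 + (-386100) * a3 + (-77220) * a4 + (-2700) * a5 + (-540) * a6 + (-5679990) * b0 + (-2393703) * b1 + (-1486287) * b2 + (-279990) * b3 + (-69192) * b4 + (-3825) * b5 + (-963) * b6) + w14 * ((-6976800) * a0 + (-3023280) * a1 + (-1909440) * a2 + (-386100) * a3 + (-102960) * a4 + (-7200) * a5 + (-2160) * a6 + (-2747430) * b0 + (-1343927) * b1 + (-907416) * b2 + (-231795) * b3 + (-75166) * b4 + (-7880) * b5 + (-2862) * b6) + w15 * ((-3255840) * a0 + (-1627920) * a1 + (-1113840) * a2 + (-300300) * a3 + (-102960) * a4 + (-12600) * a5 + (-5040) * a6 + (-60) * a7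 + (-1065082) * b0 + (-598433) * b1 + (-436511) * b2 + (-146925) * b3 + (-60466) * b4 + (-10655) * b5 + (-5018) * b6 + (-147) * b7) + w16 * ((-1220940) * a0 + (-697680) * a1 + (-514080) * a2 + (-180180) * a3 + (-77220) * a4 + (-15120) * a5 + (-7560) * a6 + (-360) * a7 + (-323097) * b0 + (-206637) * b1 + (-161922) * b2 + (-70137) * b3 + (-35697) * b4 + (-9762) * b5 + (-5637) * b6 + (-522) * b7) + w17 * ((-359100) * a0 + (-232560) * a1 + (-183600) * a2 + (-81900) * a3 + (-42900) * a4 + (-12600) * a5 + (-7560) * a6 + (-900) * a7 + (-73905) * b0 + (-53375) * b1 + (-44715) * b2 + (-24435) * b3 + (-15065) * b4 + (-6035) * b5 + (-4125) * b6 + (-855) * b7) + w18 * ((-79800) * a0 + (-58140) * a1 + (-48960) * a2 + (-27300) * a3 + (-17160) * a4 + (-7200) * a5 + (-5040) * a6 + (-1200) * a7 + (-11990) * b0 + (-9710) * b1 + (-8660) * b2 + (-5870)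 * b3 + (-4310) * b4 + (-2420) * b5 + (-1910) * b6 + (-740) * b7) + w19 * ((-12600) * a0 + (-10260) * a1 + (-9180) * a2 + (-6300) * a3 + (-4680) * a4 + (-2700) * a5 + (-2160) * a6 + (-900) * a7 + (-1230) * b0 + (-1110) * b1 + (-1050) * b2 + (-870) * b3 + (-750) * b4 + (-570) * b5 + (-510) * b6 + (-330) * b7) + w20 * ((-1260) * a0 + (-1140) * a1 + (-1080) * a2 + (-900) * a3 + (-780) * a4 + (-600) * a5 + (-540) * a6 + (-360) * a7 + (-60) * b0 + (-60) * b1 + (-60) * b2 + (-60) * b3 + (-60) * b4 + (-60) * b5 + (-60) * b6 + (-60) * b7) + w21 * ((-60) * a0 + (-60) * a1 + (-60) * a2 + (-60) * a3 + (-60) * a4 + (-60) * a5 + (-60) * a6 + (-60) * a7) := by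
    linarith
  linarith

end Pool.Agent.J4.H93.NS.D8
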