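import Pool.Agent.J4.H93.NS.Syn

/-!
# Project NS, piece TRF: the list recursion computes the Fourier transform
-/

set_option autoImplicit false

open Polynomial Pool.Agent.TH478.CE

namespace Pool.Agent.J4.H93.NS

/-- the test functions -/
noncomputable def gf (q : ℤ) (p : List ℤ) (x : P) : ℝ :=
  (toP p).eval ((q : ℝ) * (2 * Real.pi * ‖x‖ ^ 2)) * Real.exp (-Real.pi * ‖x‖ ^ 2)

namespace Trf

/-- the lists of the transforms of the monomials -/
def lamL (q : ℤ) : ℕ → List ℤ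
  | 0 => [1]
  | k + 1 => nxt q k 0 0 (lamL q k)

theorem toP_nxt (q k m prev : ℤ) (l : List ℤ) :
    toP (nxt q k m prev l) = - C (prev : ℝ) + (C (2 * (q : ℝ) * ((k : ℝ) + 1 + m)) - X) * toP l +
      C (2 * (q : ℝ)) * X * derivative (toP l) := by
  induction l generalizing m prev with
  | nil => simp [nxt, toP]
  | cons a l ih =>
    simp only [nxt, toP, ih]
    push_cast
    simp only [C_sub, C_mul, C_add, derivative_add, derivative_mul, derivative_C, derivative_X]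
    simp only [map_ofNat, map_one]
    ring

theorem toP_lamL (q : ℤ) (hq : 0 < q) (k : ℕ) :
    toP (lamL q k) = C ((2 * (q : ℝ)) ^ k) * (Lam k).comp (C ((2 * (q : ℝ))⁻¹) * X) := by
  have hq0 : (2 * (q : ℝ)) ≠ 0 := by
    have : (0 : ℝ) < q := by exact_mod_cast hq
    positivity
  have hCC : C (2 * (q : ℝ)) * C ((2 * (q : ℝ))⁻¹) = (1 : Polynomial ℝ) := by
    rw [← C_mul, mul_inv_cancel₀ hq0, C_1]
  induction k with
  | zero => simp [lamL, toP, Lam]
  | succ k ih =>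
    have h1 : toP (lamL q (k + 1)) = (C (2 * (q : ℝ)) * C ((k : ℝ) + 1) - X) * toP (lamL q k) +
        C (2 * (q : ℝ)) * X * derivative (toP (lamL q k)) := by
      rw [lamL, toP_nxt]
      simp
    have hp : (C ((2 * (q : ℝ)) ^ (k + 1)) : Polynomial ℝ) =
        C ((2 * (q : ℝ)) ^ k) * C (2 * (q : ℝ)) := by rw [pow_succ, C_mul]
    rw [h1, ih, hp]
    simp only [Lam, derivative_mul, derivative_C, derivative_comp, derivative_X, mul_comp, add_comp,
      sub_comp, X_comp, C_comp]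
    linear_combination (C ((2 * (q : ℝ)) ^ k) * (X * (Lam k).comp (C ((2 * (q : ℝ))⁻¹) * X))) * hCC

/-- the weighted monomials times polynomials -/
noncomputable def gfk (q : ℤ) (k : ℕ) (p : List ℤ) (x : P) : ℝ :=
  ((q : ℝ) * (2 * Real.pi * ‖x‖ ^ 2)) ^ k * (toP p).eval ((q : ℝ) * (2 * Real.pi * ‖x‖ ^ 2)) *
    Real.exp (-Real.pi * ‖x‖ ^ 2)

/-- the statement of piece LAG -/
def LagStatement : Prop := ∀ k : ℕ,
    IsRS (fun x : P => ‖x‖ ^ (2 * k) * Real.exp (-Real.pi * ‖x‖ ^ 2)) ∧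
    ∀ y : P, rft (fun x : P => ‖x‖ ^ (2 * k) * Real.exp (-Real.pi * ‖x‖ ^ 2)) y =
      (Real.pi ^ k)⁻¹ * (Lam k).eval (Real.pi * ‖y‖ ^ 2) * Real.exp (-Real.pi * ‖y‖ ^ 2)

theorem mono (hlag : LagStatement) (q : ℤ) (hq : 0 < q) (k : ℕ) :
    IsRS (fun x : P => ((q : ℝ) * (2 * Real.pi * ‖x‖ ^ 2)) ^ k * Real.exp (-Real.pi * ‖x‖ ^ 2)) ∧
    ∀ y : P, rft (fun x : P => ((q : ℝ) * (2 * Real.pi * ‖x‖ ^ 2)) ^ k *
      Real.exp (-Real.pi * ‖x‖ ^ 2)) y = gf q (lamL q k) y := by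
  have he : (fun x : P => ((q : ℝ) * (2 * Real.pi * ‖x‖ ^ 2)) ^ k * Real.exp (-Real.pi * ‖x‖ ^ 2)) =
      fun x : P => ((q : ℝ) * (2 * Real.pi)) ^ k *
        (‖x‖ ^ (2 * k) * Real.exp (-Real.pi * ‖x‖ ^ 2)) := by
    funext x
    rw [pow_mul, ← mul_assoc ((q : ℝ)), mul_pow, mul_assoc]
  rw [he]
  refine ⟨(hlag k).1.const_mul _, fun y => ?_⟩
  rw [rft_const_mul, (hlag k).2 y, gf, toP_lamL q hq k]
  have hq0 : (0 : ℝ) < q := by exact_mod_cast hq
  have hpi := Real.pi_pos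
  have h1 : (2 * (q : ℝ))⁻¹ * ((q : ℝ) * (2 * Real.pi * ‖y‖ ^ 2)) = Real.pi * ‖y‖ ^ 2 := by
    field_simp
  have h2 : ((q : ℝ) * (2 * Real.pi)) ^ k * (Real.pi ^ k)⁻¹ = (2 * (q : ℝ)) ^ k := by
    rw [← inv_pow, ← mul_pow]
    congr 1
    field_simp
  rw [eval_mul, eval_comp, eval_mul, eval_C, eval_C, eval_X, h1, ← h2]
  ring

theorem gf_add (q : ℤ) (u v : List ℤ) (y : P) : gf q (addL u v) y = gf q u y + gf q v y := by
  simp only [gf, toP_addL, eval_add]
  ring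

theorem gf_smul (q a : ℤ) (u : List ℤ) (y : P) : gf q (smulL a u) y = a * gf q u y := by
  simp only [gf, toP_smulL, eval_mul, eval_C]
  ring

theorem zero_fun (f : P → ℝ) (hf : ∀ x, f x = 0) : IsRS f ∧ ∀ y, rft f y = 0 := by
  have h : f = fun x => (0 : ℝ) * (Real.exp (-1 * ‖x‖ ^ 2)) := by
    funext x; rw [hf x, zero_mul]
  rw [h]
  exact ⟨(isRS_gauss one_pos).const_mul 0, fun y => by rw [rft_const_mul, zero_mul]⟩

theorem main (hlag : LagStatement) (q : ℤ) (hq : 0 < q) (p : List ℤ) (k : ℕ) :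
    IsRS (gfk q k p) ∧ ∀ y : P, rft (gfk q k p) y = gf q (Tr q k (lamL q k) p) y := by
  induction p generalizing k with
  | nil =>
    have h := zero_fun (gfk q k []) (fun x => by simp [gfk, toP])
    refine ⟨h.1, fun y => ?_⟩
    rw [h.2 y]
    simp [gf, Tr, toP]
  | cons a p ih =>
    have hf : gfk q k (a :: p) = fun x => (a : ℝ) * (((q : ℝ) * (2 * Real.pi * ‖x‖ ^ 2)) ^ k *
        Real.exp (-Real.pi * ‖x‖ ^ 2)) + gfk q (k + 1) p x := by
      funext x
      simp only [gfk, toP, eval_add, eval_mul, eval_C, eval_X]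
      ring
    have hm := mono hlag q hq k
    rw [hf]
    refine ⟨(hm.1.const_mul a).add (ih (k + 1)).1, fun y => ?_⟩
    rw [rft_add (hm.1.const_mul a) (ih (k + 1)).1, rft_const_mul, hm.2 y, (ih (k + 1)).2 y]
    rw [Tr, gf_add, gf_smul]
    rfl

theorem transform_of (hlag : LagStatement) (q : ℤ) (hq : 0 < q) (p : List ℤ) :
    IsRS (gf q p) ∧ ∀ y : P, rft (gf q p) y = gf q (Tr q 0 [1] p) y := by
  have h := main hlag q hq p 0
  have h0 : gfk q 0 p = gf q p := by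
    funext x
    simp [gfk, gf]
  rw [h0] at h
  exact h

end Trf

end Pool.Agent.J4.H93.NS
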